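import Pool.Agent.Lib_helper23.STSFrame

open Finset Sum

namespace Pool.Agent.Lib_helper23.STS

namespace Frame

variable {G Y : Type} [Group G] [AddCommGroup Y] (F : Frame G Y)

/-- The action of `G` on the points. -/
def act : G →* Equiv.Perm F.V where
  toFun g :=
    { toFun := Sum.map (fun p => (g * p.1, p.2)) id
      invFun := Sum.map (fun p => (g⁻¹ * p.1, p.2)) id
      left_inv := by rintro (p | w) <;> simp
      right_inv := by rintro (p | w) <;> simp }
  map_one' := by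
    ext (p | w) <;> simp
  map_mul' g h := by
    ext (p | w) <;> simp [mul_assoc]

@[simp] lemma act_inl (g : G) (p : G × Y) : F.act g (inl p) = inl (g * p.1, p.2) := rfl
@[simp] lemma act_inr (g : G) (w : F.W) : F.act g (inr w) = inr w := rfl

lemma act_injective : Function.Injective F.act := by
  intro g h hgh
  have := congrArg (fun σ : Equiv.Perm F.V => σ (inl (1, 0))) hgh
  simpa using this

variable {F}
variable (lm : Y × Y → Equiv.Perm G) (mW : F.W → F.W → F.W)

lemma a0_act (g : G) (w : G ⊕ (Y × G)) (p : G × Y) :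
    F.a0 lm w (g * p.1, p.2) = (g * (F.a0 lm w p).1, (F.a0 lm w p).2) := by
  rcases w with t | ⟨d, b⟩ <;> simp [a0, mul_assoc]

lemma f0_act (g : G) (p q : G × Y) :
    F.f0 lm (g * p.1, p.2) (g * q.1, q.2) =
      Sum.map (fun p => (g * p.1, p.2)) id (F.f0 lm p q) := by
  rcases F.f0_cases lm p q with rfl | ⟨w, hw, rfl⟩ | ⟨t, ht, rfl⟩ | ⟨h, hh, rfl⟩ | ⟨h, hh, rfl⟩ |
    ⟨h, hh, rfl⟩ | ⟨h, hh, rfl⟩ | ⟨h, i, hh, hp, rfl⟩ | ⟨h, i, hh, hp, rfl⟩
  · rw [f0_self, f0_self]; rfl
  · rw [← F.a0_act, F.f0_W lm _ w hw, F.f0_W lm _ w hw]; rfl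
  · obtain ⟨x, i⟩ := p
    dsimp only
    rw [← mul_assoc, F.f0_T lm _ i ht, F.f0_T lm _ i ht]
    simp [mul_assoc]
  · obtain ⟨x, i⟩ := p
    dsimp only
    rw [← mul_assoc, F.f0_R lm _ i hh, F.f0_R lm _ i hh]
    simp
  · obtain ⟨x, i⟩ := p
    dsimp only
    rw [← mul_assoc, F.f0_R' lm _ i hh, F.f0_R' lm _ i hh]
    simp [mul_assoc]
  · obtain ⟨x, i⟩ := p
    dsimp only
    rw [F.f0_E1 lm _ i hh, F.f0_E1 lm _ i hh]
    simp [mul_assoc]
  · obtain ⟨x, i⟩ := p
    dsimp only
    rw [← mul_assoc, F.f0_E2 lm _ i hh, F.f0_E2 lm _ i hh]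
    simp [mul_assoc]
  · obtain ⟨x, j⟩ := p
    simp only at hp
    subst hp
    dsimp only
    rw [F.f0_E3 lm _ i hh, F.f0_E3 lm _ i hh]
    simp [mul_assoc]
  · obtain ⟨x, j⟩ := p
    simp only at hp
    subst hp
    dsimp only
    rw [← mul_assoc, F.f0_E4 lm _ i hh, F.f0_E4 lm _ i hh]
    simp

lemma op_act (g : G) (p q : F.V) :
    F.act g (F.op mW lm p q) = F.op mW lm (F.act g p) (F.act g q) := by
  rcases p with p | w <;> rcases q with q | w'
  · rcases h : F.f0 lm p q with r | w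
    · have h2 := F.f0_act lm g p q
      rw [h] at h2
      rw [op_inl_inl_inl lm mW h]
      simp only [act_inl]
      rw [op_inl_inl_inl lm mW h2]
    · have hw := (F.f0_inr lm p q w h).1
      have h2 := F.f0_act lm g p q
      rw [h] at h2
      rw [op_inl_inl_inr lm mW h hw]
      simp only [act_inl]
      rw [op_inl_inl_inr lm mW h2 hw]
      rfl
  · obtain ⟨w, hw⟩ := w'
    rcases w with t | ⟨d, b⟩ <;> simp [op, a0, mul_assoc]
  · obtain ⟨w, hw⟩ := w
    rcases w with t | ⟨d, b⟩ <;> simp [op, a0, mul_assoc]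
  · simp [op]

variable (F)

/-- Point types: level `i`, direction `d`, or involution points. -/
abbrev Ty (Y : Type) := Y ⊕ Option Y

/-- The type of a point. -/
def ty : F.V → Ty Y
  | inl p => inl p.2
  | inr ⟨inl _, _⟩ => inr none
  | inr ⟨inr (d, _), _⟩ => inr (some d)

/-- ordered pair -/
def ord (i j : Y) : Y × Y := if F.o i < F.o j then (i, j) else (j, i)

/-- The coordinate on which a product depends. -/
def kap : Ty Y → Ty Y → Y × Y
  | inl i, inl j => F.ord i j
  | inl i, inr (some d) => F.ord i (i + d)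
  | inr (some d), inl i => F.ord i (i + d)
  | _, _ => (0, 0)

/-- free cells -/
def Cell (c : Y × Y) : Prop := F.o c.1 < F.o c.2 ∧ F.Eo c.1 c.2 = none ∧ F.Eo c.2 c.1 = none

/-- the three types in a cell -/
def tys (c : Y × Y) (t : Ty Y) : Prop := t = inl c.1 ∨ t = inl c.2 ∨ t = inr (some (c.1 + c.2))

variable {F}

lemma ord_comm (i j : Y) : F.ord i j = F.ord j i := by
  unfold ord
  rcases lt_trichotomy (F.o i) (F.o j) with h | h | h
  · simp [h, not_lt.mpr h.le]
  · have := F.o_inj _ _ h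
    subst this; rfl
  · simp [h, not_lt.mpr h.le]

lemma ord_of_lt {i j : Y} (h : F.o i < F.o j) : F.ord i j = (i, j) := by simp [ord, h]

lemma ord_eq (i j : Y) : F.ord i j = (i, j) ∨ F.ord i j = (j, i) := by
  unfold ord; split_ifs <;> simp

lemma kap_comm (t t' : Ty Y) : F.kap t t' = F.kap t' t := by
  rcases t with i | _ | d <;> rcases t' with j | _ | d' <;> simp [kap, ord_comm]

lemma Cell.ne {c : Y × Y} (h : F.Cell c) : c.1 ≠ c.2 := by
  intro h'
  have := h.1
  rw [h'] at this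
  exact lt_irrefl _ this

lemma lam_congr {lm lm' : Y × Y → Equiv.Perm G} {i j : Y} (h : lm (F.ord i j) = lm' (F.ord i j)) :
    F.lam lm i j = F.lam lm' i j := by
  unfold lam
  unfold ord at h
  split_ifs with h1 h2 h3
  · rfl
  · rfl
  · simpa [h3] using h
  · simp only [h3, if_false] at h
    rw [h]

lemma f0_congr {lm lm' : Y × Y → Equiv.Perm G} {p q : G × Y}
    (h : lm (F.ord p.2 q.2) = lm' (F.ord p.2 q.2)) : F.f0 lm p q = F.f0 lm' p q := by
  unfold f0
  rw [F.lam_congr h]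

lemma op_congr {lm lm' : Y × Y → Equiv.Perm G} (p q : F.V)
    (h : lm (F.kap (F.ty p) (F.ty q)) = lm' (F.kap (F.ty p) (F.ty q))) :
    F.op mW lm p q = F.op mW lm' p q := by
  rcases p with p | ⟨t | ⟨d, b⟩, hw⟩ <;> rcases q with q | ⟨t' | ⟨d', b'⟩, hw'⟩
  · simp only [ty, kap] at h
    simp only [op]
    rw [F.f0_congr h]
  · rfl
  · simp only [ty, kap] at h
    simp only [op, a0]
    rw [F.lam_congr h]
  · rfl
  · rfl
  · rfl
  · simp only [ty, kap] at h
    simp only [op, a0]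
    rw [F.lam_congr h]
  · rfl
  · rfl

/-- different types in the same cell determine the cell -/
lemma kap_of_tys {c : Y × Y} (hc : F.Cell c) {t t' : Ty Y} (ht : tys c t) (ht' : tys c t')
    (hne : t ≠ t') : F.kap t t' = c := by
  obtain ⟨i, j⟩ := c
  have h0 : F.ord i j = (i, j) := F.ord_of_lt hc.1
  have h1 : F.ord j i = (i, j) := by rw [ord_comm, h0]
  have h2 : i + (i + j) = j := F.add_self_cancel i j
  have h3 : j + (i + j) = i := by rw [add_comm i j, F.add_self_cancel]
  rcases ht with rfl | rfl | rfl <;> rcases ht' with rfl | rfl | rfl <;>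
    first | exact absurd rfl hne | simp [kap, h0, h1, h2, h3]

lemma tys_of_kap {c : Y × Y} (hc : F.Cell c) {t t' : Ty Y} (h : F.kap t t' = c) :
    tys c t ∧ tys c t' := by
  have hc0 : c ≠ (0, 0) := by
    rintro rfl
    exact hc.ne rfl
  obtain ⟨i, j⟩ := c
  have key : ∀ a b : Y, F.ord a b = (i, j) → (a = i ∧ b = j) ∨ (a = j ∧ b = i) := by
    intro a b hab
    rcases F.ord_eq a b with h | h
    · rw [h, Prod.mk.injEq] at hab
      exact Or.inl hab
    · rw [h, Prod.mk.injEq] at hab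
      exact Or.inr ⟨hab.2, hab.1⟩
  rcases t with a | _ | d <;> rcases t' with b | _ | d' <;> simp only [kap] at h
  · rcases key _ _ h with ⟨rfl, rfl⟩ | ⟨rfl, rfl⟩ <;> simp [tys]
  · exact absurd h.symm hc0
  · rcases key _ _ h with ⟨rfl, h2⟩ | ⟨rfl, h2⟩
    · have : a + j = d' := by rw [← h2, F.add_self_cancel]
      simp [tys, this]
    · have : i + a = d' := by rw [← h2, F.add_cancel'']
      simp [tys, this]
  · exact absurd h.symm hc0
  · exact absurd h.symm hc0
  · exact absurd h.symm hc0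
  · rcases key _ _ h with ⟨rfl, h2⟩ | ⟨rfl, h2⟩
    · have : b + j = d := by rw [← h2, F.add_self_cancel]
      simp [tys, this]
    · have : i + b = d := by rw [← h2, F.add_cancel'']
      simp [tys, this]
  · exact absurd h.symm hc0
  · exact absurd h.symm hc0

lemma Cell.valid {c : Y × Y} (hc : F.Cell c) (b : G) : F.validW (inr (c.1 + c.2, b)) := by
  obtain ⟨i, j⟩ := c
  obtain ⟨h0, h1, h2⟩ := hc
  dsimp only at h0 h1 h2 ⊢
  have hne : i ≠ j := by rintro rfl; exact lt_irrefl _ h0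
  refine ⟨?_, ?_⟩
  · intro h
    apply hne
    have := F.add_self_cancel i j
    rw [h, add_zero] at this
    exact this
  · intro g τ hg hd
    exfalso
    have hj : j = i + F.D g τ := by rw [← hd, F.add_self_cancel]
    have hi : i = j + F.D g τ := by rw [← hd, add_comm i j, F.add_self_cancel]
    have h3 : τ = F.par i ∨ τ = F.par j := by
      rw [hj, F.par_D]
      generalize F.par i = u
      clear hi hj hd
      revert u τ
      decide
    rcases h3 with rfl | rfl
    · exact (Eo_eq_none.mp h1) g ⟨hg, hj⟩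
    · exact (Eo_eq_none.mp h2) g ⟨hg, hi⟩

/-- a W-point in a free direction -/
def Cell.pt {c : Y × Y} (hc : F.Cell c) (b : G) : F.V := inr ⟨inr (c.1 + c.2, b), hc.valid b⟩

lemma Cell.ty_pt {c : Y × Y} (hc : F.Cell c) (b : G) : F.ty (hc.pt b) = inr (some (c.1 + c.2)) := rfl

lemma Cell.pt_inj {c : Y × Y} (hc : F.Cell c) {b b' : G} (h : hc.pt b = hc.pt b') : b = b' := by
  simpa [Cell.pt] using h

lemma Cell.exists_pt {c : Y × Y} (hc : F.Cell c) {p : F.V}
    (h : F.ty p = inr (some (c.1 + c.2))) : ∃ b, p = hc.pt b := by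
  rcases p with p | ⟨t | ⟨d, b⟩, hw⟩
  · simp [ty] at h
  · simp [ty] at h
  · simp only [ty, Sum.inr.injEq, Option.some.injEq] at h
    subst h
    exact ⟨b, rfl⟩

lemma exists_inl {i : Y} {p : F.V} (h : F.ty p = inl i) : ∃ x, p = inl (x, i) := by
  rcases p with p | ⟨t | ⟨d, b⟩, hw⟩
  · simp only [ty, Sum.inl.injEq] at h
    subst h
    exact ⟨p.1, rfl⟩
  · simp [ty] at h
  · simp [ty] at h

lemma Cell.op1 {c : Y × Y} (hc : F.Cell c) (x b : G) :
    F.op mW lm (inl (x, c.1)) (hc.pt b) = inl (x * lm c b, c.2) := by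
  obtain ⟨i, j⟩ := c
  have h2 : i + (i + j) = j := F.add_self_cancel i j
  obtain ⟨h3, h4, h5⟩ := hc
  dsimp only at h3 h4 h5
  simp [op, Cell.pt, a0, h2, lam, h3, h4, h5]

lemma Cell.op2 {c : Y × Y} (hc : F.Cell c) (x b : G) :
    F.op mW lm (inl (x, c.2)) (hc.pt b) = inl (x * (lm c b)⁻¹, c.1) := by
  obtain ⟨i, j⟩ := c
  have h2 : j + (i + j) = i := by rw [add_comm i j, F.add_self_cancel]
  obtain ⟨h3, h4, h5⟩ := hc
  dsimp only at h3 h4 h5
  simp [op, Cell.pt, a0, h2, lam, not_lt.mpr h3.le, h4, h5]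

end Frame

end Pool.Agent.Lib_helper23.STS
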