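import Mathlib

open Finset

namespace Pool.Agent.Lib_helper23.STS

/-- Steiner quasigroup (squag). -/
structure IsSquag {V : Type*} (m : V → V → V) : Prop where
  idem : ∀ x, m x x = x
  comm : ∀ x y, m x y = m y x
  inv : ∀ x y, m x (m x y) = y

namespace IsSquag

variable {V : Type*} {m : V → V → V}

lemma ne_left (hm : IsSquag m) {x y : V} (h : x ≠ y) : m x y ≠ x := by
  intro h1
  have h2 := hm.inv x y
  rw [h1, hm.idem] at h2
  exact h h2

lemma ne_right (hm : IsSquag m) {x y : V} (h : x ≠ y) : m x y ≠ y := by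
  rw [hm.comm]
  exact hm.ne_left h.symm

lemma inj (hm : IsSquag m) (x : V) {y z : V} (h : m x y = m x z) : y = z := by
  rw [← hm.inv x y, h, hm.inv]

/-- transport along an equivalence -/
lemma transport {V' : Type*} (hm : IsSquag m) (e : V ≃ V') :
    IsSquag (fun x y : V' => e (m (e.symm x) (e.symm y))) where
  idem x := by simp [hm.idem]
  comm x y := by simp [hm.comm]
  inv x y := by simp [hm.inv]

/-- an automorphism of a finite squag with more than half fixed points is the identity -/
lemma eq_one_of_fix [Fintype V] [DecidableEq V] (hm : IsSquag m) (σ : Equiv.Perm V)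
    (hσ : ∀ x y, σ (m x y) = m (σ x) (σ y))
    (hfix : Fintype.card V < 2 * #{x | σ x = x}) : σ = 1 := by
  by_contra hne
  obtain ⟨p, hp⟩ : ∃ p, σ p ≠ p := by
    by_contra hcon
    push Not at hcon
    exact hne (Equiv.ext hcon)
  set A : Finset V := {x | σ x = x} with hA
  have hmaps : ∀ x ∈ A, m p x ∈ Aᶜ := by
    intro x hx
    rw [hA, Finset.mem_filter] at hx
    rw [Finset.mem_compl, hA, Finset.mem_filter, not_and]
    intro _ h
    rw [hσ, hx.2] at h
    -- `m (σ p) x = m p x`
    rw [hm.comm (σ p) x, hm.comm p x] at h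
    exact hp (hm.inj x h)
  have hinj : Set.InjOn (fun x => m p x) A := fun x _ y _ h => hm.inj p h
  have hle : #A ≤ #Aᶜ := Finset.card_le_card_of_injOn _ hmaps hinj
  have hc := Finset.card_add_card_compl A
  omega

end IsSquag

/-- The block set of a squag. -/
def blocks {N : ℕ} (m : Fin N → Fin N → Fin N) : Finset (Finset (Fin N)) :=
  (univ.filter fun q : Fin N × Fin N => q.1 ≠ q.2).image fun q => {q.1, q.2, m q.1 q.2}

lemma mem_blocks {N : ℕ} {m : Fin N → Fin N → Fin N} {b : Finset (Fin N)} :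
    b ∈ blocks m ↔ ∃ x y, x ≠ y ∧ b = {x, y, m x y} := by
  unfold blocks
  simp only [Finset.mem_image, Finset.mem_filter, Finset.mem_univ, true_and, Prod.exists]
  constructor
  · rintro ⟨x, y, h, rfl⟩
    exact ⟨x, y, h, rfl⟩
  · rintro ⟨x, y, h, rfl⟩
    exact ⟨x, y, h, rfl⟩

lemma blocks_unique {N : ℕ} {m : Fin N → Fin N → Fin N} (hm : IsSquag m) {b : Finset (Fin N)}
    (hb : b ∈ blocks m) {x y : Fin N} (hxy : x ≠ y) (hx : x ∈ b) (hy : y ∈ b) :
    b = {x, y, m x y} := by
  obtain ⟨u, v, huv, rfl⟩ := mem_blocks.mp hb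
  have h1 : m u (m u v) = v := hm.inv u v
  have h2 : m v (m u v) = u := by rw [hm.comm u v, hm.inv]
  have h3 : m (m u v) u = v := by rw [hm.comm, h1]
  have h4 : m (m u v) v = u := by rw [hm.comm, h2]
  have h5 : m v u = m u v := hm.comm v u
  simp only [Finset.mem_insert, Finset.mem_singleton] at hx hy
  rcases hx with rfl | rfl | rfl <;> rcases hy with rfl | rfl | rfl
  · exact absurd rfl hxy
  · rfl
  · rw [h1]; ext z; simp; tauto
  · rw [h5]; ext z; simp; tauto
  · exact absurd rfl hxy
  · rw [h2]; ext z; simp; tauto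
  · rw [h3]; ext z; simp; tauto
  · rw [h4]; ext z; simp; tauto
  · exact absurd rfl hxy

lemma blocks_card {N : ℕ} {m : Fin N → Fin N → Fin N} (hm : IsSquag m) {b : Finset (Fin N)}
    (hb : b ∈ blocks m) : b.card = 3 := by
  obtain ⟨u, v, huv, rfl⟩ := mem_blocks.mp hb
  rw [Finset.card_eq_three]
  exact ⟨u, v, m u v, huv, (hm.ne_left huv).symm, (hm.ne_right huv).symm, rfl⟩

lemma blocks_existsUnique {N : ℕ} {m : Fin N → Fin N → Fin N} (hm : IsSquag m)
    (x y : Fin N) (hxy : x ≠ y) : ∃! b, b ∈ blocks m ∧ x ∈ b ∧ y ∈ b := by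
  refine ⟨{x, y, m x y}, ⟨mem_blocks.mpr ⟨x, y, hxy, rfl⟩, by simp, by simp⟩, ?_⟩
  rintro b ⟨hb, hx, hy⟩
  exact blocks_unique hm hb hxy hx hy

lemma blocks_aut {N : ℕ} {m : Fin N → Fin N → Fin N} (hm : IsSquag m)
    (σ : Equiv.Perm (Fin N)) :
    (∀ b : Finset (Fin N), (b ∈ blocks m ↔ b.map σ.toEmbedding ∈ blocks m)) ↔
      ∀ x y, σ (m x y) = m (σ x) (σ y) := by
  constructor
  · intro h x y
    by_cases hxy : x = y
    · subst hxy
      rw [hm.idem, hm.idem]
    · have h1 := (h {x, y, m x y}).mp (mem_blocks.mpr ⟨x, y, hxy, rfl⟩)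
      have hne : σ x ≠ σ y := fun h => hxy (σ.injective h)
      have h2 := blocks_unique hm h1 hne (by simp) (by simp)
      have h3 : σ (m x y) ∈ ({x, y, m x y} : Finset (Fin N)).map σ.toEmbedding := by simp
      rw [h2] at h3
      simp only [Finset.mem_insert, Finset.mem_singleton] at h3
      rcases h3 with h3 | h3 | h3
      · exact absurd (σ.injective h3) (hm.ne_left hxy)
      · exact absurd (σ.injective h3) (hm.ne_right hxy)
      · exact h3
  · intro h b
    have key : ∀ τ : Equiv.Perm (Fin N), (∀ x y, τ (m x y) = m (τ x) (τ y)) →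
        ∀ b : Finset (Fin N), b ∈ blocks m → b.map τ.toEmbedding ∈ blocks m := by
      intro τ hτ b hb
      obtain ⟨x, y, hxy, rfl⟩ := mem_blocks.mp hb
      refine mem_blocks.mpr ⟨τ x, τ y, fun h => hxy (τ.injective h), ?_⟩
      rw [← hτ]
      ext z
      simp
    constructor
    · exact key σ h b
    · intro hb
      have h' : ∀ x y, σ.symm (m x y) = m (σ.symm x) (σ.symm y) := by
        intro x y
        apply σ.injective
        rw [h]
        simp
      have := key σ.symm h' _ hb
      rw [Finset.map_map] at this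
      convert this
      ext z
      simp

/-- From a finite squag with automorphism group `G` to the frozen statement. -/
theorem of_squag {G : Type} [Group G] [Fintype G] {V : Type*} [Fintype V]
    {m : V → V → V} (hm : IsSquag m) (φ : G →* Equiv.Perm V) (hφ : Function.Injective φ)
    (haut : ∀ σ : Equiv.Perm V, σ ∈ φ.range ↔ ∀ x y, σ (m x y) = m (σ x) (σ y)) (K : ℕ)
    (hcard : Fintype.card V ≤ K) :
    ∃ (N : ℕ) (B : Finset (Finset (Fin N))),
        N ≤ K ∧
        (∀ b ∈ B, b.card = 3) ∧
        (∀ x y : Fin N, x ≠ y → ∃! b, b ∈ B ∧ x ∈ b ∧ y ∈ b) ∧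
        ∃ φ : G →* Equiv.Perm (Fin N), Function.Injective φ ∧
          ∀ σ : Equiv.Perm (Fin N),
            (σ ∈ φ.range ↔ ∀ b : Finset (Fin N), (b ∈ B ↔ b.map σ.toEmbedding ∈ B)) := by
  classical
  let e : V ≃ Fin (Fintype.card V) := Fintype.equivFin V
  let m' : Fin (Fintype.card V) → Fin (Fintype.card V) → Fin (Fintype.card V) :=
    fun x y => e (m (e.symm x) (e.symm y))
  have hm' : IsSquag m' := hm.transport e
  let φ' : G →* Equiv.Perm (Fin (Fintype.card V)) := (e.permCongrHom.toMonoidHom).comp φ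
  refine ⟨Fintype.card V, blocks m', hcard, fun b hb => blocks_card hm' hb,
    fun x y hxy => blocks_existsUnique hm' x y hxy, φ', ?_, ?_⟩
  · exact e.permCongrHom.injective.comp hφ
  · intro σ
    rw [blocks_aut hm']
    constructor
    · rintro ⟨g, rfl⟩ x y
      have h := (haut (φ g)).mp ⟨g, rfl⟩ (e.symm x) (e.symm y)
      simp [φ', m', h]
    · intro h
      have h2 : ∀ x y, (e.permCongr.symm σ) (m x y) =
          m ((e.permCongr.symm σ) x) ((e.permCongr.symm σ) y) := by
        intro x y
        have := h (e x) (e y)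
        simp only [m', Equiv.symm_apply_apply] at this
        simp [Equiv.permCongr_symm, this]
      obtain ⟨g, hg⟩ := (haut _).mpr h2
      refine ⟨g, ?_⟩
      have h3 : e.permCongr (φ g) = σ := by
        rw [hg]
        exact e.permCongr.apply_symm_apply σ
      exact h3

end Pool.Agent.Lib_helper23.STS
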