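import Pool.Agent.Lib_helper23.STSBasic

open Finset

namespace Pool.Agent.Lib_helper23.STS

section Bose

variable (t : ℕ)

/-- half in `ZMod (2t+1)`. -/
def hlf : ZMod (2 * t + 1) := ((t + 1 : ℕ) : ZMod (2 * t + 1))

lemma two_hlf : (2 : ZMod (2 * t + 1)) * hlf t = 1 := by
  have h : ((2 * t + 1 : ℕ) : ZMod (2 * t + 1)) = 0 := ZMod.natCast_self _
  unfold hlf
  have : (2 : ZMod (2 * t + 1)) * ((t + 1 : ℕ) : ZMod (2 * t + 1)) =
      ((2 * t + 1 : ℕ) : ZMod (2 * t + 1)) + 1 := by push_cast; ring
  rw [this, h, zero_add]

/-- The Bose squag. -/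
def boseOp (p q : ZMod (2 * t + 1) × ZMod 3) : ZMod (2 * t + 1) × ZMod 3 :=
  if p.1 = q.1 then (p.1, -(p.2 + q.2))
  else if p.2 = q.2 then ((p.1 + q.1) * hlf t, p.2 + 1)
  else if p.2 = q.2 + 1 then (2 * p.1 - q.1, q.2)
  else (2 * q.1 - p.1, p.2)

lemma zmod3_cases (i j : ZMod 3) : i = j ∨ i = j + 1 ∨ j = i + 1 := by
  revert i j; decide

lemma zmod3_a (i : ZMod 3) : i + 1 ≠ i := by revert i; decide
lemma zmod3_a' (i : ZMod 3) : i ≠ i + 1 := by revert i; decide
lemma zmod3_b (i : ZMod 3) : i ≠ i + 1 + 1 := by revert i; decide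
lemma zmod3_b' (i : ZMod 3) : i + 1 + 1 ≠ i := by revert i; decide
lemma zmod3_c (i : ZMod 3) : -(i + i) = i := by revert i; decide
lemma zmod3_d (i j : ZMod 3) : -(i + -(i + j)) = j := by revert i j; decide

lemma cancel_two {x y : ZMod (2 * t + 1)} (h : 2 * x = 2 * y) : x = y := by
  have h2 := two_hlf t
  calc x = (2 * hlf t) * x := by rw [h2, one_mul]
    _ = hlf t * (2 * x) := by ring
    _ = hlf t * (2 * y) := by rw [h]
    _ = (2 * hlf t) * y := by ring
    _ = y := by rw [h2, one_mul]

theorem bose_isSquag : IsSquag (boseOp t) where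
  idem := by
    rintro ⟨a, i⟩
    simp only [boseOp, if_true, zmod3_c]
  comm := by
    rintro ⟨a, i⟩ ⟨b, j⟩
    unfold boseOp
    by_cases hab : a = b
    · subst hab; simp [add_comm]
    · have hba : b ≠ a := fun h => hab h.symm
      rcases zmod3_cases i j with rfl | rfl | rfl
      · simp [hab, hba, add_comm]
      · simp [hab, hba, zmod3_b]
      · simp [hab, hba, zmod3_b]
  inv := by
    have h2 := two_hlf t
    rintro ⟨a, i⟩ ⟨b, j⟩
    by_cases hab : a = b
    · subst hab
      simp only [boseOp, if_true]
      rw [zmod3_d]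
    · have hba : b ≠ a := fun h => hab h.symm
      rcases zmod3_cases i j with rfl | rfl | rfl
      · -- same level
        have h1 : boseOp t (a, i) (b, i) = ((a + b) * hlf t, i + 1) := by
          simp [boseOp, hab]
        rw [h1]
        have h3 : a ≠ (a + b) * hlf t := by
          intro h
          apply hab
          have h4 : 2 * a = a + b := by
            calc 2 * a = 2 * ((a + b) * hlf t) := by rw [← h]
              _ = (2 * hlf t) * (a + b) := by ring
              _ = a + b := by rw [h2, one_mul]
          have : a + a = a + b := by rw [← h4]; ring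
          exact add_left_cancel this
        have h5 : 2 * ((a + b) * hlf t) - a = b := by
          have : 2 * ((a + b) * hlf t) = (2 * hlf t) * (a + b) := by ring
          rw [this, h2]; ring
        simp [boseOp, h3, h5, zmod3_b]
      · -- i = j + 1 : result (2a - b, j)
        have h1 : boseOp t (a, j + 1) (b, j) = (2 * a - b, j) := by
          simp [boseOp, hab]
        rw [h1]
        have h3 : a ≠ 2 * a - b := by
          intro h
          apply hab
          have : a - b = 0 := by
            calc a - b = (2 * a - b) - a := by ring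
              _ = 0 := by rw [← h]; ring
          exact sub_eq_zero.mp this
        simp [boseOp, h3]
      · have h1 : boseOp t (a, i) (b, i + 1) = (2 * b - a, i) := by
          simp [boseOp, hab, zmod3_b]
        rw [h1]
        have h3 : a ≠ 2 * b - a := by
          intro h
          apply hab
          apply cancel_two t
          calc 2 * a = a + a := by ring
            _ = a + (2 * b - a) := by rw [← h]
            _ = 2 * b := by ring
        have h5 : 2 * b * hlf t = b := by
          calc 2 * b * hlf t = (2 * hlf t) * b := by ring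
            _ = b := by rw [h2, one_mul]
        simp [boseOp, h3, h5]

end Bose

/-- Any finite type whose cardinality is `≡ 3 mod 6` carries a squag. -/
theorem exists_squag {W : Type*} [Fintype W] (h : Fintype.card W % 6 = 3) :
    ∃ m : W → W → W, IsSquag m := by
  classical
  obtain ⟨t, ht⟩ : ∃ t, Fintype.card W = (2 * t + 1) * 3 := ⟨Fintype.card W / 6, by omega⟩
  have hcard : Fintype.card (ZMod (2 * t + 1) × ZMod 3) = Fintype.card W := by
    rw [Fintype.card_prod, ZMod.card, ZMod.card, ht]
  let e : ZMod (2 * t + 1) × ZMod 3 ≃ W := Fintype.equivOfCardEq hcard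
  exact ⟨_, (bose_isSquag t).transport e⟩

end Pool.Agent.Lib_helper23.STS
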