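import Mathlib

open Finset

namespace Pool.Agent.Lib_helper23.STS

/-- a set moved off itself by an injection has at most half of the elements -/
lemma half_of_inj {P : Type*} [Fintype P] [DecidableEq P] (A : Finset P) (f : P → P)
    (hf : Function.Injective f) (hA : ∀ v ∈ A, f v ∉ A) : 2 * #A ≤ Fintype.card P := by
  have h1 : #(A.image f) = #A := Finset.card_image_of_injective _ hf
  have h2 : Disjoint A (A.image f) := by
    rw [Finset.disjoint_left]
    intro v hv hv'
    obtain ⟨u, hu, rfl⟩ := Finset.mem_image.mp hv'
    exact hA u hu hv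
  have h3 : #(A ∪ A.image f) ≤ Fintype.card P := Finset.card_le_univ _
  rw [Finset.card_union_of_disjoint h2, h1] at h3
  omega

section L1

variable {C P : Type*} [Fintype C] [DecidableEq C] [Fintype P] [DecidableEq P]

/-- one-coordinate step -/
lemma step (c : C) (A : Finset (C → P)) (Rel : P → (C → P) → Prop) [∀ v l, Decidable (Rel v l)]
    (hA : ∀ l v, l ∈ A → Function.update l c v ∈ A)
    (hR : ∀ v l w, Rel v l → Rel v (Function.update l c w))
    (hhalf : ∀ l, 2 * #{v | Rel v l} ≤ Fintype.card P) :
    2 * #(A.filter fun l => Rel (l c) l) ≤ #A := by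
  classical
  rcases isEmpty_or_nonempty P with hP | ⟨⟨v0⟩⟩
  · have : IsEmpty (C → P) := ⟨fun l => hP.elim (l c)⟩
    simp [Finset.eq_empty_of_isEmpty]
  let π : (C → P) → (C → P) := fun l => Function.update l c v0
  have h1 : #(A.filter fun l => Rel (l c) l) =
      ∑ μ ∈ A.image π, #((A.filter fun l => Rel (l c) l).filter fun l => π l = μ) := by
    apply Finset.card_eq_sum_card_fiberwise
    intro l hl
    exact Finset.mem_image_of_mem _ (Finset.mem_filter.mp hl).1
  have h2 : #A = ∑ μ ∈ A.image π, #(A.filter fun l => π l = μ) := by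
    apply Finset.card_eq_sum_card_fiberwise
    intro l hl
    exact Finset.mem_image_of_mem _ hl
  rw [h1, h2, Finset.mul_sum]
  apply Finset.sum_le_sum
  intro μ hμ
  obtain ⟨l0, hl0, rfl⟩ := Finset.mem_image.mp hμ
  have h3 : #((A.filter fun l => Rel (l c) l).filter fun l => π l = π l0) ≤ #{v | Rel v l0} := by
    apply Finset.card_le_card_of_injOn (fun l => l c)
    · intro l hl
      simp only [Finset.coe_filter, Finset.mem_filter, Set.mem_ofPred_eq] at hl
      obtain ⟨⟨_, h4⟩, h5⟩ := hl
      simp only [Finset.coe_filter, Finset.mem_univ, true_and, Set.mem_ofPred_eq]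
      have h6 := hR _ _ (l0 c) h4
      have h7 : Function.update l c (l0 c) = l0 := by
        ext x
        by_cases hx : x = c
        · subst hx; simp
        · have := congrFun h5 x
          simp only [π, Function.update_of_ne hx] at this
          rw [Function.update_of_ne hx, this]
      rwa [h7] at h6
    · intro l hl l' hl' hll
      simp only [Finset.coe_filter, Finset.mem_filter, Set.mem_ofPred_eq] at hl hl'
      have h5 := hl.2.trans hl'.2.symm
      ext x
      by_cases hx : x = c
      · subst hx; exact hll
      · have := congrFun h5 x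
        simpa [π, Function.update_of_ne hx] using this
  have h4 : Fintype.card P ≤ #(A.filter fun l => π l = π l0) := by
    rw [← Finset.card_univ]
    apply Finset.card_le_card_of_injOn (fun v => Function.update l0 c v)
    · intro v _
      simp only [Finset.coe_filter, Set.mem_ofPred_eq]
      refine ⟨hA _ _ hl0, ?_⟩
      simp [π]
    · intro v _ v' _ h
      have := congrFun h c
      simpa using this
  calc 2 * #((A.filter fun l => Rel (l c) l).filter fun l => π l = π l0)
      ≤ 2 * #{v | Rel v l0} := Nat.mul_le_mul_left _ h3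
    _ ≤ Fintype.card P := hhalf l0
    _ ≤ _ := h4

/-- the counting lemma -/
lemma count_aux (rank : C → ℕ) (Rel : C → P → (C → P) → Prop)
    (hdep : ∀ c v l l', (∀ c', rank c' < rank c → l c' = l' c') → Rel c v l → Rel c v l')
    (S : Finset C) (hinj : Set.InjOn rank S) [DecidablePred fun l : C → P => ∀ c ∈ S, Rel c (l c) l]
    [∀ c v l, Decidable (Rel c v l)]
    (hhalf : ∀ c ∈ S, ∀ l, 2 * #{v | Rel c v l} ≤ Fintype.card P) :
    2 ^ #S * #{l : C → P | ∀ c ∈ S, Rel c (l c) l} ≤ Fintype.card (C → P) := by
  classical
  induction' hn : #S with m ih generalizing S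
  · rw [Finset.card_eq_zero] at hn
    subst hn
    simp only [pow_zero, one_mul]
    exact Finset.card_le_univ _
  · have hne : S.Nonempty := by
      rw [← Finset.card_pos]; omega
    obtain ⟨c, hc, hmax⟩ := Finset.exists_max_image S rank hne
    have hcard : #(S.erase c) = m := by
      rw [Finset.card_erase_of_mem hc]; omega
    have hlt : ∀ c' ∈ S.erase c, rank c' < rank c := by
      intro c' hc'
      obtain ⟨h1, h2⟩ := Finset.mem_erase.mp hc'
      exact lt_of_le_of_ne (hmax c' h2) fun h => h1 (hinj h2 hc h)
    have h1 := ih (S.erase c) (hinj.mono (by simpa using Finset.erase_subset c S))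
      (fun c' hc' => hhalf c' (Finset.mem_of_mem_erase hc')) hcard
    have h2 := step c ({l : C → P | ∀ c' ∈ S.erase c, Rel c' (l c') l} : Finset (C → P))
      (fun v l => Rel c v l) ?_ ?_ (hhalf c hc)
    · have h3 : ({l : C → P | ∀ c' ∈ S, Rel c' (l c') l} : Finset (C → P)) =
          ({l : C → P | ∀ c' ∈ S.erase c, Rel c' (l c') l} : Finset (C → P)).filter
            (fun l => Rel c (l c) l) := by
        ext l
        simp only [Finset.mem_filter, Finset.mem_univ, true_and]
        constructor
        · intro h
          exact ⟨fun c' hc' => h c' (Finset.mem_of_mem_erase hc'), h c hc⟩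
        · rintro ⟨h, h'⟩ c' hc'
          by_cases hcc : c' = c
          · subst hcc; exact h'
          · exact h c' (Finset.mem_erase.mpr ⟨hcc, hc'⟩)
      rw [h3, pow_succ]
      calc 2 ^ m * 2 * _ = 2 ^ m * (2 * _) := by ring
        _ ≤ 2 ^ m * _ := Nat.mul_le_mul_left _ h2
        _ ≤ _ := h1
    · intro l v hl
      simp only [Finset.mem_filter, Finset.mem_univ, true_and] at hl ⊢
      intro c' hc'
      have h4 := hlt c' hc'
      have h5 : c' ≠ c := (Finset.mem_erase.mp hc').1
      rw [Function.update_of_ne h5]
      refine hdep c' _ l _ ?_ (hl c' hc')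
      intro c'' h6
      rw [Function.update_of_ne]
      rintro rfl
      omega
    · intro v l w h
      refine hdep c _ l _ ?_ h
      intro c'' h6
      rw [Function.update_of_ne]
      rintro rfl
      omega

end L1

section H

variable {G : Type*} [Fintype G] [DecidableEq G]

/-- H1 : prescribing one value. -/
lemma half_value (hG : 2 ≤ Fintype.card G) (b t : G) :
    2 * #{v : Equiv.Perm G | v b = t} ≤ Fintype.card (Equiv.Perm G) := by
  obtain ⟨t', ht'⟩ : ∃ t', t' ≠ t := by
    have : Nontrivial G := Fintype.one_lt_card_iff_nontrivial.mp (by omega)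
    exact exists_ne t
  apply half_of_inj _ (fun v => Equiv.swap t t' * v) (mul_right_injective _)
  intro v hv
  simp only [Finset.mem_filter, Finset.mem_univ, true_and, Equiv.Perm.mul_apply] at hv ⊢
  rw [hv, Equiv.swap_apply_left]
  exact ht'

lemma exists_third (hG : 3 ≤ Fintype.card G) (a b : G) : ∃ c, c ≠ a ∧ c ≠ b := by
  have h1 : #({a, b} : Finset G) ≤ 2 := Finset.card_le_two
  have h2 : ({a, b} : Finset G) ≠ univ := by
    intro h
    rw [h, Finset.card_univ] at h1
    omega
  obtain ⟨c, hc⟩ : ∃ c, c ∉ ({a, b} : Finset G) := by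
    by_contra hcon
    push Not at hcon
    exact h2 (Finset.eq_univ_iff_forall.mpr hcon)
  refine ⟨c, ?_, ?_⟩
  · rintro rfl; simp at hc
  · rintro rfl; simp at hc

/-- H2 : the preserved nontrivial case. -/
lemma half_cocycle [Group G] (hG : 3 ≤ Fintype.card G) (αi αj β : G → G)
    (h : ¬ ∃ g, (∀ x, αi x = g * x) ∧ (∀ x, αj x = g * x) ∧ ∀ b, β b = b) :
    2 * #{v : Equiv.Perm G | ∀ x b, αj (x * v b) = αi x * v (β b)} ≤
      Fintype.card (Equiv.Perm G) := by
  by_cases hβ : ∀ b, β b = b
  · have hempty : ({v : Equiv.Perm G | ∀ x b, αj (x * v b) = αi x * v (β b)} :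
        Finset (Equiv.Perm G)) = ∅ := by
      rw [Finset.filter_eq_empty_iff]
      intro v _ hv
      apply h
      have h1 : ∀ x g, αj (x * g) = αi x * g := by
        intro x g
        have := hv x (v.symm g)
        rwa [hβ, Equiv.apply_symm_apply] at this
      have h2 : ∀ x, αj x = αi 1 * x := by
        intro x
        have := h1 1 x
        rwa [one_mul] at this
      have h3 : ∀ x, αj x = αi x := by
        intro x
        have := h1 x 1
        rwa [mul_one, mul_one] at this
      exact ⟨αi 1, fun x => by rw [← h3, h2], h2, hβ⟩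
    rw [hempty]
    simp
  · push Not at hβ
    obtain ⟨b1, hb1⟩ := hβ
    obtain ⟨b3, hb3, hb3'⟩ := exists_third hG b1 (β b1)
    apply half_of_inj _ (fun v => v * Equiv.swap (β b1) b3) (mul_left_injective _)
    intro v hv hv'
    simp only [Finset.mem_filter, Finset.mem_univ, true_and, Equiv.Perm.mul_apply] at hv hv'
    have h1 := hv 1 b1
    have h2 := hv' 1 b1
    rw [Equiv.swap_apply_of_ne_of_ne hb1.symm (Ne.symm hb3), Equiv.swap_apply_left] at h2
    rw [h1] at h2
    have h3 := v.injective (mul_left_cancel h2)
    exact hb3' h3.symm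

end H

end Pool.Agent.Lib_helper23.STS
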