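import Pool.Agent.Lib_helper23.STSRigid

open Finset Sum

namespace Pool.Agent.Lib_helper23.STS

namespace Frame

variable {G Y : Type} [Group G] [AddCommGroup Y] {F : Frame G Y} [Fintype Y] [Fintype G]

omit [Fintype Y] in
open scoped Classical in
lemma card_type [Fintype F.V] {c : Y × Y} (hc : F.Cell c) {t : Ty Y} (ht : tys c t) :
    Fintype.card G ≤ #{p : F.V | F.ty p = t} := by
  rw [← Finset.card_univ]
  rcases ht with rfl | rfl | rfl
  · apply Finset.card_le_card_of_injOn (fun x : G => (inl (x, c.1) : F.V))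
    · intro x _
      have : F.ty (inl (x, c.1)) = inl c.1 := rfl
      simp [this]
    · intro x _ y _ h; simpa using h
  · apply Finset.card_le_card_of_injOn (fun x : G => (inl (x, c.2) : F.V))
    · intro x _
      have : F.ty (inl (x, c.2)) = inl c.2 := rfl
      simp [this]
    · intro x _ y _ h; simpa using h
  · apply Finset.card_le_card_of_injOn (fun x : G => hc.pt x)
    · intro x _; simp [hc.ty_pt]
    · intro x _ y _ h; exact hc.pt_inj h

open scoped Classical in
theorem triv_many [Fintype F.V] {mW : F.W → F.W → F.W} (hmW : IsSquag mW)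
    (lm : Y × Y → Equiv.Perm G) (σ : Equiv.Perm F.V)
    (hσ : ∀ p q, σ (F.op mW lm p q) = F.op mW lm (σ p) (σ q))
    (hV : Fintype.card F.V ≤ 2 * Fintype.card G * Fintype.card Y)
    (hT : Fintype.card Y * Fintype.card Y ≤ 4 * #(F.cells.filter fun c => Triv σ c)) :
    σ ∈ F.act.range := by
  set Tr := F.cells.filter fun c => Triv σ c with hTr
  have hkpos : 0 < Fintype.card Y := Fintype.card_pos_iff.mpr ⟨0⟩
  -- double counting
  have hdc : ∑ i : Y, #(Tr.filter fun c => tys c (inl i)) = 2 * #Tr := by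
    have h1 := Finset.sum_card_bipartiteAbove_eq_sum_card_bipartiteBelow (s := (univ : Finset Y))
      (t := Tr) (fun i c => tys c (inl i))
    unfold Finset.bipartiteAbove Finset.bipartiteBelow at h1
    rw [h1, Finset.sum_const_nat (m := 2), mul_comm]
    intro c hc
    have hcell := mem_cells.mp (Finset.mem_filter.mp hc).1
    have h2 : (univ.filter fun i => tys c (inl i)) = {c.1, c.2} := by
      ext i
      simp [tys]
    rw [h2, Finset.card_pair hcell.ne]
  obtain ⟨i0, hi0⟩ : ∃ i0 : Y, 2 * #Tr ≤ Fintype.card Y * #(Tr.filter fun c => tys c (inl i0)) := by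
    by_contra hcon
    push Not at hcon
    have h1 : ∑ i : Y, Fintype.card Y * #(Tr.filter fun c => tys c (inl i)) <
        ∑ i : Y, 2 * #Tr := by
      apply Finset.sum_lt_sum_of_nonempty ⟨0, Finset.mem_univ _⟩
      intro i _
      exact hcon i
    rw [← Finset.mul_sum, hdc, Finset.sum_const, Finset.card_univ, smul_eq_mul] at h1
    exact lt_irrefl _ h1
  set A := Tr.filter fun c => tys c (inl i0) with hA
  have hkA : Fintype.card Y ≤ 2 * #A := by
    have h1 : Fintype.card Y * Fintype.card Y ≤ Fintype.card Y * (2 * #A) := by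
      calc _ ≤ 4 * #Tr := hT
        _ = 2 * (2 * #Tr) := by ring
        _ ≤ 2 * (Fintype.card Y * #A) := Nat.mul_le_mul_left 2 hi0
        _ = _ := by ring
    exact Nat.le_of_mul_le_mul_left h1 hkpos
  have hAcell : ∀ c ∈ A, F.Cell c := fun c hc =>
    mem_cells.mp (Finset.mem_filter.mp (Finset.mem_filter.mp hc).1).1
  have hAi : ∀ c ∈ A, tys c (inl i0) := fun c hc => (Finset.mem_filter.mp hc).2
  have hAt : ∀ c ∈ A, Triv σ c := fun c hc =>
    (Finset.mem_filter.mp (Finset.mem_filter.mp hc).1).2
  obtain ⟨c0, hc0⟩ : A.Nonempty := by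
    rw [← Finset.card_pos]; omega
  obtain ⟨h, hh⟩ := hAt c0 hc0
  have hh0 : σ (inl (1, i0)) = inl (h, i0) := by
    rw [hh (inl (1, i0)) (hAi c0 hc0)]
    simp
  -- the same group element works everywhere
  have hall : ∀ c ∈ A, ∀ p, tys c (F.ty p) → σ p = F.act h p := by
    intro c hc p hp
    obtain ⟨g, hg⟩ := hAt c hc
    have h1 := hg (inl (1, i0)) (hAi c hc)
    rw [hh0] at h1
    have h2 : h = g := by simpa using h1
    rw [h2]
    exact hg p hp
  -- the types involved
  let T0 : Finset (Ty Y) := univ.filter fun t => ∃ c ∈ A, tys c t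
  let t1 : Y × Y → Ty Y := fun c => inl (if c.1 = i0 then c.2 else c.1)
  let t2 : Y × Y → Ty Y := fun c => inr (some (c.1 + c.2))
  have ht1 : ∀ c ∈ A, tys c (t1 c) ∧ t1 c ≠ inl i0 := by
    intro c hc
    have hne := (hAcell c hc).ne
    by_cases h1 : c.1 = i0
    · refine ⟨Or.inr (Or.inl (by simp [t1, h1])), ?_⟩
      simp only [t1, h1, if_true]
      intro h2
      apply hne
      rw [h1, Sum.inl_injective h2]
    · refine ⟨Or.inl (by simp [t1, h1]), ?_⟩
      simp only [t1, h1, if_false]
      intro h2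
      exact h1 (Sum.inl_injective h2)
  have ht2 : ∀ c ∈ A, tys c (t2 c) ∧ t2 c ≠ inl i0 := by
    intro c hc
    exact ⟨Or.inr (Or.inr rfl), by simp [t2]⟩
  have hinj1 : Set.InjOn t1 A := by
    intro c hc c' hc' hcc
    have h1 := kap_of_tys (hAcell c hc) (ht1 c hc).1 (hAi c hc) (ht1 c hc).2
    have h2 := kap_of_tys (hAcell c' hc') (ht1 c' hc').1 (hAi c' hc') (ht1 c' hc').2
    rw [← h1, ← h2, hcc]
  have hinj2 : Set.InjOn t2 A := by
    intro c hc c' hc' hcc
    have h1 := kap_of_tys (hAcell c hc) (ht2 c hc).1 (hAi c hc) (ht2 c hc).2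
    have h2 := kap_of_tys (hAcell c' hc') (ht2 c' hc').1 (hAi c' hc') (ht2 c' hc').2
    rw [← h1, ← h2, hcc]
  have hT0 : 1 + 2 * #A ≤ #T0 := by
    have hsub : insert (inl i0) (A.image t1 ∪ A.image t2) ⊆ T0 := by
      intro t ht
      simp only [T0, Finset.mem_filter, Finset.mem_univ, true_and]
      rcases Finset.mem_insert.mp ht with rfl | ht
      · exact ⟨c0, hc0, hAi c0 hc0⟩
      · rcases Finset.mem_union.mp ht with ht | ht
        · obtain ⟨c, hc, rfl⟩ := Finset.mem_image.mp ht
          exact ⟨c, hc, (ht1 c hc).1⟩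
        · obtain ⟨c, hc, rfl⟩ := Finset.mem_image.mp ht
          exact ⟨c, hc, (ht2 c hc).1⟩
    have hnot : (inl i0 : Ty Y) ∉ A.image t1 ∪ A.image t2 := by
      intro ht
      rcases Finset.mem_union.mp ht with ht | ht
      · obtain ⟨c, hc, h1⟩ := Finset.mem_image.mp ht
        exact (ht1 c hc).2 h1
      · obtain ⟨c, hc, h1⟩ := Finset.mem_image.mp ht
        exact (ht2 c hc).2 h1
    have hdisj : Disjoint (A.image t1) (A.image t2) := by
      rw [Finset.disjoint_left]
      intro t h1 h2
      obtain ⟨c, hc, rfl⟩ := Finset.mem_image.mp h1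
      obtain ⟨c', hc', h3⟩ := Finset.mem_image.mp h2
      simp [t1, t2] at h3
    have hle := Finset.card_le_card hsub
    rw [Finset.card_insert_of_notMem hnot, Finset.card_union_of_disjoint hdisj,
      Finset.card_image_of_injOn hinj1, Finset.card_image_of_injOn hinj2] at hle
    omega
  -- fixed points
  have hfix : (1 + 2 * #A) * Fintype.card G ≤ #{p : F.V | ((F.act h)⁻¹ * σ) p = p} := by
    have h1 : #(univ.filter fun p : F.V => F.ty p ∈ T0) =
        ∑ t ∈ T0, #((univ.filter fun p : F.V => F.ty p ∈ T0).filter fun p => F.ty p = t) := by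
      apply Finset.card_eq_sum_card_fiberwise
      intro p hp
      exact (Finset.mem_filter.mp (Finset.mem_coe.mp hp)).2
    have h2 : #T0 * Fintype.card G ≤
        ∑ t ∈ T0, #((univ.filter fun p : F.V => F.ty p ∈ T0).filter fun p => F.ty p = t) := by
      rw [← smul_eq_mul, ← Finset.sum_const]
      apply Finset.sum_le_sum
      intro t ht
      obtain ⟨c, hc, hct⟩ := (Finset.mem_filter.mp ht).2
      refine le_trans (card_type (hAcell c hc) hct) (Finset.card_le_card ?_)
      intro p hp
      simp only [Finset.mem_filter, Finset.mem_univ, true_and] at hp ⊢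
      exact ⟨by rw [hp]; exact ht, hp⟩
    calc (1 + 2 * #A) * Fintype.card G ≤ #T0 * Fintype.card G := Nat.mul_le_mul_right _ hT0
      _ ≤ _ := h2
      _ = _ := h1.symm
      _ ≤ _ := by
        apply Finset.card_le_card
        intro p hp
        simp only [Finset.mem_filter, Finset.mem_univ, true_and] at hp ⊢
        obtain ⟨c, hc, hct⟩ := (Finset.mem_filter.mp hp).2
        rw [Equiv.Perm.mul_apply, hall c hc p hct]
        exact (F.act h).symm_apply_apply p
  have hnpos : 0 < Fintype.card G := Fintype.card_pos_iff.mpr ⟨1⟩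
  have h1 : (F.act h)⁻¹ * σ = 1 := by
    apply (F.op_isSquag lm mW hmW).eq_one_of_fix
    · intro p q
      have h2 : ∀ p q, (F.act h)⁻¹ (F.op mW lm p q) =
          F.op mW lm ((F.act h)⁻¹ p) ((F.act h)⁻¹ q) := by
        intro p q
        rw [← map_inv]
        exact F.op_act lm mW h⁻¹ p q
      rw [Equiv.Perm.mul_apply, hσ, h2]
      rfl
    · have h2 : Fintype.card Y * Fintype.card G ≤ (2 * #A) * Fintype.card G :=
        Nat.mul_le_mul_right _ hkA
      calc Fintype.card F.V ≤ 2 * Fintype.card G * Fintype.card Y := hV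
        _ = 2 * (Fintype.card Y * Fintype.card G) := by ring
        _ ≤ 2 * ((2 * #A) * Fintype.card G) := Nat.mul_le_mul_left 2 h2
        _ < 2 * ((1 + 2 * #A) * Fintype.card G) := by nlinarith
        _ ≤ _ := Nat.mul_le_mul_left 2 hfix
  refine ⟨h, ?_⟩
  rw [inv_mul_eq_one] at h1
  exact h1

end Frame

end Pool.Agent.Lib_helper23.STS
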