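import Pool.Agent.Lib_helper23.STSBasic

open Finset Sum

namespace Pool.Agent.Lib_helper23.STS

/-- Combinatorial data for the construction. -/
structure Frame (G Y : Type) [Group G] [AddCommGroup Y] where
  R : G → Prop
  T : G → Prop
  D : G → ZMod 2 → Y
  par : Y → ZMod 2
  o : Y → ℕ
  T_inv : ∀ g, T g → T g⁻¹
  T_cube : ∀ g, T g → g * g = g⁻¹
  T_sq : ∀ g, T g → g * g ≠ 1
  R_T : ∀ g, R g → ¬ T g
  R_sq : ∀ g, R g → g * g ≠ 1
  R_inv : ∀ g, R g → ¬ R g⁻¹
  cover : ∀ g, g * g = 1 ∨ T g ∨ R g ∨ R g⁻¹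
  D_inj : ∀ g g' τ τ', D g τ = D g' τ' → g = g' ∧ τ = τ'
  par_D : ∀ i g τ, par (i + D g τ) = par i + 1
  exp2 : ∀ y : Y, y + y = 0
  o_inj : ∀ i j, o i = o j → i = j

namespace Frame

variable {G Y : Type} [Group G] [AddCommGroup Y] (F : Frame G Y)

/-- The partner relation between levels. -/
def E (i j : Y) (g : G) : Prop := F.R g ∧ j = i + F.D g (F.par i)

variable {F}

lemma R_ne_one {g : G} (h : F.R g) : g ≠ 1 := by
  rintro rfl; exact F.R_sq _ h (by simp)

lemma T_ne_one {g : G} (h : F.T g) : g ≠ 1 := by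
  rintro rfl; exact F.T_sq _ h (by simp)

lemma R_inv_T {g : G} (h : F.R g) : ¬ F.T g⁻¹ := by
  intro h'
  have := F.T_inv _ h'
  rw [inv_inv] at this
  exact F.R_T _ h this

lemma R_inv_sq {g : G} (h : F.R g) : g⁻¹ * g⁻¹ ≠ 1 := by
  intro h'
  apply F.R_sq _ h
  have := congrArg (fun x => x⁻¹) h'
  simpa using this

variable (F)

include F in
lemma add_self_cancel (i d : Y) : i + (i + d) = d := by
  rw [← add_assoc, F.exp2, zero_add]

include F in
lemma add_cancel' (i d : Y) : i + d + d = i := by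
  rw [add_assoc, F.exp2, add_zero]

include F in
lemma add_cancel'' (i d : Y) : i + d + i = d := by
  rw [add_comm i d, add_assoc, F.exp2, add_zero]

variable {F}

lemma par_ne (i : Y) (g : G) (τ : ZMod 2) : F.par (i + F.D g τ) ≠ F.par i := by
  rw [F.par_D]
  generalize F.par i = a
  revert a; decide

lemma D_ne (i : Y) (g : G) (τ : ZMod 2) : i + F.D g τ ≠ i := by
  intro h
  apply F.par_ne i g τ
  rw [h]

lemma D_ne_zero (g : G) (τ : ZMod 2) : F.D g τ ≠ 0 := by
  intro h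
  apply F.D_ne 0 g τ
  rw [h, add_zero]

lemma E_unique {i j : Y} {g g' : G} (h : F.E i j g) (h' : F.E i j g') : g = g' := by
  have h1 : i + F.D g (F.par i) = i + F.D g' (F.par i) := h.2.symm.trans h'.2
  exact (F.D_inj _ _ _ _ (add_left_cancel h1)).1

lemma E_asymm {i j : Y} {g g' : G} (h : F.E i j g) (h' : F.E j i g') : False := by
  have h1 : i + j = F.D g (F.par i) := by
    rw [h.2, F.add_self_cancel]
  have h2 : i + j = F.D g' (F.par j) := by
    conv_lhs => rw [h'.2]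
    rw [F.add_cancel'']
  have h3 := (F.D_inj _ _ _ _ (h1.symm.trans h2)).2
  have h4 := F.par_ne i g (F.par i)
  rw [← h.2] at h4
  exact h4 h3.symm

lemma E_ne {i j : Y} {g : G} (h : F.E i j g) : i ≠ j := by
  intro hij
  apply F.D_ne i g (F.par i)
  rw [← h.2, hij]

variable (F)

open scoped Classical in
/-- partner element, if any -/
noncomputable def Eo (i j : Y) : Option G :=
  if h : ∃ g, F.E i j g then some h.choose else none

variable {F}

lemma Eo_eq_some {i j : Y} {g : G} : F.Eo i j = some g ↔ F.E i j g := by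
  unfold Eo
  split_ifs with h
  · rw [Option.some_inj]
    constructor
    · intro h'; rw [← h']; exact h.choose_spec
    · intro h'; exact F.E_unique h.choose_spec h'
  · constructor
    · intro h'; cases h'
    · intro h'; exact absurd ⟨g, h'⟩ h

lemma Eo_eq_none {i j : Y} : F.Eo i j = none ↔ ∀ g, ¬ F.E i j g := by
  unfold Eo
  split_ifs with h
  · constructor
    · intro h'; cases h'
    · intro h'; exact absurd h.choose_spec (h' _)
  · simp only [true_iff]
    intro g hg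
    exact h ⟨g, hg⟩

lemma Eo_D {i : Y} {g : G} (h : F.R g) : F.Eo i (i + F.D g (F.par i)) = some g :=
  Eo_eq_some.mpr ⟨h, rfl⟩

lemma Eo_D' {i : Y} {g : G} (h : F.R g) : F.Eo (i + F.D g (F.par i)) i = none := by
  rw [Eo_eq_none]
  intro g' h'
  exact F.E_asymm ⟨h, rfl⟩ h'

lemma Eo_asymm {i j : Y} {g : G} (h : F.Eo i j = some g) : F.Eo j i = none := by
  rw [Eo_eq_none]
  intro g' h'
  exact F.E_asymm (Eo_eq_some.mp h) h'

variable (F)

/-- The level-changing permutations. -/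
noncomputable def lam (lm : Y × Y → Equiv.Perm G) (i j : Y) : Equiv.Perm G :=
  if F.Eo i j ≠ none then Equiv.refl G
  else if F.Eo j i ≠ none then Equiv.inv G
  else if F.o i < F.o j then lm (i, j)
  else (lm (j, i)).trans (Equiv.inv G)

variable {F}

lemma lam_symm (lm : Y × Y → Equiv.Perm G) {i j : Y} (hij : i ≠ j) (b : G) :
    F.lam lm j i b = (F.lam lm i j b)⁻¹ := by
  unfold lam
  rcases h1 : F.Eo i j with _ | g
  · rcases h2 : F.Eo j i with _ | g'
    · rcases lt_trichotomy (F.o i) (F.o j) with h | h | h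
      · simp [h, not_lt.mpr h.le]
      · exact absurd (F.o_inj _ _ h) hij
      · simp [h, not_lt.mpr h.le]
    · simp
  · have h2 := Eo_asymm h1
    simp [h2]

variable (F)

/-- raw W-points -/
def validW (w : G ⊕ (Y × G)) : Prop :=
  match w with
  | inl t => t ≠ 1 ∧ t * t = 1
  | inr (d, b) => d ≠ 0 ∧ ∀ g τ, F.R g → d = F.D g τ → b ≠ 1 ∧ b ≠ g⁻¹

/-- raw product on the main part -/
noncomputable def f0 (lm : Y × Y → Equiv.Perm G) (p q : G × Y) : (G × Y) ⊕ (G ⊕ (Y × G)) :=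
  open scoped Classical in
  if p.2 = q.2 then
    if p.1⁻¹ * q.1 = 1 then inl p
    else if (p.1⁻¹ * q.1) * (p.1⁻¹ * q.1) = 1 then inr (inl (p.1⁻¹ * q.1))
    else if F.T (p.1⁻¹ * q.1) then inl (p.1 * (p.1⁻¹ * q.1)⁻¹, p.2)
    else if F.R (p.1⁻¹ * q.1) then inl (p.1, p.2 + F.D (p.1⁻¹ * q.1) (F.par p.2))
    else inl (q.1, p.2 + F.D (p.1⁻¹ * q.1)⁻¹ (F.par p.2))
  else
    match F.Eo p.2 q.2 with
    | some g =>
        if p.1⁻¹ * q.1 = 1 then inl (p.1 * g, p.2)
        else if p.1⁻¹ * q.1 = g⁻¹ then inl (q.1, p.2)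
        else inr (inr (p.2 + q.2, (F.lam lm p.2 q.2).symm (p.1⁻¹ * q.1)))
    | none =>
      match F.Eo q.2 p.2 with
      | some g =>
          if p.1⁻¹ * q.1 = 1 then inl (q.1 * g, q.2)
          else if p.1⁻¹ * q.1 = g then inl (p.1, q.2)
          else inr (inr (p.2 + q.2, (F.lam lm p.2 q.2).symm (p.1⁻¹ * q.1)))
      | none => inr (inr (p.2 + q.2, (F.lam lm p.2 q.2).symm (p.1⁻¹ * q.1)))

/-- action of W-points -/
noncomputable def a0 (lm : Y × Y → Equiv.Perm G) (w : G ⊕ (Y × G)) (p : G × Y) : G × Y :=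
  match w with
  | inl t => (p.1 * t, p.2)
  | inr (d, b) => (p.1 * F.lam lm p.2 (p.2 + d) b, p.2 + d)

variable {F}
variable (lm : Y × Y → Equiv.Perm G)

lemma f0_self (p : G × Y) : F.f0 lm p p = inl p := by
  simp [f0]

lemma f0_inv (x : G) (i : Y) {t : G} (h1 : t ≠ 1) (h2 : t * t = 1) :
    F.f0 lm (x, i) (x * t, i) = inr (inl t) := by
  simp [f0, h1, h2]

lemma f0_T (x : G) (i : Y) {t : G} (h : F.T t) :
    F.f0 lm (x, i) (x * t, i) = inl (x * t⁻¹, i) := by
  simp [f0, F.T_ne_one h, F.T_sq _ h, h]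

lemma f0_R (x : G) (i : Y) {g : G} (h : F.R g) :
    F.f0 lm (x, i) (x * g, i) = inl (x, i + F.D g (F.par i)) := by
  simp [f0, F.R_ne_one h, F.R_sq _ h, h, F.R_T _ h]

lemma f0_R' (x : G) (i : Y) {g : G} (h : F.R g) :
    F.f0 lm (x, i) (x * g⁻¹, i) = inl (x * g⁻¹, i + F.D g (F.par i)) := by
  have h1 := F.R_inv_sq h
  have h2 := F.R_inv_T h
  have h3 := F.R_inv _ h
  simp [f0, F.R_ne_one h, h1, h2, h3]

lemma f0_E1 (x : G) (i : Y) {g : G} (h : F.R g) :
    F.f0 lm (x, i) (x, i + F.D g (F.par i)) = inl (x * g, i) := by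
  have h1 : i ≠ i + F.D g (F.par i) := (F.D_ne i g _).symm
  have h2 := F.D_ne_zero g (F.par i)
  simp [f0, h2, Eo_D h]

lemma f0_E2 (x : G) (i : Y) {g : G} (h : F.R g) :
    F.f0 lm (x, i) (x * g⁻¹, i + F.D g (F.par i)) = inl (x * g⁻¹, i) := by
  have h2 := F.D_ne_zero g (F.par i)
  simp [f0, h2, Eo_D h, F.R_ne_one h]

lemma f0_E3 (x : G) (i : Y) {g : G} (h : F.R g) :
    F.f0 lm (x, i + F.D g (F.par i)) (x, i) = inl (x * g, i) := by
  have h2 := F.D_ne_zero g (F.par i)
  simp [f0, h2, Eo_D h, Eo_D' h]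

lemma f0_E4 (x : G) (i : Y) {g : G} (h : F.R g) :
    F.f0 lm (x, i + F.D g (F.par i)) (x * g, i) = inl (x, i) := by
  have h2 := F.D_ne_zero g (F.par i)
  simp [f0, h2, Eo_D h, Eo_D' h, F.R_ne_one h]

lemma f0_W (p : G × Y) (w : G ⊕ (Y × G)) (hw : F.validW w) :
    F.f0 lm p (F.a0 lm w p) = inr w := by
  obtain ⟨x, i⟩ := p
  rcases w with t | ⟨d, b⟩
  · exact f0_inv lm x i hw.1 hw.2
  · obtain ⟨hd, hb⟩ := hw
    have h0 : i + (i + d) = d := F.add_self_cancel i d
    rcases h1 : F.Eo i (i + d) with _ | g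
    · rcases h2 : F.Eo (i + d) i with _ | g
      · simp [f0, a0, hd, h1, h2, h0]
      · have h3 := Eo_eq_some.mp h2
        have h4 : d = F.D g (F.par (i + d)) := by
          have h5 : i + (i + d) = F.D g (F.par (i + d)) := by
            calc i + (i + d) = ((i + d) + F.D g (F.par (i + d))) + (i + d) := by rw [← h3.2]
              _ = F.D g (F.par (i + d)) := F.add_cancel'' _ _
          rw [h0] at h5
          exact h5
        obtain ⟨h5, h6⟩ := hb g _ h3.1 h4
        have h7 : F.lam lm i (i + d) = Equiv.inv G := by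
          simp [lam, h1, h2]
        have h8 : b⁻¹ ≠ g := by
          intro h; apply h6; rw [← h, inv_inv]
        simp [f0, a0, hd, h1, h2, h0, h7, h5, h8]
    · have h3 := Eo_eq_some.mp h1
      have h4 : d = F.D g (F.par i) := add_left_cancel h3.2
      obtain ⟨h5, h6⟩ := hb g _ h3.1 h4
      have h7 : F.lam lm i (i + d) = Equiv.refl G := by
        simp [lam, h1]
      simp [f0, a0, hd, h1, h0, h7, h5, h6]

/-- exhaustive list of position pairs -/
lemma f0_cases (p q : G × Y) :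
    q = p ∨ (∃ w, F.validW w ∧ q = F.a0 lm w p) ∨ (∃ t, F.T t ∧ q = (p.1 * t, p.2)) ∨
    (∃ g, F.R g ∧ q = (p.1 * g, p.2)) ∨ (∃ g, F.R g ∧ q = (p.1 * g⁻¹, p.2)) ∨
    (∃ g, F.R g ∧ q = (p.1, p.2 + F.D g (F.par p.2))) ∨
    (∃ g, F.R g ∧ q = (p.1 * g⁻¹, p.2 + F.D g (F.par p.2))) ∨
    (∃ g i, F.R g ∧ p.2 = i + F.D g (F.par i) ∧ q = (p.1, i)) ∨
    (∃ g i, F.R g ∧ p.2 = i + F.D g (F.par i) ∧ q = (p.1 * g, i)) := by
  obtain ⟨x, i⟩ := p
  obtain ⟨y, j⟩ := q
  obtain ⟨a, rfl⟩ : ∃ a, y = x * a := ⟨x⁻¹ * y, by group⟩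
  by_cases hij : i = j
  · subst hij
    by_cases ha : a = 1
    · left; simp [ha]
    right
    rcases F.cover a with h | h | h | h
    · left
      exact ⟨inl a, ⟨ha, h⟩, rfl⟩
    · right; left; exact ⟨a, h, rfl⟩
    · right; right; left; exact ⟨a, h, rfl⟩
    · right; right; right; left; exact ⟨a⁻¹, h, by simp⟩
  · obtain ⟨d, rfl⟩ : ∃ d, j = i + d := ⟨i + j, by rw [F.add_self_cancel]⟩
    have hd : d ≠ 0 := by rintro rfl; simp at hij
    have h0 : i + (i + d) = d := F.add_self_cancel i d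
    rcases h1 : F.Eo i (i + d) with _ | g
    · rcases h2 : F.Eo (i + d) i with _ | g
      · right; left
        refine ⟨inr (d, (F.lam lm i (i + d)).symm a), ⟨hd, ?_⟩, ?_⟩
        · intro g τ hg hdg
          exfalso
          have h3 : τ = F.par i ∨ τ = F.par (i + d) := by
            rw [hdg, F.par_D]
            generalize F.par i = u
            clear hdg
            revert u τ
            decide
          rcases h3 with rfl | h3
          · exact (Eo_eq_none.mp h1) g ⟨hg, by rw [← hdg]⟩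
          · refine (Eo_eq_none.mp h2) g ⟨hg, ?_⟩
            rw [← h3, ← hdg, F.add_cancel']
        · simp [a0]
      · have h3 := Eo_eq_some.mp h2
        have h4 : d = F.D g (F.par (i + d)) := by
          have h5 : i + (i + d) = F.D g (F.par (i + d)) := by
            calc i + (i + d) = ((i + d) + F.D g (F.par (i + d))) + (i + d) := by rw [← h3.2]
              _ = F.D g (F.par (i + d)) := F.add_cancel'' _ _
          rw [h0] at h5
          exact h5
        have h7 : F.lam lm i (i + d) = Equiv.inv G := by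
          simp [lam, h1, h2]
        by_cases ha : a = 1
        · right; right; right; right; right; right; right; left
          refine ⟨g, i + d, h3.1, h3.2, by simp [ha]⟩
        by_cases ha' : a = g
        · right; right; right; right; right; right; right; right
          refine ⟨g, i + d, h3.1, h3.2, by simp [ha']⟩
        right; left
        refine ⟨inr (d, (F.lam lm i (i + d)).symm a), ⟨hd, ?_⟩, ?_⟩
        · intro g' τ hg hdg
          obtain ⟨rfl, _⟩ := F.D_inj _ _ _ _ (h4.symm.trans hdg)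
          rw [h7]
          refine ⟨?_, ?_⟩
          · simpa using ha
          · simpa using ha'
        · simp [a0]
    · have h3 := Eo_eq_some.mp h1
      have h4 : d = F.D g (F.par i) := add_left_cancel h3.2
      have h7 : F.lam lm i (i + d) = Equiv.refl G := by
        simp [lam, h1]
      by_cases ha : a = 1
      · right; right; right; right; right; left
        exact ⟨g, h3.1, by simp [ha, ← h4]⟩
      by_cases ha' : a = g⁻¹
      · right; right; right; right; right; right; left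
        exact ⟨g, h3.1, by simp [ha', ← h4]⟩
      right; left
      refine ⟨inr (d, (F.lam lm i (i + d)).symm a), ⟨hd, ?_⟩, ?_⟩
      · intro g' τ hg hdg
        obtain ⟨rfl, _⟩ := F.D_inj _ _ _ _ (h4.symm.trans hdg)
        rw [h7]
        refine ⟨?_, ?_⟩
        · simpa using ha
        · simpa using ha'
      · simp [a0]

lemma a0_invol (p : G × Y) (w : G ⊕ (Y × G)) (hw : F.validW w) :
    F.a0 lm w (F.a0 lm w p) = p := by
  obtain ⟨x, i⟩ := p
  rcases w with t | ⟨d, b⟩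
  · simp [a0, mul_assoc, hw.2]
  · have h1 : i + d + d = i := F.add_cancel' i d
    have h2 : i ≠ i + d := by
      intro h; apply hw.1; simpa using h
    simp [a0, h1, F.lam_symm lm h2, mul_assoc]

lemma f0_comm (p q : G × Y) : F.f0 lm p q = F.f0 lm q p := by
  rcases F.f0_cases lm p q with rfl | ⟨w, hw, rfl⟩ | ⟨t, ht, rfl⟩ | ⟨g, hg, rfl⟩ | ⟨g, hg, rfl⟩ |
    ⟨g, hg, rfl⟩ | ⟨g, hg, rfl⟩ | ⟨g, i, hg, hp, rfl⟩ | ⟨g, i, hg, hp, rfl⟩
  · rfl
  · rw [F.f0_W lm p w hw]
    have h1 := F.f0_W lm (F.a0 lm w p) w hw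
    rw [F.a0_invol lm p w hw] at h1
    exact h1.symm
  · obtain ⟨x, i⟩ := p
    have h1 := F.f0_T lm (x * t) i (F.T_inv _ ht)
    rw [mul_inv_cancel_right] at h1
    rw [h1, F.f0_T lm x i ht, inv_inv, mul_assoc, F.T_cube _ ht]
  · obtain ⟨x, i⟩ := p
    have h1 := F.f0_R' lm (x * g) i hg
    rw [mul_inv_cancel_right] at h1
    rw [h1, F.f0_R lm x i hg]
  · obtain ⟨x, i⟩ := p
    have h1 := F.f0_R lm (x * g⁻¹) i hg
    rw [inv_mul_cancel_right] at h1
    rw [h1, F.f0_R' lm x i hg]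
  · obtain ⟨x, i⟩ := p
    rw [F.f0_E1 lm x i hg, F.f0_E3 lm x i hg]
  · obtain ⟨x, i⟩ := p
    have h1 := F.f0_E4 lm (x * g⁻¹) i hg
    rw [inv_mul_cancel_right] at h1
    rw [F.f0_E2 lm x i hg, h1]
  · obtain ⟨x, j⟩ := p
    simp only at hp
    subst hp
    rw [F.f0_E1 lm x i hg, F.f0_E3 lm x i hg]
  · obtain ⟨x, j⟩ := p
    simp only at hp
    subst hp
    have h1 := F.f0_E2 lm (x * g) i hg
    rw [mul_inv_cancel_right] at h1
    rw [F.f0_E4 lm x i hg, h1]

lemma f0_inl (p q r : G × Y) (h : F.f0 lm p q = inl r) : F.f0 lm p r = inl q := by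
  rcases F.f0_cases lm p q with rfl | ⟨w, hw, rfl⟩ | ⟨t, ht, rfl⟩ | ⟨g, hg, rfl⟩ | ⟨g, hg, rfl⟩ |
    ⟨g, hg, rfl⟩ | ⟨g, hg, rfl⟩ | ⟨g, i, hg, hp, rfl⟩ | ⟨g, i, hg, hp, rfl⟩
  · rw [F.f0_self] at h
    obtain rfl := Sum.inl_injective h
    exact F.f0_self _ _
  · rw [F.f0_W lm p w hw] at h
    cases h
  · obtain ⟨x, i⟩ := p
    rw [F.f0_T lm x i ht] at h
    obtain rfl := Sum.inl_injective h
    rw [F.f0_T lm x i (F.T_inv _ ht), inv_inv]
  · obtain ⟨x, i⟩ := p
    rw [F.f0_R lm x i hg] at h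
    obtain rfl := Sum.inl_injective h
    rw [F.f0_E1 lm x i hg]
  · obtain ⟨x, i⟩ := p
    rw [F.f0_R' lm x i hg] at h
    obtain rfl := Sum.inl_injective h
    rw [F.f0_E2 lm x i hg]
  · obtain ⟨x, i⟩ := p
    rw [F.f0_E1 lm x i hg] at h
    obtain rfl := Sum.inl_injective h
    rw [F.f0_R lm x i hg]
  · obtain ⟨x, i⟩ := p
    rw [F.f0_E2 lm x i hg] at h
    obtain rfl := Sum.inl_injective h
    rw [F.f0_R' lm x i hg]
  · obtain ⟨x, j⟩ := p
    simp only at hp
    subst hp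
    rw [F.f0_E3 lm x i hg] at h
    obtain rfl := Sum.inl_injective h
    rw [F.f0_E4 lm x i hg]
  · obtain ⟨x, j⟩ := p
    simp only at hp
    subst hp
    rw [F.f0_E4 lm x i hg] at h
    obtain rfl := Sum.inl_injective h
    rw [F.f0_E3 lm x i hg]

lemma f0_inr (p q : G × Y) (w : G ⊕ (Y × G)) (h : F.f0 lm p q = inr w) :
    F.validW w ∧ F.a0 lm w p = q := by
  rcases F.f0_cases lm p q with rfl | ⟨w', hw, rfl⟩ | ⟨t, ht, rfl⟩ | ⟨g, hg, rfl⟩ | ⟨g, hg, rfl⟩ |
    ⟨g, hg, rfl⟩ | ⟨g, hg, rfl⟩ | ⟨g, i, hg, hp, rfl⟩ | ⟨g, i, hg, hp, rfl⟩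
  · rw [F.f0_self] at h; cases h
  · rw [F.f0_W lm p w' hw] at h
    obtain rfl := Sum.inr_injective h
    exact ⟨hw, rfl⟩
  · obtain ⟨x, i⟩ := p
    rw [F.f0_T lm x i ht] at h; cases h
  · obtain ⟨x, i⟩ := p
    rw [F.f0_R lm x i hg] at h; cases h
  · obtain ⟨x, i⟩ := p
    rw [F.f0_R' lm x i hg] at h; cases h
  · obtain ⟨x, i⟩ := p
    rw [F.f0_E1 lm x i hg] at h; cases h
  · obtain ⟨x, i⟩ := p
    rw [F.f0_E2 lm x i hg] at h; cases h
  · obtain ⟨x, j⟩ := p
    simp only at hp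
    subst hp
    rw [F.f0_E3 lm x i hg] at h; cases h
  · obtain ⟨x, j⟩ := p
    simp only at hp
    subst hp
    rw [F.f0_E4 lm x i hg] at h; cases h

variable (F)

/-- The additional points. -/
abbrev W : Type := {w : G ⊕ (Y × G) // F.validW w}

/-- The point set. -/
abbrev V : Type := (G × Y) ⊕ F.W

open scoped Classical in
/-- The product. -/
noncomputable def op (mW : F.W → F.W → F.W) (lm : Y × Y → Equiv.Perm G) : F.V → F.V → F.V
  | inl p, inl q => Sum.elim inl (fun w => if h : F.validW w then inr ⟨w, h⟩ else inl p)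
      (F.f0 lm p q)
  | inl p, inr w => inl (F.a0 lm w.1 p)
  | inr w, inl p => inl (F.a0 lm w.1 p)
  | inr w, inr w' => inr (mW w w')

variable {F}
variable (mW : F.W → F.W → F.W)

lemma op_inl_inl_inl {p q r : G × Y} (h : F.f0 lm p q = inl r) :
    F.op mW lm (inl p) (inl q) = inl r := by
  simp [op, h]

lemma op_inl_inl_inr {p q : G × Y} {w : G ⊕ (Y × G)} (h : F.f0 lm p q = inr w)
    (hw : F.validW w) : F.op mW lm (inl p) (inl q) = inr ⟨w, hw⟩ := by
  simp [op, h, hw]

theorem op_isSquag (hmW : IsSquag mW) : IsSquag (F.op mW lm) where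
  idem := by
    rintro (p | w)
    · exact op_inl_inl_inl lm mW (f0_self lm p)
    · simp [op, hmW.idem]
  comm := by
    rintro (p | w) (q | w')
    · rcases h : F.f0 lm p q with r | w
      · rw [op_inl_inl_inl lm mW h]
        rw [f0_comm] at h
        rw [op_inl_inl_inl lm mW h]
      · have hw := (F.f0_inr lm p q w h).1
        rw [op_inl_inl_inr lm mW h hw]
        rw [f0_comm] at h
        rw [op_inl_inl_inr lm mW h hw]
    · rfl
    · rfl
    · simp [op, hmW.comm w w']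
  inv := by
    rintro (p | w) (q | w')
    · rcases h : F.f0 lm p q with r | w
      · rw [op_inl_inl_inl lm mW h, op_inl_inl_inl lm mW (F.f0_inl lm _ _ _ h)]
      · obtain ⟨hw, h2⟩ := F.f0_inr lm p q w h
        rw [op_inl_inl_inr lm mW h hw]
        simp [op, h2]
    · have h := F.f0_W lm p w'.1 w'.2
      have h2 := op_inl_inl_inr lm mW h w'.2
      exact h2
    · simp [op, F.a0_invol lm q w.1 w.2]
    · simp [op, hmW.inv]

end Frame

end Pool.Agent.Lib_helper23.STS
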