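import Pool.Agent.Lib_helper23.STSSize

open Finset Sum

namespace Pool.Agent.Lib_helper23.STS

lemma four_pow_mod (m : ℕ) : 4 ^ m % 3 = 1 := by
  rw [Nat.pow_mod]; simp

lemma exists_s (n : ℕ) (hn : 1 ≤ n) : ∃ s : ℕ, 1 ≤ s ∧ 128 * s * n < 2 ^ s ∧
    2 ^ s ≤ 2 ^ 21 * n ^ 2 ∧ (n % 3 ≠ 0 → (2 ^ s * n) % 3 = 1) := by
  set L := Nat.clog 2 n with hL
  have h1 : n ≤ 2 ^ L := Nat.le_pow_clog (by norm_num) n
  have h2 : 2 ^ L ≤ 2 * n := by
    rcases Nat.lt_or_ge 1 n with h | h
    · have h3 := Nat.pow_pred_clog_lt_self (b := 2) (by norm_num) h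
      rw [← hL] at h3
      have h4 : 1 ≤ L := by
        by_contra hcon
        have : L = 0 := by omega
        rw [this] at h1
        simp at h1
        omega
      obtain ⟨L', hL'⟩ : ∃ L', L = L' + 1 := ⟨L - 1, by omega⟩
      rw [hL'] at h3 ⊢
      simp only [Nat.pred_eq_sub_one, Nat.add_sub_cancel] at h3
      rw [pow_succ]
      omega
    · have : n = 1 := by omega
      subst this
      have : L = 0 := by simp [hL]
      rw [this]; norm_num
  have h3 : L < 2 ^ L := Nat.lt_two_pow_self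
  obtain ⟨δ, hδ, hδ3⟩ : ∃ δ : ℕ, δ ≤ 1 ∧ (n % 3 ≠ 0 → (2 ^ δ * n) % 3 = 1) := by
    rcases (by omega : n % 3 = 0 ∨ n % 3 = 1 ∨ n % 3 = 2) with h | h | h
    · exact ⟨0, by norm_num, fun h' => absurd h h'⟩
    · exact ⟨0, by norm_num, fun _ => by omega⟩
    · exact ⟨1, le_refl _, fun _ => by omega⟩
  refine ⟨2 * (L + 9) + δ, by omega, ?_, ?_, ?_⟩
  · have h4 : 2 ^ (2 * (L + 9)) = 2 ^ 18 * (2 ^ L * 2 ^ L) := by
      rw [← pow_add, ← pow_add]
      congr 1
      ring
    have h5 : 128 * (2 * (L + 9) + δ) * n ≤ 128 * (2 * L + 19) * 2 ^ L := by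
      apply Nat.mul_le_mul _ h1
      omega
    have h6 : 128 * (2 * L + 19) < 2 ^ 18 * 2 ^ L := by
      have : 1 ≤ 2 ^ L := Nat.one_le_two_pow
      omega
    have h7 : 0 < 2 ^ L := by positivity
    calc 128 * (2 * (L + 9) + δ) * n ≤ 128 * (2 * L + 19) * 2 ^ L := h5
      _ < 2 ^ 18 * 2 ^ L * 2 ^ L := Nat.mul_lt_mul_of_pos_right h6 h7
      _ = 2 ^ (2 * (L + 9)) := by rw [h4]; ring
      _ ≤ 2 ^ (2 * (L + 9) + δ) := Nat.pow_le_pow_right (by norm_num) (by omega)
  · calc 2 ^ (2 * (L + 9) + δ) ≤ 2 ^ (2 * (L + 9) + 1) :=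
          Nat.pow_le_pow_right (by norm_num) (by omega)
      _ = 2 ^ 19 * (2 ^ L * 2 ^ L) := by
          rw [← pow_add, ← pow_add]
          congr 1
          ring
      _ ≤ 2 ^ 19 * ((2 * n) * (2 * n)) := by gcongr
      _ = 2 ^ 21 * n ^ 2 := by ring
  · intro hn3
    have h4 : 2 ^ (2 * (L + 9) + δ) * n = 4 ^ (L + 9) * (2 ^ δ * n) := by
      rw [pow_add, pow_mul]
      norm_num
      ring
    rw [h4, Nat.mul_mod, four_pow_mod, hδ3 hn3]

lemma final_bound {n : ℕ} (hn : 3 ≤ n) : 2 ^ 22 * n ^ 3 ≤ n ^ 17 := by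
  have h1 : 2 ^ 22 ≤ n ^ 14 := by
    calc 2 ^ 22 ≤ 3 ^ 14 := by norm_num
      _ ≤ n ^ 14 := Nat.pow_le_pow_left hn 14
  calc 2 ^ 22 * n ^ 3 ≤ n ^ 14 * n ^ 3 := Nat.mul_le_mul_right _ h1
    _ = n ^ 17 := by ring

/-- the general case with given order-three part -/
theorem gen_aux (G : Type) [Group G] [Fintype G] (hG : 3 ≤ Fintype.card G) (T : G → Prop)
    (T_inv : ∀ g, T g → T g⁻¹) (T_cube : ∀ g, T g → g * g = g⁻¹) (T_sq : ∀ g, T g → g * g ≠ 1)
    (t : ℕ) (hcardT : ∀ [DecidablePred T], #{g : G | T g} = t)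
    (ht : (Fintype.card G % 3 = 0 ∧ t = 2) ∨ (Fintype.card G % 3 ≠ 0 ∧ t = 0)) :
    ∃ (V : Type) (_ : Fintype V) (m : V → V → V) (φ : G →* Equiv.Perm V),
      IsSquag m ∧ Function.Injective φ ∧
      (∀ σ, σ ∈ φ.range ↔ ∀ x y, σ (m x y) = m (σ x) (σ y)) ∧
      Fintype.card V ≤ Fintype.card G ^ 17 := by
  classical
  set n := Fintype.card G with hn
  obtain ⟨s, hs1, hs2, hs3, hs4⟩ := exists_s n (by omega)
  obtain ⟨r, rfl⟩ : ∃ r, s = r + 1 := ⟨s - 1, by omega⟩
  have hr : 2 * n ≤ 2 ^ r := by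
    rw [pow_succ] at hs2
    have : 128 * (r + 1) * n = 128 * r * n + 128 * n := by ring
    omega
  obtain ⟨emb⟩ : Nonempty (G × ZMod 2 ↪ (Fin r → ZMod 2)) := by
    apply Function.Embedding.nonempty_of_card_le
    rw [Fintype.card_prod, Fintype.card_fun, ZMod.card, Fintype.card_fin]
    omega
  let F := Frame.mk' r emb T T_inv T_cube T_sq
  have hk : Fintype.card ((Fin r → ZMod 2) × ZMod 2) = 2 ^ (r + 1) := by
    rw [Fintype.card_prod, Fintype.card_fun, ZMod.card, Fintype.card_fin, pow_succ]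
  set k := 2 ^ (r + 1) with hkdef
  have hgrp := F.card_group
  have hW := F.card_W
  have hcells := F.card_cells
  rw [hk] at hW hcells
  have hT : #{g : G | F.T g} = t := hcardT
  rw [hT] at hgrp
  rw [← hn] at hgrp hW hcells
  -- parity
  have hkeven : k * n % 2 = 0 := by
    rw [hkdef, pow_succ, mul_assoc, mul_comm, mul_assoc]
    omega
  have hW6 : Fintype.card F.W % 6 = 3 := by
    rcases ht with ⟨h1, h2⟩ | ⟨h1, h2⟩
    · have h3 : k * n % 3 = 0 := by rw [Nat.mul_mod, h1]; simp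
      omega
    · have h3 := hs4 h1
      omega
  obtain ⟨mW, hmW⟩ := exists_squag hW6
  have hVcard : Fintype.card F.V = k * n + Fintype.card F.W := by
    rw [Fintype.card_sum, Fintype.card_prod, hk, ← hn, mul_comm]
  have hV : Fintype.card F.V ≤ 2 * n * k := by
    have : 2 * n * k = k * n + k * n := by ring
    omega
  -- union bound parameters
  have hkbig : 128 * (r + 1) * n < k := hs2
  have hfac : (Fintype.card F.V).factorial < 2 ^ (k * k / 32) := by
    have h1 : Fintype.card F.V ≤ 2 ^ (2 * (r + 1)) := by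
      calc Fintype.card F.V ≤ 2 * n * k := hV
        _ ≤ k * k := by
          apply Nat.mul_le_mul_right
          calc 2 * n ≤ 2 ^ r := hr
            _ ≤ k := Nat.pow_le_pow_right (by norm_num) (by omega)
        _ = 2 ^ (2 * (r + 1)) := by rw [hkdef, ← pow_add]; congr 1; ring
    calc (Fintype.card F.V).factorial ≤ (Fintype.card F.V) ^ (Fintype.card F.V) :=
          Nat.factorial_le_pow _
      _ ≤ (2 ^ (2 * (r + 1))) ^ (Fintype.card F.V) := Nat.pow_le_pow_left h1 _
      _ ≤ (2 ^ (2 * (r + 1))) ^ (2 * n * k) := Nat.pow_le_pow_right (by positivity) hV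
      _ = 2 ^ (2 * (r + 1) * (2 * n * k)) := by rw [← pow_mul]
      _ < 2 ^ (k * k / 32) := by
          apply Nat.pow_lt_pow_right (by norm_num)
          rw [Nat.lt_div_iff_mul_lt (by norm_num)]
          have h2 : 2 * (r + 1) * (2 * n * k) * 32 = (128 * (r + 1) * n) * k := by ring
          have h3 : (128 * (r + 1) * n) * k + k ≤ k * k := by
            calc (128 * (r + 1) * n) * k + k = (128 * (r + 1) * n + 1) * k := by ring
              _ ≤ k * k := Nat.mul_le_mul_right _ hkbig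
          have h4 : 128 * 1 * 3 ≤ 128 * (r + 1) * n := by
            apply Nat.mul_le_mul _ hG
            omega
          omega
  have hcells' : k * k + 4 * (2 * (k * k / 32) + 2 * k + 1) ≤ 4 * #F.cells := by
    have h1 : k * k / 32 ≤ k * k / 32 := le_refl _
    have h2 : 128 * (k * n) ≤ k * k := by
      calc 128 * (k * n) = (128 * n) * k := by ring
        _ ≤ k * k := by
          apply Nat.mul_le_mul_right
          have : 128 * n ≤ 128 * (r + 1) * n := by
            have : 128 * (r + 1) * n = 128 * n + 128 * r * n := by ring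
            omega
          omega
    have h3 : 128 * k ≤ k * k := by
      apply Nat.mul_le_mul_right
      have : 128 * (r + 1) * n = 128 * n + 128 * r * n := by ring
      omega
    have h4 : 128 ≤ k := by
      have : 128 * (r + 1) * n = 128 * n + 128 * r * n := by ring
      omega
    have h5 : 32 * (k * k / 32) ≤ k * k := Nat.mul_div_le _ _
    generalize k * k / 32 = e at *
    generalize k * k = kk at *
    generalize k * n = kn at *
    omega
  obtain ⟨lm, hlm⟩ := F.exists_rigid hG hmW (by rw [hk]; exact hV) (k * k / 32) hfac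
    (by rw [hk]; exact hcells')
  refine ⟨F.V, inferInstance, F.op mW lm, F.act, F.op_isSquag lm mW hmW, F.act_injective, hlm, ?_⟩
  calc Fintype.card F.V ≤ 2 * n * k := hV
    _ ≤ 2 * n * (2 ^ 21 * n ^ 2) := Nat.mul_le_mul_left _ hs3
    _ = 2 ^ 22 * n ^ 3 := by ring
    _ ≤ n ^ 17 := final_bound hG

theorem gen (G : Type) [Group G] [Fintype G] (hG : 3 ≤ Fintype.card G) :
    ∃ (V : Type) (_ : Fintype V) (m : V → V → V) (φ : G →* Equiv.Perm V),
      IsSquag m ∧ Function.Injective φ ∧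
      (∀ σ, σ ∈ φ.range ↔ ∀ x y, σ (m x y) = m (σ x) (σ y)) ∧
      Fintype.card V ≤ Fintype.card G ^ 17 := by
  classical
  by_cases h3 : 3 ∣ Fintype.card G
  · have : Fact (Nat.Prime 3) := ⟨Nat.prime_three⟩
    obtain ⟨g0, hg0⟩ := exists_prime_orderOf_dvd_card 3 h3
    have hc : g0 * g0 * g0 = 1 := by
      have := pow_orderOf_eq_one g0
      rw [hg0] at this
      simpa [pow_succ, mul_assoc] using this
    have hne : g0 ≠ 1 := by
      rintro rfl
      simp at hg0
    have hsq : g0 * g0 = g0⁻¹ := eq_inv_of_mul_eq_one_left hc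
    have hne2 : g0 ≠ g0⁻¹ := by
      intro h
      have : g0 * g0 = 1 := by
        nth_rewrite 2 [h]; simp
      rw [hsq, inv_eq_one] at this
      exact hne this
    refine gen_aux G hG (fun g => g = g0 ∨ g = g0⁻¹) ?_ ?_ ?_ 2 ?_ (Or.inl ⟨by omega, rfl⟩)
    · rintro g (rfl | rfl)
      · right; rfl
      · left; simp
    · rintro g (rfl | rfl)
      · exact hsq
      · rw [← mul_inv_rev, hsq]
    · rintro g (rfl | rfl)
      · rw [hsq]; simpa using hne
      · rw [← mul_inv_rev, hsq]; simpa using hne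
    · intro _
      have : (univ.filter fun g => g = g0 ∨ g = g0⁻¹) = {g0, g0⁻¹} := by
        ext g; simp
      rw [this, Finset.card_pair hne2]
  · refine gen_aux G hG (fun _ => False) ?_ ?_ ?_ 0 ?_ (Or.inr ⟨by omega, rfl⟩)
    · intro g h; exact h
    · intro g h; exact h.elim
    · intro g h; exact h.elim
    · intro _; simp

end Pool.Agent.Lib_helper23.STS
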