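import Pool.Agent.Lib_helper23.STSAction
import Pool.Agent.Lib_helper23.STSCount

open Finset Sum

namespace Pool.Agent.Lib_helper23.STS

namespace Frame

variable {G Y : Type} [Group G] [AddCommGroup Y] {F : Frame G Y}

/-- bad cells for `σ` -/
def Bad (σ : Equiv.Perm F.V) (c : Y × Y) : Prop :=
  ∃ p q : F.V, (F.ty p = inl c.1 ∨ F.ty p = inl c.2) ∧ F.ty q = inr (some (c.1 + c.2)) ∧
    F.kap (F.ty (σ p)) (F.ty (σ q)) ≠ c

/-- preserved cells -/
def Pres (σ : Equiv.Perm F.V) (c : Y × Y) : Prop := ∀ p, tys c (F.ty p) → F.ty (σ p) = F.ty p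

/-- trivial cells -/
def Triv (σ : Equiv.Perm F.V) (c : Y × Y) : Prop := ∃ g, ∀ p, tys c (F.ty p) → σ p = F.act g p

lemma not_bad_maps {σ : Equiv.Perm F.V} {c : Y × Y} (hc : F.Cell c) (h : ¬ Bad σ c) (p : F.V)
    (hp : tys c (F.ty p)) : tys c (F.ty (σ p)) := by
  have key : ∀ p q : F.V, (F.ty p = inl c.1 ∨ F.ty p = inl c.2) →
      F.ty q = inr (some (c.1 + c.2)) → F.kap (F.ty (σ p)) (F.ty (σ q)) = c := by
    intro p q h1 h2
    by_contra h3
    exact h ⟨p, q, h1, h2, h3⟩
  rcases hp with h1 | h1 | h1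
  · exact (tys_of_kap hc (key p (hc.pt 1) (Or.inl h1) (hc.ty_pt 1))).1
  · exact (tys_of_kap hc (key p (hc.pt 1) (Or.inr h1) (hc.ty_pt 1))).1
  · exact (tys_of_kap hc (key (inl (1, c.1)) p (Or.inl rfl) h1)).2

lemma pres_of_two {σ : Equiv.Perm F.V} {c c' : Y × Y} (hc : F.Cell c) (hc' : F.Cell c')
    (h : ¬ Bad σ c) (h' : ¬ Bad σ c') (hne : c' ≠ c) {t : Ty Y} (ht : tys c t) (ht' : tys c' t)
    (p : F.V) (hp : F.ty p = t) : F.ty (σ p) = t := by
  by_contra hcon
  have h1 := not_bad_maps hc h p (by rw [hp]; exact ht)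
  have h2 := not_bad_maps hc' h' p (by rw [hp]; exact ht')
  have h3 := kap_of_tys hc h1 ht hcon
  have h4 := kap_of_tys hc' h2 ht' hcon
  exact hne (h4.symm.trans h3)

section Fin

variable [Fintype Y]

open scoped Classical in
variable (F) in
/-- the set of cells -/
noncomputable def cells : Finset (Y × Y) := Finset.univ.filter F.Cell

lemma mem_cells {c : Y × Y} : c ∈ F.cells ↔ F.Cell c := by
  classical
  simp [cells]

open scoped Classical in
lemma card_np (σ : Equiv.Perm F.V) :
    #(F.cells.filter fun c => ¬ Bad σ c ∧ ¬ Pres σ c) ≤ 2 * Fintype.card Y + 1 := by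
  have hex : ∀ c ∈ (F.cells.filter fun c => ¬ Bad σ c ∧ ¬ Pres σ c),
      ∃ t, tys c t ∧ ∀ c', F.Cell c' → ¬ Bad σ c' → tys c' t → c' = c := by
    intro c hc
    simp only [Finset.mem_filter, mem_cells] at hc
    obtain ⟨hc, hb, hp⟩ := hc
    by_contra hcon
    push Not at hcon
    apply hp
    intro p hpt
    obtain ⟨c', hc', hb', ht', hne⟩ := hcon _ hpt
    exact pres_of_two hc hc' hb hb' hne hpt ht' p rfl
  have : Nonempty (Ty Y) := ⟨inr none⟩
  choose! f hf1 hf2 using hex
  have h1 : #(F.cells.filter fun c => ¬ Bad σ c ∧ ¬ Pres σ c) ≤ #(Finset.univ : Finset (Ty Y)) := by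
    apply Finset.card_le_card_of_injOn f
    · intro c _
      simp
    · intro c hc c' hc' h
      have hc0 := Finset.mem_coe.mp hc
      have hc0' := Finset.mem_coe.mp hc'
      have h2 := hf1 c hc0
      rw [h] at h2
      have h3 := Finset.mem_filter.mp hc0
      exact hf2 c' hc0' c (mem_cells.mp h3.1) h3.2.1 h2
  rw [Finset.card_univ] at h1
  simp only [Fintype.card_sum, Fintype.card_option] at h1
  omega

variable [Fintype G] (mW : F.W → F.W → F.W)

omit [Fintype Y] in
open scoped Classical in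
/-- section bound for bad cells -/
lemma half_bad (hG : 2 ≤ Fintype.card G) (σ : Equiv.Perm F.V) {c : Y × Y} (hc : F.Cell c)
    {p q : F.V} (hp : F.ty p = inl c.1 ∨ F.ty p = inl c.2) (hq : F.ty q = inr (some (c.1 + c.2)))
    (u : F.V) :
    2 * #{v : Equiv.Perm G | σ (F.op mW (fun _ => v) p q) = u} ≤ Fintype.card (Equiv.Perm G) := by
  obtain ⟨b, rfl⟩ := hc.exists_pt hq
  rcases ({v : Equiv.Perm G | σ (F.op mW (fun _ => v) p (hc.pt b)) = u} :
      Finset (Equiv.Perm G)).eq_empty_or_nonempty with h | ⟨v0, hv0⟩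
  · rw [h]; simp
  · refine le_trans (Nat.mul_le_mul_left 2 (Finset.card_le_card ?_)) (half_value hG b (v0 b))
    intro v hv
    simp only [Finset.mem_filter, Finset.mem_univ, true_and] at hv hv0 ⊢
    have h1 := σ.injective (hv.trans hv0.symm)
    rcases hp with hp | hp
    · obtain ⟨x, rfl⟩ := exists_inl hp
      rw [hc.op1, hc.op1] at h1
      simpa using h1
    · obtain ⟨x, rfl⟩ := exists_inl hp
      rw [hc.op2, hc.op2] at h1
      simpa using h1

omit [Fintype Y] in
open scoped Classical in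
/-- section bound for preserved nontrivial cells -/
lemma half_pres (hG : 3 ≤ Fintype.card G) (σ : Equiv.Perm F.V) {c : Y × Y} (hc : F.Cell c)
    (hp : Pres σ c) (ht : ¬ Triv σ c) :
    2 * #{v : Equiv.Perm G | ∀ p q, F.ty p = inl c.1 → F.ty q = inr (some (c.1 + c.2)) →
      σ (F.op mW (fun _ => v) p q) = F.op mW (fun _ => v) (σ p) (σ q)} ≤
        Fintype.card (Equiv.Perm G) := by
  have h1 : ∀ x : G, ∃ y : G, σ (inl (x, c.1)) = inl (y, c.1) := fun x =>
    exists_inl (hp (inl (x, c.1)) (Or.inl rfl))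
  have h2 : ∀ x : G, ∃ y : G, σ (inl (x, c.2)) = inl (y, c.2) := fun x =>
    exists_inl (hp (inl (x, c.2)) (Or.inr (Or.inl rfl)))
  have h3 : ∀ b : G, ∃ b' : G, σ (hc.pt b) = hc.pt b' := fun b =>
    hc.exists_pt (hp (hc.pt b) (Or.inr (Or.inr rfl)))
  choose αi hαi using h1
  choose αj hαj using h2
  choose β hβ using h3
  refine le_trans (Nat.mul_le_mul_left 2 (Finset.card_le_card ?_)) (half_cocycle hG αi αj β ?_)
  · intro v hv
    simp only [Finset.mem_filter, Finset.mem_univ, true_and] at hv ⊢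
    intro x b
    have h := hv (inl (x, c.1)) (hc.pt b) rfl rfl
    rw [hc.op1, hαi, hβ, hc.op1, hαj] at h
    simpa using h
  · rintro ⟨g, hg1, hg2, hg3⟩
    apply ht
    refine ⟨g, ?_⟩
    rintro p (h | h | h)
    · obtain ⟨x, rfl⟩ := exists_inl h
      rw [hαi, hg1]; rfl
    · obtain ⟨x, rfl⟩ := exists_inl h
      rw [hαj, hg2]; rfl
    · obtain ⟨b, rfl⟩ := hc.exists_pt h
      rw [hβ, hg3]; rfl

open scoped Classical in
/-- the parameters for which `σ` is an automorphism -/
noncomputable def autSet (σ : Equiv.Perm F.V) : Finset (Y × Y → Equiv.Perm G) :=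
  Finset.univ.filter fun lm => ∀ p q, σ (F.op mW lm p q) = F.op mW lm (σ p) (σ q)

lemma mem_autSet {σ : Equiv.Perm F.V} {lm : Y × Y → Equiv.Perm G} :
    lm ∈ autSet mW σ ↔ ∀ p q, σ (F.op mW lm p q) = F.op mW lm (σ p) (σ q) := by
  simp [autSet]

open scoped Classical in
/-- the number of parameters for which `σ` is an automorphism -/
theorem aut_count (hG : 3 ≤ Fintype.card G) (σ : Equiv.Perm F.V) (e : ℕ)
    (he : 2 * e ≤ #(F.cells.filter fun c => Bad σ c) +
      #(F.cells.filter fun c => ¬ Bad σ c ∧ Pres σ c ∧ ¬ Triv σ c)) :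
    2 ^ e * #(autSet mW σ) ≤ Fintype.card (Y × Y → Equiv.Perm G) := by
  set B := F.cells.filter fun c => Bad σ c with hB
  set B2 := F.cells.filter fun c => ¬ Bad σ c ∧ Pres σ c ∧ ¬ Triv σ c with hB2
  have : Nonempty F.V := ⟨inl (1, 0)⟩
  have hex : ∀ c ∈ B, ∃ p q : F.V, (F.ty p = inl c.1 ∨ F.ty p = inl c.2) ∧
      F.ty q = inr (some (c.1 + c.2)) ∧ F.kap (F.ty (σ p)) (F.ty (σ q)) ≠ c := by
    intro c hc
    exact (Finset.mem_filter.mp hc).2
  choose! pp qq hpp hqq hkap using hex
  have hdisj : Disjoint B B2 := by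
    rw [Finset.disjoint_left]
    intro c h1 h2
    exact (Finset.mem_filter.mp h2).2.1 (Finset.mem_filter.mp h1).2
  let f : Y × Y → Y × Y := fun c => F.kap (F.ty (σ (pp c))) (F.ty (σ (qq c)))
  have key : ∀ rank : Y × Y → ℕ, Function.Injective rank →
      2 ^ (#(B.filter fun c => rank (f c) < rank c) + #B2) * #(autSet mW σ) ≤
      Fintype.card (Y × Y → Equiv.Perm G) := by
    intro rank hrank
    let Rel : Y × Y → Equiv.Perm G → (Y × Y → Equiv.Perm G) → Prop := fun c v l =>
      (c ∈ B → rank (f c) < rank c →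
        σ (F.op mW (fun _ => v) (pp c) (qq c)) = F.op mW l (σ (pp c)) (σ (qq c))) ∧
      (c ∈ B2 → ∀ p q, F.ty p = inl c.1 → F.ty q = inr (some (c.1 + c.2)) →
        σ (F.op mW (fun _ => v) p q) = F.op mW (fun _ => v) (σ p) (σ q))
    have hcard : #((B.filter fun c => rank (f c) < rank c) ∪ B2) =
        #(B.filter fun c => rank (f c) < rank c) + #B2 :=
      Finset.card_union_of_disjoint (hdisj.mono_left (Finset.filter_subset _ _))
    rw [← hcard]
    refine le_trans (Nat.mul_le_mul_left _ (Finset.card_le_card ?_))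
      (count_aux rank Rel ?_ ((B.filter fun c => rank (f c) < rank c) ∪ B2) hrank.injOn ?_)
    · intro l hl
      rw [mem_autSet] at hl
      simp only [Finset.mem_filter, Finset.mem_univ, true_and]
      intro c hc
      refine ⟨?_, ?_⟩
      · intro hcB _
        have hcell := mem_cells.mp (Finset.mem_filter.mp hcB).1
        have hk : F.kap (F.ty (pp c)) (F.ty (qq c)) = c := by
          apply kap_of_tys hcell
          · rcases hpp c hcB with h | h
            · exact Or.inl h
            · exact Or.inr (Or.inl h)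
          · exact Or.inr (Or.inr (hqq c hcB))
          · rw [hqq c hcB]
            rcases hpp c hcB with h | h <;> rw [h] <;> simp
        rw [← hl]
        congr 1
        apply op_congr
        rw [hk]
      · intro hcB2 p q hp hq
        have hcell := mem_cells.mp (Finset.mem_filter.mp hcB2).1
        have hpres := (Finset.mem_filter.mp hcB2).2.2.1
        have hk : F.kap (F.ty p) (F.ty q) = c := by
          apply kap_of_tys hcell (Or.inl hp) (Or.inr (Or.inr hq))
          rw [hp, hq]; simp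
        have hk2 : F.kap (F.ty (σ p)) (F.ty (σ q)) = c := by
          rw [hpres p (Or.inl hp), hpres q (Or.inr (Or.inr hq)), hk]
        have e1 : F.op mW (fun _ => l c) p q = F.op mW l p q := by
          apply op_congr; rw [hk]
        have e2 : F.op mW (fun _ => l c) (σ p) (σ q) = F.op mW l (σ p) (σ q) := by
          apply op_congr; rw [hk2]
        rw [e1, e2, hl]
    · intro c v l l' hll ⟨h1, h2⟩
      refine ⟨?_, h2⟩
      intro hcB hr
      rw [h1 hcB hr]
      apply op_congr
      exact hll _ hr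
    · intro c hc l
      rcases Finset.mem_union.mp hc with hc | hc
      · obtain ⟨hcB, hr⟩ := Finset.mem_filter.mp hc
        have hcell := mem_cells.mp (Finset.mem_filter.mp hcB).1
        refine le_trans (Nat.mul_le_mul_left 2 (Finset.card_le_card ?_))
          (half_bad mW (by omega) σ hcell (hpp c hcB) (hqq c hcB)
            (F.op mW l (σ (pp c)) (σ (qq c))))
        intro v hv
        simp only [Finset.mem_filter, Finset.mem_univ, true_and] at hv ⊢
        exact hv.1 hcB hr
      · obtain ⟨hcell, hnb, hpres, hnt⟩ := Finset.mem_filter.mp hc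
        refine le_trans (Nat.mul_le_mul_left 2 (Finset.card_le_card ?_))
          (half_pres mW hG σ (mem_cells.mp hcell) hpres hnt)
        intro v hv
        simp only [Finset.mem_filter, Finset.mem_univ, true_and] at hv ⊢
        exact hv.2 hc
  let en := Fintype.equivFin (Y × Y)
  have k1 := key (fun c => (en c : ℕ)) (fun a b h => en.injective (Fin.ext h))
  have k2 := key (fun c => Fintype.card (Y × Y) - (en c : ℕ)) (by
    intro a b h
    apply en.injective
    apply Fin.ext
    have ha := (en a).2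
    have hb := (en b).2
    dsimp only at h
    omega)
  have hB12 : #B ≤ #(B.filter fun c => (en (f c) : ℕ) < (en c : ℕ)) +
      #(B.filter fun c => Fintype.card (Y × Y) - (en (f c) : ℕ) <
        Fintype.card (Y × Y) - (en c : ℕ)) := by
    refine le_trans (Finset.card_le_card ?_) (Finset.card_union_le _ _)
    intro c hc
    have h1 : f c ≠ c := hkap c hc
    have h2 : (en (f c) : ℕ) ≠ (en c : ℕ) := fun h => h1 (en.injective (Fin.ext h))
    have h3 := (en (f c)).2
    have h4 := (en c).2
    rcases lt_or_gt_of_ne h2 with h | h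
    · exact Finset.mem_union_left _ (Finset.mem_filter.mpr ⟨hc, h⟩)
    · exact Finset.mem_union_right _ (Finset.mem_filter.mpr ⟨hc, by omega⟩)
  have hor : e ≤ #(B.filter fun c => (en (f c) : ℕ) < (en c : ℕ)) + #B2 ∨
      e ≤ #(B.filter fun c => Fintype.card (Y × Y) - (en (f c) : ℕ) <
        Fintype.card (Y × Y) - (en c : ℕ)) + #B2 := by omega
  rcases hor with h | h
  · exact le_trans (Nat.mul_le_mul_right _ (Nat.pow_le_pow_right (by norm_num) h)) k1
  · exact le_trans (Nat.mul_le_mul_right _ (Nat.pow_le_pow_right (by norm_num) h)) k2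

end Fin

end Frame

end Pool.Agent.Lib_helper23.STS
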