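import Pool.Agent.Lib_helper23.STSUnion
import Pool.Agent.Lib_helper23.STSBose

open Finset Sum

namespace Pool.Agent.Lib_helper23.STS

namespace Frame

section Card

variable {G Y : Type} [Group G] [AddCommGroup Y] (F : Frame G Y) [Fintype Y] [Fintype G]

omit [Fintype Y] in
open scoped Classical in
lemma card_group :
    Fintype.card G = 1 + #{t : G | t ≠ 1 ∧ t * t = 1} + #{g : G | F.T g} + 2 * #{g : G | F.R g} := by
  have h1 : (univ : Finset G) = ((insert 1 ({t : G | t ≠ 1 ∧ t * t = 1} : Finset G)) ∪
      ({g : G | F.T g} : Finset G)) ∪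
      (({g : G | F.R g} : Finset G) ∪ ({g : G | F.R g} : Finset G).image (fun g => g⁻¹)) := by
    ext g
    simp only [Finset.mem_univ, true_iff, Finset.mem_union, Finset.mem_insert, Finset.mem_filter,
      true_and, Finset.mem_image]
    rcases F.cover g with h | h | h | h
    · by_cases hg : g = 1
      · left; left; left; exact hg
      · left; left; right; exact ⟨hg, h⟩
    · left; right; exact h
    · right; left; exact h
    · right; right; exact ⟨g⁻¹, h, by simp⟩
  have d1 : Disjoint (insert 1 ({t : G | t ≠ 1 ∧ t * t = 1} : Finset G))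
      ({g : G | F.T g} : Finset G) := by
    rw [Finset.disjoint_left]
    intro g hg hg'
    simp only [Finset.mem_insert, Finset.mem_filter, Finset.mem_univ, true_and] at hg hg'
    rcases hg with rfl | hg
    · exact F.T_sq _ hg' (by simp)
    · exact F.T_sq _ hg' hg.2
  have d2 : Disjoint ({g : G | F.R g} : Finset G)
      (({g : G | F.R g} : Finset G).image (fun g => g⁻¹)) := by
    rw [Finset.disjoint_left]
    intro g hg hg'
    simp only [Finset.mem_image, Finset.mem_filter, Finset.mem_univ, true_and] at hg hg'
    obtain ⟨g', h1, rfl⟩ := hg'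
    exact F.R_inv _ h1 hg
  have d3 : Disjoint ((insert 1 ({t : G | t ≠ 1 ∧ t * t = 1} : Finset G)) ∪
      ({g : G | F.T g} : Finset G))
      (({g : G | F.R g} : Finset G) ∪ ({g : G | F.R g} : Finset G).image (fun g => g⁻¹)) := by
    rw [Finset.disjoint_left]
    intro g hg hg'
    simp only [Finset.mem_insert, Finset.mem_filter, Finset.mem_univ, true_and,
      Finset.mem_union, Finset.mem_image] at hg hg'
    rcases hg' with hg' | ⟨g', hg', rfl⟩
    · rcases hg with (rfl | hg) | hg
      · exact F.R_sq _ hg' (by simp)
      · exact F.R_sq _ hg' hg.2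
      · exact F.R_T _ hg' hg
    · rcases hg with (hg | hg) | hg
      · rw [inv_eq_one] at hg
        subst hg
        exact F.R_sq _ hg' (by simp)
      · exact F.R_inv_sq hg' hg.2
      · exact F.R_inv_T hg' hg
  have h3 : #(({g : G | F.R g} : Finset G).image (fun g => g⁻¹)) = #{g : G | F.R g} :=
    Finset.card_image_of_injective _ inv_injective
  have h2 := congrArg Finset.card h1
  rw [Finset.card_univ, Finset.card_union_of_disjoint d3, Finset.card_union_of_disjoint d1,
    Finset.card_union_of_disjoint d2, Finset.card_insert_of_notMem (by simp), h3] at h2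
  omega

open scoped Classical in
lemma card_W : Fintype.card F.W + 4 * #{g : G | F.R g} + Fintype.card G =
    #{t : G | t ≠ 1 ∧ t * t = 1} + Fintype.card Y * Fintype.card G := by
  let A : Finset (Y × G) := {p : Y × G | F.validW (inr p)}
  let B : Finset (Y × G) := ((({g : G | F.R g} : Finset G) ×ˢ (univ : Finset (ZMod 2))) ×ˢ
    (univ : Finset Bool)).image (fun q => (F.D q.1.1 q.1.2, if q.2 then 1 else q.1.1⁻¹))
  let C : Finset (Y × G) := ({0} : Finset Y) ×ˢ (univ : Finset G)
  have h1 : Fintype.card F.W = #{t : G | t ≠ 1 ∧ t * t = 1} + #A := by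
    rw [Fintype.card_subtype, ← Finset.card_disjSum]
    congr 1
    ext w
    rcases w with t | p
    · simp only [Finset.mem_filter, Finset.mem_univ, true_and, Finset.inl_mem_disjSum]
      exact Iff.rfl
    · simp only [A, Finset.mem_filter, Finset.mem_univ, true_and, Finset.inr_mem_disjSum]
  have hB : #B = 4 * #{g : G | F.R g} := by
    have : Set.InjOn (fun q : (G × ZMod 2) × Bool =>
        (F.D q.1.1 q.1.2, if q.2 then (1 : G) else q.1.1⁻¹))
        ((({g : G | F.R g} : Finset G) ×ˢ (univ : Finset (ZMod 2))) ×ˢ
        (univ : Finset Bool) : Finset ((G × ZMod 2) × Bool)) := by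
      rintro ⟨⟨g, τ⟩, b⟩ hq ⟨⟨g', τ'⟩, b'⟩ hq' h
      simp only [Prod.mk.injEq] at h
      obtain ⟨rfl, rfl⟩ := F.D_inj _ _ _ _ h.1
      simp only [Finset.coe_product, Set.mem_prod, Finset.mem_coe, Finset.mem_filter,
        Finset.mem_univ, true_and] at hq
      have hne := F.R_ne_one hq.1.1
      have h2 := h.2
      rcases b with _ | _ <;> rcases b' with _ | _
      · rfl
      · exfalso; apply hne; simpa using h2
      · exfalso; apply hne; simpa [eq_comm] using h2
      · rfl
    rw [Finset.card_image_of_injOn this, Finset.card_product, Finset.card_product]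
    simp only [Finset.card_univ, ZMod.card, Fintype.card_bool]
    ring
  have hC : #C = Fintype.card G := by
    simp [C]
  have hABC : (univ : Finset (Y × G)) = A ∪ (B ∪ C) := by
    ext ⟨d, b⟩
    simp only [Finset.mem_univ, true_iff, Finset.mem_union]
    by_cases hd : d = 0
    · right; right; simp [C, hd]
    · by_cases hbad : ∃ g τ, F.R g ∧ d = F.D g τ ∧ (b = 1 ∨ b = g⁻¹)
      · right; left
        obtain ⟨g, τ, hg, rfl, hb⟩ := hbad
        refine Finset.mem_image.mpr ?_
        rcases hb with rfl | rfl
        · exact ⟨((g, τ), true), by simp [hg], by simp⟩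
        · exact ⟨((g, τ), false), by simp [hg], by simp⟩
      · left
        push Not at hbad
        simp only [A, Finset.mem_filter, Finset.mem_univ, true_and]
        exact ⟨hd, fun g τ hg hdg => hbad g τ hg hdg⟩
  have dBC : Disjoint B C := by
    rw [Finset.disjoint_left]
    intro p hp hp'
    obtain ⟨q, hq, rfl⟩ := Finset.mem_image.mp hp
    simp only [C, Finset.mem_product, Finset.mem_singleton, Finset.mem_univ, and_true] at hp'
    exact F.D_ne_zero _ _ hp'
  have dA : Disjoint A (B ∪ C) := by
    rw [Finset.disjoint_left]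
    rintro ⟨d, b⟩ hp hp'
    simp only [A, Finset.mem_filter, Finset.mem_univ, true_and] at hp
    rcases Finset.mem_union.mp hp' with hp' | hp'
    · obtain ⟨q, hq, h⟩ := Finset.mem_image.mp hp'
      simp only [Finset.mem_product, Finset.mem_filter, Finset.mem_univ, true_and, and_true] at hq
      simp only [Prod.mk.injEq] at h
      have h2 := hp.2 q.1.1 q.1.2 hq h.1.symm
      have h3 := h.2
      split_ifs at h3
      · exact h2.1 h3.symm
      · exact h2.2 h3.symm
    · simp only [C, Finset.mem_product, Finset.mem_singleton, Finset.mem_univ, and_true] at hp'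
      exact hp.1 hp'
  have h5 : Fintype.card Y * Fintype.card G = #A + (#B + #C) := by
    rw [← Finset.card_union_of_disjoint dBC, ← Finset.card_union_of_disjoint dA, ← hABC,
      Finset.card_univ, Fintype.card_prod]
  rw [h1, h5, hB, hC]
  ring

omit [Fintype Y] [Fintype G] in
lemma nonfree {i j : Y} (h : F.Eo i j ≠ none) : ∃ g, j = i + F.D g (F.par i) := by
  obtain ⟨g, hg⟩ := Option.ne_none_iff_exists'.mp h
  exact ⟨g, (Eo_eq_some.mp hg).2⟩

open scoped Classical in
lemma card_cells : Fintype.card Y * Fintype.card Y ≤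
    Fintype.card Y + 2 * #F.cells + 2 * (Fintype.card Y * Fintype.card G) := by
  let A : Finset (Y × Y) := ((univ : Finset Y) ×ˢ (univ : Finset G)).image
    (fun q => (q.1, q.1 + F.D q.2 (F.par q.1)))
  let B : Finset (Y × Y) := ((univ : Finset Y) ×ˢ (univ : Finset G)).image
    (fun q => (q.1 + F.D q.2 (F.par q.1), q.1))
  let Dg : Finset (Y × Y) := (univ : Finset Y).image (fun i => (i, i))
  let Cs : Finset (Y × Y) := F.cells.image Prod.swap
  have hsub : (univ : Finset (Y × Y)) ⊆ Dg ∪ (F.cells ∪ Cs) ∪ (A ∪ B) := by
    rintro ⟨i, j⟩ _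
    simp only [Finset.mem_union]
    by_cases h1 : F.Eo i j = none
    · by_cases h2 : F.Eo j i = none
      · left
        rcases lt_trichotomy (F.o i) (F.o j) with h | h | h
        · right; left
          exact mem_cells.mpr ⟨h, h1, h2⟩
        · left
          have := F.o_inj _ _ h
          subst this
          exact Finset.mem_image.mpr ⟨i, Finset.mem_univ _, rfl⟩
        · right; right
          exact Finset.mem_image.mpr ⟨(j, i), mem_cells.mpr ⟨h, h2, h1⟩, rfl⟩
      · right; right
        obtain ⟨g, hg⟩ := F.nonfree h2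
        exact Finset.mem_image.mpr ⟨(j, g), by simp, by simp [← hg]⟩
    · right; left
      obtain ⟨g, hg⟩ := F.nonfree h1
      exact Finset.mem_image.mpr ⟨(i, g), by simp, by simp [← hg]⟩
  have hA : #A ≤ Fintype.card Y * Fintype.card G := by
    refine le_trans Finset.card_image_le ?_
    rw [Finset.card_product, Finset.card_univ, Finset.card_univ]
  have hB : #B ≤ Fintype.card Y * Fintype.card G := by
    refine le_trans Finset.card_image_le ?_
    rw [Finset.card_product, Finset.card_univ, Finset.card_univ]
  have hD : #Dg ≤ Fintype.card Y := le_trans Finset.card_image_le (by rw [Finset.card_univ])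
  have hC : #Cs ≤ #F.cells := Finset.card_image_le
  have h := Finset.card_le_card hsub
  rw [Finset.card_univ, Fintype.card_prod] at h
  have h1 := Finset.card_union_le (Dg ∪ (F.cells ∪ Cs)) (A ∪ B)
  have h2 := Finset.card_union_le Dg (F.cells ∪ Cs)
  have h3 := Finset.card_union_le F.cells Cs
  have h4 := Finset.card_union_le A B
  omega

end Card

section Make

variable {G : Type} [Group G] [Fintype G]

/-- The frame attached to a group. -/
noncomputable def mk' (r : ℕ) (emb : G × ZMod 2 ↪ (Fin r → ZMod 2)) (T : G → Prop)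
    (T_inv : ∀ g, T g → T g⁻¹) (T_cube : ∀ g, T g → g * g = g⁻¹) (T_sq : ∀ g, T g → g * g ≠ 1) :
    Frame G ((Fin r → ZMod 2) × ZMod 2) where
  R g := Fintype.equivFin G g < Fintype.equivFin G g⁻¹ ∧ ¬ T g
  T := T
  D g τ := (emb (g, τ), 1)
  par y := y.2
  o y := (Fintype.equivFin ((Fin r → ZMod 2) × ZMod 2) y : ℕ)
  T_inv := T_inv
  T_cube := T_cube
  T_sq := T_sq
  R_T g h := h.2
  R_sq g h h' := by
    have : g⁻¹ = g := inv_eq_of_mul_eq_one_left h'
    rw [this] at h
    exact lt_irrefl _ h.1
  R_inv g h h' := by
    have := h'.1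
    rw [inv_inv] at this
    exact lt_asymm this h.1
  cover g := by
    by_cases h1 : g * g = 1
    · left; exact h1
    by_cases h2 : T g
    · right; left; exact h2
    have h3 : ¬ T g⁻¹ := fun h => h2 (by simpa using T_inv _ h)
    have h4 : Fintype.equivFin G g ≠ Fintype.equivFin G g⁻¹ := by
      intro h
      have h5 := (Fintype.equivFin G).injective h
      apply h1
      nth_rewrite 2 [h5]
      simp
    rcases lt_or_gt_of_ne h4 with h | h
    · right; right; left; exact ⟨h, h2⟩
    · right; right; right
      refine ⟨?_, h3⟩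
      rw [inv_inv]
      exact h
  D_inj g g' τ τ' h := by
    have h1 : emb (g, τ) = emb (g', τ') := (Prod.mk.inj h).1
    have h2 := emb.injective h1
    exact Prod.mk.inj h2
  par_D i g τ := rfl
  exp2 y := by
    have : ∀ a : ZMod 2, a + a = 0 := by decide
    ext <;> simp [this]
  o_inj i j h := (Fintype.equivFin _).injective (Fin.ext h)

end Make

end Frame

end Pool.Agent.Lib_helper23.STS
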