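import Pool.Agent.Lib_helper23.STSBasic

open Finset

namespace Pool.Agent.Lib_helper23.STS

/-- multiplication table of a Steiner triple system of order 15 with automorphism group of order 2,
packed in base 16 -/
def code15 : ℕ := 0xe4bc132507d98a64d07251b39e6a8cb0ce3891562a47dc7eb410d23a56981234a65098bcde7358169c4ad7e0b221905c867a34edb5b1d04678e923ca03529a786c1db4e79638daec50b124de2ab7391048c6596a5ce42db837018a46d0e3b1c7259a879ebdc42605136cd872bae451930

/-- table lookup -/
def m15 (x y : Fin 15) : Fin 15 :=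
  ⟨(code15 / 16 ^ (15 * x.val + y.val)) % 16 % 15, Nat.mod_lt _ (by norm_num)⟩

/-- the involution -/
def tauf : Fin 15 → Fin 15 := ![14, 4, 11, 13, 1, 10, 6, 7, 8, 12, 5, 2, 9, 3, 0]

/-- the involution as a permutation -/
def tau : Equiv.Perm (Fin 15) where
  toFun := tauf
  invFun := tauf
  left_inv := by decide
  right_inv := by decide

lemma m15_isSquag : IsSquag m15 where
  idem := by decide +kernel
  comm := by decide +kernel
  inv := by decide +kernel

lemma tau_aut : ∀ x y, tauf (m15 x y) = m15 (tauf x) (tauf y) := by decide +kernel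

lemma key15 : ∀ a b c : Fin 15, a ≠ b →
    m15 c (m15 (m15 c b) a) = m15 (m15 (m15 b a) c) b →
    m15 a (m15 (m15 (m15 c a) b) c) = m15 (m15 c a) (m15 b a) →
    m15 b (m15 (m15 c b) a) = m15 (m15 (m15 c a) b) c →
    (a = 0 ∧ b = 1 ∧ c = 2) ∨ (a = 14 ∧ b = 4 ∧ c = 11) := by
  decide +kernel

lemma aut15 (σ : Equiv.Perm (Fin 15)) :
    (∀ x y, σ (m15 x y) = m15 (σ x) (σ y)) ↔ σ = 1 ∨ σ = tau := by
  constructor
  · intro h
    have w3 : m15 1 0 = 3 := by decide +kernel
    have w9 : m15 2 0 = 9 := by decide +kernel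
    have w5 : m15 2 1 = 5 := by decide +kernel
    have w7 : m15 3 2 = 7 := by decide +kernel
    have w11 : m15 9 1 = 11 := by decide +kernel
    have w14 : m15 9 3 = 14 := by decide +kernel
    have w4 : m15 5 0 = 4 := by decide +kernel
    have w13 : m15 5 9 = 13 := by decide +kernel
    have w10 : m15 7 0 = 10 := by decide +kernel
    have w12 : m15 7 1 = 12 := by decide +kernel
    have w8 : m15 11 0 = 8 := by decide +kernel
    have w6 : m15 11 2 = 6 := by decide +kernel
    have u1 : m15 2 4 = 12 := by decide +kernel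
    have u2 : m15 0 6 = 14 := by decide +kernel
    have u3 : m15 1 4 = 6 := by decide +kernel
    have s3 : σ 3 = m15 (σ 1) (σ 0) := by rw [← h, w3]
    have s9 : σ 9 = m15 (σ 2) (σ 0) := by rw [← h, w9]
    have s5 : σ 5 = m15 (σ 2) (σ 1) := by rw [← h, w5]
    have s7 : σ 7 = m15 (σ 3) (σ 2) := by rw [← h, w7]
    have s11 : σ 11 = m15 (σ 9) (σ 1) := by rw [← h, w11]
    have s14 : σ 14 = m15 (σ 9) (σ 3) := by rw [← h, w14]
    have s4 : σ 4 = m15 (σ 5) (σ 0) := by rw [← h, w4]
    have s13 : σ 13 = m15 (σ 5) (σ 9) := by rw [← h, w13]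
    have s10 : σ 10 = m15 (σ 7) (σ 0) := by rw [← h, w10]
    have s12 : σ 12 = m15 (σ 7) (σ 1) := by rw [← h, w12]
    have s8 : σ 8 = m15 (σ 11) (σ 0) := by rw [← h, w8]
    have s6 : σ 6 = m15 (σ 11) (σ 2) := by rw [← h, w6]
    have v1 : m15 (σ 2) (σ 4) = σ 12 := by rw [← h, u1]
    have v2 : m15 (σ 0) (σ 6) = σ 14 := by rw [← h, u2]
    have v3 : m15 (σ 1) (σ 4) = σ 6 := by rw [← h, u3]
    have hne : σ 0 ≠ σ 1 := fun h => absurd (σ.injective h) (by decide)
    have hk := key15 (σ 0) (σ 1) (σ 2) hne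
      (by rw [← s5, ← s4, ← s3, ← s7, ← s12]; exact v1)
      (by rw [← s9, ← s11, ← s6, ← s3, ← s14]; exact v2)
      (by rw [← s5, ← s4, ← s9, ← s11, ← s6]; exact v3)
    rcases hk with ⟨h0, h1, h2⟩ | ⟨h0, h1, h2⟩
    · left
      rw [h0, h1, w3] at s3
      rw [h2, h0, w9] at s9
      rw [h2, h1, w5] at s5
      rw [s3, h2, w7] at s7
      rw [s9, h1, w11] at s11
      rw [s9, s3, w14] at s14
      rw [s5, h0, w4] at s4
      rw [s5, s9, w13] at s13
      rw [s7, h0, w10] at s10
      rw [s7, h1, w12] at s12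
      rw [s11, h0, w8] at s8
      rw [s11, h2, w6] at s6
      ext x
      fin_cases x <;> simp [h0, h1, h2, s3, s4, s5, s6, s7, s8, s9, s10, s11, s12, s13, s14]
    · right
      have t3 : m15 4 14 = 13 := by decide +kernel
      have t9 : m15 11 14 = 12 := by decide +kernel
      have t5 : m15 11 4 = 10 := by decide +kernel
      have t7 : m15 13 11 = 7 := by decide +kernel
      have t11 : m15 12 4 = 2 := by decide +kernel
      have t14 : m15 12 13 = 0 := by decide +kernel
      have t4 : m15 10 14 = 1 := by decide +kernel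
      have t13 : m15 10 12 = 3 := by decide +kernel
      have t10 : m15 7 14 = 5 := by decide +kernel
      have t12 : m15 7 4 = 9 := by decide +kernel
      have t8 : m15 2 14 = 8 := by decide +kernel
      have t6 : m15 2 11 = 6 := by decide +kernel
      rw [h0, h1, t3] at s3
      rw [h2, h0, t9] at s9
      rw [h2, h1, t5] at s5
      rw [s3, h2, t7] at s7
      rw [s9, h1, t11] at s11
      rw [s9, s3, t14] at s14
      rw [s5, h0, t4] at s4
      rw [s5, s9, t13] at s13
      rw [s7, h0, t10] at s10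
      rw [s7, h1, t12] at s12
      rw [s11, h0, t8] at s8
      rw [s11, h2, t6] at s6
      ext x
      fin_cases x <;>
        simp [h0, h1, h2, s3, s4, s5, s6, s7, s8, s9, s10, s11, s12, s13, s14, tau, tauf]
  · rintro (rfl | rfl)
    · intro x y; rfl
    · exact tau_aut

theorem two (G : Type) [Group G] [Fintype G] (hG : Fintype.card G = 2) :
    ∃ (V : Type) (_ : Fintype V) (m : V → V → V) (φ : G →* Equiv.Perm V),
      IsSquag m ∧ Function.Injective φ ∧
      (∀ σ, σ ∈ φ.range ↔ ∀ x y, σ (m x y) = m (σ x) (σ y)) ∧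
      Fintype.card V ≤ Fintype.card G ^ 17 := by
  classical
  obtain ⟨g, hg⟩ : ∃ g : G, g ≠ 1 := by
    have : Nontrivial G := Fintype.one_lt_card_iff_nontrivial.mp (by omega)
    exact exists_ne 1
  have hall : ∀ x : G, x = 1 ∨ x = g := by
    intro x
    by_contra hcon
    push Not at hcon
    have h1 : #({1, g, x} : Finset G) = 3 := by
      rw [Finset.card_eq_three]
      exact ⟨1, g, x, hg.symm, hcon.1.symm, hcon.2.symm, rfl⟩
    have h2 := Finset.card_le_univ ({1, g, x} : Finset G)
    omega
  have hgg : g * g = 1 := by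
    rcases hall (g * g) with h | h
    · exact h
    · exact absurd (mul_eq_left.mp h) hg
  have htt : tau * tau = 1 := by
    ext x
    exact congrArg Fin.val (tau.left_inv x)
  let φ : G →* Equiv.Perm (Fin 15) :=
    { toFun := fun x => if x = 1 then 1 else tau
      map_one' := by simp
      map_mul' := by
        intro x y
        rcases hall x with rfl | rfl <;> rcases hall y with rfl | rfl
        · simp
        · simp
        · simp
        · simp [hg, hgg, htt] }
  have hφ1 : φ 1 = 1 := map_one φ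
  have hφg : φ g = tau := by simp [φ, hg]
  have htne : tau ≠ 1 := by
    intro h
    have := congrArg (fun σ : Equiv.Perm (Fin 15) => σ 0) h
    revert this
    decide
  refine ⟨Fin 15, inferInstance, m15, φ, m15_isSquag, ?_, ?_, ?_⟩
  · intro x y hxy
    rcases hall x with rfl | rfl <;> rcases hall y with rfl | rfl
    · rfl
    · rw [hφ1, hφg] at hxy; exact absurd hxy.symm htne
    · rw [hφ1, hφg] at hxy; exact absurd hxy htne
    · rfl
  · intro σ
    rw [aut15]
    constructor
    · rintro ⟨x, rfl⟩
      rcases hall x with rfl | rfl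
      · left; exact hφ1
      · right; exact hφg
    · rintro (rfl | rfl)
      · exact ⟨1, hφ1⟩
      · exact ⟨g, hφg⟩
  · rw [hG, Fintype.card_fin]; norm_num

end Pool.Agent.Lib_helper23.STS
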