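import Pool.Agent.Lib_helper23.STSFix

open Finset Sum

namespace Pool.Agent.Lib_helper23.STS

namespace Frame

variable {G Y : Type} [Group G] [AddCommGroup Y] {F : Frame G Y} [Fintype Y] [Fintype G]

open scoped Classical in
theorem exists_rigid [Fintype F.V] (hG : 3 ≤ Fintype.card G) {mW : F.W → F.W → F.W}
    (hmW : IsSquag mW) (hV : Fintype.card F.V ≤ 2 * Fintype.card G * Fintype.card Y) (e : ℕ)
    (he : (Fintype.card F.V).factorial < 2 ^ e)
    (hcells : Fintype.card Y * Fintype.card Y + 4 * (2 * e + 2 * Fintype.card Y + 1) ≤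
      4 * #F.cells) :
    ∃ lm : Y × Y → Equiv.Perm G, ∀ σ : Equiv.Perm F.V,
      (σ ∈ F.act.range ↔ ∀ p q, σ (F.op mW lm p q) = F.op mW lm (σ p) (σ q)) := by
  let S : Finset (Equiv.Perm F.V) := univ.filter fun σ => σ ∉ F.act.range
  have hE : ∀ σ ∈ S, 2 ^ e * #(autSet mW σ) ≤ Fintype.card (Y × Y → Equiv.Perm G) := by
    intro σ hσ
    have hσ' : σ ∉ F.act.range := (Finset.mem_filter.mp hσ).2
    rcases (autSet mW σ).eq_empty_or_nonempty with h | ⟨lm, hlm⟩
    · rw [h]; simp
    by_cases h2e : 2 * e ≤ #(F.cells.filter fun c => Bad σ c) +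
      #(F.cells.filter fun c => ¬ Bad σ c ∧ Pres σ c ∧ ¬ Triv σ c)
    · exact aut_count mW hG σ e h2e
    · exfalso
      apply hσ'
      apply triv_many hmW lm σ ((mem_autSet mW).mp hlm) hV
      have hnp := card_np σ
      have hle : #F.cells ≤ #(F.cells.filter fun c => Bad σ c) +
          #(F.cells.filter fun c => ¬ Bad σ c ∧ Pres σ c ∧ ¬ Triv σ c) +
          #(F.cells.filter fun c => ¬ Bad σ c ∧ ¬ Pres σ c) +
          #(F.cells.filter fun c => Triv σ c) := by
        have hsub : F.cells ⊆ (F.cells.filter fun c => Bad σ c) ∪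
          (F.cells.filter fun c => ¬ Bad σ c ∧ Pres σ c ∧ ¬ Triv σ c) ∪
          (F.cells.filter fun c => ¬ Bad σ c ∧ ¬ Pres σ c) ∪
          (F.cells.filter fun c => Triv σ c) := by
          intro c hc
          simp only [Finset.mem_union, Finset.mem_filter, hc, true_and]
          tauto
        refine le_trans (Finset.card_le_card hsub) ?_
        refine le_trans (Finset.card_union_le _ _) ?_
        gcongr
        refine le_trans (Finset.card_union_le _ _) ?_
        gcongr
        exact Finset.card_union_le _ _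
      omega
  by_contra hcon
  push Not at hcon
  have hcover : (univ : Finset (Y × Y → Equiv.Perm G)) ⊆ S.biUnion (autSet mW) := by
    intro lm _
    obtain ⟨σ, hσ⟩ := hcon lm
    rw [Finset.mem_biUnion]
    rcases hσ with ⟨⟨g, rfl⟩, p, q, h⟩ | ⟨h1, h2⟩
    · exact absurd (F.op_act lm mW g p q) h
    · exact ⟨σ, Finset.mem_filter.mpr ⟨Finset.mem_univ _, h1⟩,
        (mem_autSet mW).mpr h2⟩
  have h1 : Fintype.card (Y × Y → Equiv.Perm G) ≤ ∑ σ ∈ S, #(autSet mW σ) := by
    rw [← Finset.card_univ]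
    exact le_trans (Finset.card_le_card hcover) Finset.card_biUnion_le
  have h2 : 2 ^ e * Fintype.card (Y × Y → Equiv.Perm G) ≤
      (Fintype.card F.V).factorial * Fintype.card (Y × Y → Equiv.Perm G) := by
    calc 2 ^ e * Fintype.card (Y × Y → Equiv.Perm G) ≤ 2 ^ e * ∑ σ ∈ S, #(autSet mW σ) :=
          Nat.mul_le_mul_left _ h1
      _ = ∑ σ ∈ S, 2 ^ e * #(autSet mW σ) := Finset.mul_sum _ _ _
      _ ≤ ∑ _σ ∈ S, Fintype.card (Y × Y → Equiv.Perm G) := Finset.sum_le_sum hE
      _ = #S * Fintype.card (Y × Y → Equiv.Perm G) := by rw [Finset.sum_const, smul_eq_mul]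
      _ ≤ _ := by
        apply Nat.mul_le_mul_right
        rw [← Fintype.card_perm]
        exact Finset.card_le_univ _
  have h3 : 0 < Fintype.card (Y × Y → Equiv.Perm G) := Fintype.card_pos
  have h4 := Nat.le_of_mul_le_mul_right h2 h3
  omega

end Frame

end Pool.Agent.Lib_helper23.STS
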