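import Mathlib

open Finset

namespace Pool.Agent.Lib_helper23.VanLint

lemma analytic_large {n d : ℕ} (hn : 2 ≤ n) (x : ℝ) (hx : x = (n:ℝ) ^ (1/16 : ℝ))
    (hx3 : 20000 < x ^ 3)
    (h : (3 / 16384 : ℝ) * (n:ℝ)^4 ≤
      Real.exp (512 * (d:ℝ)^2/n) * (2*(n:ℝ)^3 + 256*(n:ℝ)^2*(d:ℝ)^3)) :
    (1/64 : ℝ) * Real.sqrt (n * Real.log n) ≤ d := by
  by_contra hcon
  rw [not_le] at hcon
  have hn0 : (0:ℝ) < n := by
    have : (2:ℝ) ≤ n := by exact_mod_cast hn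
    linarith
  have hn1 : (1:ℝ) ≤ n := by
    have : (2:ℝ) ≤ n := by exact_mod_cast hn
    linarith
  have hlog : 0 ≤ Real.log n := Real.log_nonneg hn1
  have hxpos : 0 < x := by rw [hx]; positivity
  have hx1 : 1 ≤ x := by rw [hx]; exact Real.one_le_rpow hn1 (by norm_num)
  have hx16 : (n:ℝ) = x ^ 16 := by
    rw [hx, ← Real.rpow_natCast, ← Real.rpow_mul hn0.le]
    norm_num
  have hx2 : (n:ℝ) ^ (1/8 : ℝ) = x ^ 2 := by
    rw [hx, ← Real.rpow_natCast, ← Real.rpow_mul hn0.le]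
    norm_num
  have hlog8 : Real.log n ≤ 8 * x ^ 2 := by
    have := Real.log_le_rpow_div hn0.le (show (0:ℝ) < 1/8 by norm_num)
    rw [hx2] at this
    linarith
  have hd0 : (0:ℝ) ≤ d := Nat.cast_nonneg d
  have hd2 : (d:ℝ) ^ 2 ≤ n * Real.log n / 4096 := by
    have h1 : (d:ℝ) ^ 2 ≤ ((1/64 : ℝ) * Real.sqrt (n * Real.log n)) ^ 2 :=
      pow_le_pow_left₀ hd0 hcon.le 2
    rw [mul_pow, Real.sq_sqrt (by positivity)] at h1
    linarith
  have hd2' : (d:ℝ) ^ 2 ≤ x ^ 18 / 512 := by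
    calc (d:ℝ) ^ 2 ≤ n * Real.log n / 4096 := hd2
      _ ≤ n * (8 * x ^ 2) / 4096 := by gcongr
      _ = x ^ 18 / 512 := by rw [hx16]; ring
  have hd1 : (d:ℝ) ≤ x ^ 9 / 22 := by
    have h1 : (d:ℝ) ^ 2 ≤ (x ^ 9 / 22) ^ 2 := by
      calc (d:ℝ) ^ 2 ≤ x ^ 18 / 512 := hd2'
        _ ≤ x ^ 18 / 484 := by
          apply div_le_div_of_nonneg_left (by positivity) (by norm_num) (by norm_num)
        _ = (x ^ 9 / 22) ^ 2 := by ring
    exact le_of_sq_le_sq h1 (by positivity)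
  have hd3 : (d:ℝ) ^ 3 ≤ x ^ 27 / 11264 := by
    calc (d:ℝ) ^ 3 = (d:ℝ) ^ 2 * d := by ring
      _ ≤ (x ^ 18 / 512) * (x ^ 9 / 22) := mul_le_mul hd2' hd1 hd0 (by positivity)
      _ = x ^ 27 / 11264 := by ring
  have hexp : Real.exp (512 * (d:ℝ)^2/n) ≤ x ^ 2 := by
    rw [← hx2]
    rw [Real.rpow_def_of_pos hn0]
    apply Real.exp_le_exp.mpr
    rw [div_le_iff₀ hn0]
    nlinarith
  have hfin : (3 / 16384 : ℝ) * x ^ 64 ≤ x ^ 2 * (2 * x ^ 48 + 256 * x ^ 32 * (x ^ 27 / 11264)) := by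
    calc (3 / 16384 : ℝ) * x ^ 64 = (3 / 16384 : ℝ) * (n:ℝ)^4 := by rw [hx16]; ring
      _ ≤ Real.exp (512 * (d:ℝ)^2/n) * (2*(n:ℝ)^3 + 256*(n:ℝ)^2*(d:ℝ)^3) := h
      _ ≤ x ^ 2 * (2*(n:ℝ)^3 + 256*(n:ℝ)^2*(x ^ 27 / 11264)) := by
          gcongr
      _ = _ := by rw [hx16]; ring
  have hx50 : x ^ 50 ≤ x ^ 61 := pow_le_pow_right₀ hx1 (by norm_num)
  have h61 : 0 < x ^ 61 := by positivity
  have : (3 / 16384 : ℝ) * x ^ 3 * x ^ 61 ≤ 3 * x ^ 61 := by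
    calc (3 / 16384 : ℝ) * x ^ 3 * x ^ 61 = (3 / 16384 : ℝ) * x ^ 64 := by ring
      _ ≤ x ^ 2 * (2 * x ^ 48 + 256 * x ^ 32 * (x ^ 27 / 11264)) := hfin
      _ = 2 * x ^ 50 + (256/11264) * x ^ 61 := by ring
      _ ≤ 2 * x ^ 61 + (256/11264) * x ^ 61 := by linarith
      _ ≤ 3 * x ^ 61 := by nlinarith
  have h3 := le_of_mul_le_mul_right this h61
  linarith

lemma exists_const_lower : ∃ c : ℝ, 0 < c ∧ ∀ n d : ℕ, 2 ≤ n → 1 ≤ d →
    ((3 / 16384 : ℝ) * (n:ℝ)^4 ≤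
      Real.exp (512 * (d:ℝ)^2/n) * (2*(n:ℝ)^3 + 256*(n:ℝ)^2*(d:ℝ)^3)) →
    c * Real.sqrt (n * Real.log n) ≤ d := by
  -- beyond `N` we have `20000 < x ^ 3`
  have hev : ∀ᶠ n : ℕ in Filter.atTop, 20000 < (((n:ℝ) ^ (1/16 : ℝ)) ^ 3) := by
    have h1 : Filter.Tendsto (fun n : ℕ => (n:ℝ) ^ (3/16 : ℝ)) Filter.atTop Filter.atTop :=
      (tendsto_rpow_atTop (by norm_num)).comp tendsto_natCast_atTop_atTop
    have h2 := h1.eventually_gt_atTop 20000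
    filter_upwards [h2] with n hn
    rw [← Real.rpow_natCast, ← Real.rpow_mul (Nat.cast_nonneg n)]
    norm_num at hn ⊢
    exact hn
  obtain ⟨N, hN⟩ := Filter.eventually_atTop.mp hev
  refine ⟨min (1/64) (1 / (N + 1)), by positivity, ?_⟩
  intro n d hn hd h
  rcases le_or_gt N n with hle | hlt
  · calc min (1/64) (1 / ((N:ℝ) + 1)) * Real.sqrt (n * Real.log n) ≤
        (1/64) * Real.sqrt (n * Real.log n) := by
          gcongr
          exact min_le_left _ _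
      _ ≤ d := analytic_large hn _ rfl (hN n hle) h
  · have hn1 : (1:ℝ) ≤ n := by
      have : (2:ℝ) ≤ n := by exact_mod_cast hn
      linarith
    have hlogn : Real.log n ≤ n := by
      have := Real.log_le_sub_one_of_pos (show (0:ℝ) < n by linarith)
      linarith
    have hs : Real.sqrt (n * Real.log n) ≤ n := by
      rw [show (n:ℝ) * Real.log n = n * Real.log n from rfl]
      calc Real.sqrt (n * Real.log n) ≤ Real.sqrt (n * n) := by
            apply Real.sqrt_le_sqrt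
            gcongr
        _ = n := Real.sqrt_mul_self (by linarith)
    have hd' : (1:ℝ) ≤ d := by exact_mod_cast hd
    have hnN : (n:ℝ) ≤ N + 1 := by
      have : (n:ℝ) < N := by exact_mod_cast hlt
      linarith
    calc min (1/64) (1 / ((N:ℝ) + 1)) * Real.sqrt (n * Real.log n) ≤
        (1 / ((N:ℝ) + 1)) * (N + 1) := by
          apply mul_le_mul (min_le_right _ _) (by linarith) (Real.sqrt_nonneg _) (by positivity)
      _ = 1 := by field_simp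
      _ ≤ d := hd'

end Pool.Agent.Lib_helper23.VanLint
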