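import Mathlib

open Finset

namespace Pool.Agent.Lib_helper23.VanLint

set_option linter.unusedSectionVars false

section Prob

variable {B : Type*} [Fintype B] [DecidableEq B]

/-- weight of `T` when each `b` is put in `T` independently with probability `p b` -/
noncomputable def wt (p : B → ℝ) (T : Finset B) : ℝ :=
  (∏ b ∈ T, p b) * ∏ b ∈ Tᶜ, (1 - p b)

/-- expectation of `F T` for the random set `T` -/
noncomputable def Ex (p : B → ℝ) (F : Finset B → ℝ) : ℝ := ∑ T : Finset B, wt p T * F T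

/-- indicator of `S ⊆ T` -/
noncomputable def ind (S T : Finset B) : ℝ := if S ⊆ T then 1 else 0

lemma wt_nonneg (p : B → ℝ) (h0 : ∀ b, 0 ≤ p b) (h1 : ∀ b, p b ≤ 1) (T : Finset B) :
    0 ≤ wt p T := by
  unfold wt
  apply mul_nonneg
  · exact Finset.prod_nonneg fun b _ => h0 b
  · exact Finset.prod_nonneg fun b _ => by linarith [h1 b]

lemma Ex_ind (p : B → ℝ) (S : Finset B) : Ex p (ind S) = ∏ b ∈ S, p b := by
  have h := Finset.prod_add p (fun b => if b ∈ S then 0 else 1 - p b) (univ : Finset B)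
  have h1 : ∏ b : B, (p b + if b ∈ S then 0 else 1 - p b) = ∏ b ∈ S, p b := by
    rw [← Finset.prod_subset (Finset.subset_univ S)]
    · apply Finset.prod_congr rfl
      intro b hb
      simp [hb]
    · intro b _ hb
      simp [hb]
  rw [← h1, h, Finset.powerset_univ]
  unfold Ex
  apply Finset.sum_congr rfl
  intro T _
  unfold wt ind
  rw [← Finset.compl_eq_univ_sdiff, mul_assoc]
  congr 1
  by_cases hST : S ⊆ T
  · rw [if_pos hST, mul_one]
    apply Finset.prod_congr rfl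
    intro b hb
    rw [if_neg]
    intro hbS
    exact (Finset.mem_compl.mp hb) (hST hbS)
  · rw [if_neg hST, mul_zero]
    symm
    obtain ⟨b, hbS, hbT⟩ := Finset.not_subset.mp hST
    exact Finset.prod_eq_zero (Finset.mem_compl.mpr hbT) (by simp [hbS])

lemma ind_mul (S S' T : Finset B) : ind S T * ind S' T = ind (S ∪ S') T := by
  unfold ind
  by_cases h : S ⊆ T <;> by_cases h' : S' ⊆ T <;> simp [h, h', Finset.union_subset_iff]

lemma ind_empty (T : Finset B) : ind (∅ : Finset B) T = 1 := by simp [ind]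

lemma Ex_add (p : B → ℝ) (F G : Finset B → ℝ) :
    Ex p (fun T => F T + G T) = Ex p F + Ex p G := by
  unfold Ex
  rw [← Finset.sum_add_distrib]
  apply Finset.sum_congr rfl
  intro T _
  ring

lemma Ex_smul (p : B → ℝ) (c : ℝ) (F : Finset B → ℝ) :
    Ex p (fun T => c * F T) = c * Ex p F := by
  unfold Ex
  rw [Finset.mul_sum]
  apply Finset.sum_congr rfl
  intro T _
  ring

lemma Ex_sum {ι : Type*} (p : B → ℝ) (s : Finset ι) (F : ι → Finset B → ℝ) :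
    Ex p (fun T => ∑ i ∈ s, F i T) = ∑ i ∈ s, Ex p (F i) := by
  unfold Ex
  rw [Finset.sum_comm]
  apply Finset.sum_congr rfl
  intro T _
  rw [Finset.mul_sum]

lemma Ex_mono (p : B → ℝ) (h0 : ∀ b, 0 ≤ p b) (h1 : ∀ b, p b ≤ 1) {F G : Finset B → ℝ}
    (h : ∀ T, F T ≤ G T) : Ex p F ≤ Ex p G := by
  unfold Ex
  apply Finset.sum_le_sum
  intro T _
  exact mul_le_mul_of_nonneg_left (h T) (wt_nonneg p h0 h1 T)

lemma Ex_one (p : B → ℝ) : Ex p (fun _ => 1) = 1 := by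
  have h := Ex_ind p (∅ : Finset B)
  have h2 : ind (∅ : Finset B) = fun _ => 1 := by
    funext T
    exact ind_empty T
  rw [h2] at h
  simpa using h

lemma Ex_const (p : B → ℝ) (c : ℝ) : Ex p (fun _ => c) = c := by
  have := Ex_smul p c (fun _ => 1)
  simpa [Ex_one] using this

lemma Ex_card (p : B → ℝ) : Ex p (fun T => (#T : ℝ)) = ∑ b, p b := by
  have h : ∀ T : Finset B, (#T : ℝ) = ∑ b : B, ind {b} T := by
    intro T
    unfold ind
    simp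
  have h2 : (fun T : Finset B => (#T : ℝ)) = fun T => ∑ b : B, ind {b} T := funext h
  rw [h2, Ex_sum]
  apply Finset.sum_congr rfl
  intro b _
  rw [Ex_ind]
  simp

/-- The key vanishing: if `S₁` meets `S'` only where `p = 1` then the centred indicator of
`S₁` is uncorrelated with the indicator of `S'`. -/
lemma Ex_centred (p : B → ℝ) (S₁ S' : Finset B) (hpos : ∏ b ∈ S₁, p b ≠ 0)
    (h : ∀ b ∈ S₁, b ∈ S' → p b = 1) :
    Ex p (fun T => ((∏ b ∈ S₁, p b)⁻¹ * ind S₁ T - 1) * ind S' T) = 0 := by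
  have e1 : (fun T => ((∏ b ∈ S₁, p b)⁻¹ * ind S₁ T - 1) * ind S' T)
      = fun T => (∏ b ∈ S₁, p b)⁻¹ * ind (S₁ ∪ S') T + (-1) * ind S' T := by
    funext T
    rw [← ind_mul]
    ring
  rw [e1, Ex_add, Ex_smul, Ex_smul]
  have e2 : Ex p (fun T => ind (S₁ ∪ S') T) = (∏ b ∈ S₁, p b) * ∏ b ∈ S', p b := by
    rw [show (fun T => ind (S₁ ∪ S') T) = ind (S₁ ∪ S') from rfl, Ex_ind]
    rw [← Finset.prod_union_inter]
    rw [show ∏ b ∈ S₁ ∩ S', p b = 1 from Finset.prod_eq_one (by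
      intro b hb
      rw [Finset.mem_inter] at hb
      exact h b hb.1 hb.2)]
    ring
  have e3 : Ex p (fun T => ind S' T) = ∏ b ∈ S', p b := Ex_ind p S'
  rw [e2, e3]
  field_simp
  ring

lemma Ex_four (p : B → ℝ) (S₁ S₂ S₃ S₄ : Finset B) (hpos : ∏ b ∈ S₁, p b ≠ 0) (c₂ c₃ c₄ : ℝ)
    (h2 : ∀ b ∈ S₁, b ∈ S₂ → p b = 1) (h3 : ∀ b ∈ S₁, b ∈ S₃ → p b = 1)
    (h4 : ∀ b ∈ S₁, b ∈ S₄ → p b = 1) :
    Ex p (fun T => ((∏ b ∈ S₁, p b)⁻¹ * ind S₁ T - 1) * (c₂ * ind S₂ T - 1) *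
      (c₃ * ind S₃ T - 1) * (c₄ * ind S₄ T - 1)) = 0 := by
  have key : ∀ S' : Finset B, (∀ b ∈ S₁, b ∈ S' → p b = 1) →
      Ex p (fun T => ((∏ b ∈ S₁, p b)⁻¹ * ind S₁ T - 1) * ind S' T) = 0 :=
    fun S' h' => Ex_centred p S₁ S' hpos h'
  have e : (fun T => ((∏ b ∈ S₁, p b)⁻¹ * ind S₁ T - 1) * (c₂ * ind S₂ T - 1) *
      (c₃ * ind S₃ T - 1) * (c₄ * ind S₄ T - 1)) =
      fun T => (c₂ * c₃ * c₄) * (((∏ b ∈ S₁, p b)⁻¹ * ind S₁ T - 1) * ind (S₂ ∪ S₃ ∪ S₄) T)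
        + ((-(c₂ * c₃)) * (((∏ b ∈ S₁, p b)⁻¹ * ind S₁ T - 1) * ind (S₂ ∪ S₃) T)
        + ((-(c₂ * c₄)) * (((∏ b ∈ S₁, p b)⁻¹ * ind S₁ T - 1) * ind (S₂ ∪ S₄) T)
        + ((-(c₃ * c₄)) * (((∏ b ∈ S₁, p b)⁻¹ * ind S₁ T - 1) * ind (S₃ ∪ S₄) T)
        + (c₂ * (((∏ b ∈ S₁, p b)⁻¹ * ind S₁ T - 1) * ind S₂ T)
        + (c₃ * (((∏ b ∈ S₁, p b)⁻¹ * ind S₁ T - 1) * ind S₃ T)
        + (c₄ * (((∏ b ∈ S₁, p b)⁻¹ * ind S₁ T - 1) * ind S₄ T)
        + (-1) * (((∏ b ∈ S₁, p b)⁻¹ * ind S₁ T - 1) * ind ∅ T))))))) := by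
    funext T
    rw [← ind_mul (S₂ ∪ S₃) S₄, ← ind_mul S₂ S₃, ← ind_mul S₂ S₄, ← ind_mul S₃ S₄, ind_empty]
    ring
  rw [e]
  simp only [Ex_add, Ex_smul]
  rw [key, key, key, key, key, key, key, key]
  · ring
  · simp
  · exact h4
  · exact h3
  · exact h2
  all_goals
    intro b hb hb'
    simp only [Finset.mem_union] at hb'
    tauto

end Prob

end Pool.Agent.Lib_helper23.VanLint
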