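import Mathlib
import Pool.Agent.Lib_helper23.VLProb

open Finset

namespace Pool.Agent.Lib_helper23.VanLint

set_option linter.unusedSectionVars false

/-- Cauchy-Schwarz twice. -/
lemma cs_four (n : ℕ) (X Y : Finset (Fin n)) (g : Fin n → Fin n → ℝ) :
    (∑ x ∈ X, ∑ y ∈ Y, g x y) ^ 4 ≤
      (n : ℝ) ^ 4 * ∑ x, ∑ x', ∑ y, ∑ y', g x y * g x y' * g x' y * g x' y' := by
  have hX : ((#X : ℕ) : ℝ) ≤ n := by
    have := Finset.card_le_univ X
    simp only [Fintype.card_fin] at this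
    exact_mod_cast this
  have hYY : ((#(Y ×ˢ Y) : ℕ) : ℝ) ≤ (n : ℝ) ^ 2 := by
    have h1 := Finset.card_le_univ Y
    simp only [Fintype.card_fin] at h1
    rw [Finset.card_product]
    push_cast
    have : ((#Y : ℕ) : ℝ) ≤ n := by exact_mod_cast h1
    nlinarith [Nat.cast_nonneg (α := ℝ) (#Y)]
  set h : Fin n → ℝ := fun x => ∑ y ∈ Y, g x y with hh
  set K : Fin n → Fin n → ℝ := fun y y' => ∑ x, g x y * g x y' with hK
  have s1 : (∑ x ∈ X, h x) ^ 2 ≤ n * ∑ x, h x ^ 2 := by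
    calc (∑ x ∈ X, h x) ^ 2 ≤ #X * ∑ x ∈ X, h x ^ 2 := sq_sum_le_card_mul_sum_sq
      _ ≤ n * ∑ x ∈ X, h x ^ 2 :=
        mul_le_mul_of_nonneg_right hX (Finset.sum_nonneg fun _ _ => sq_nonneg _)
      _ ≤ n * ∑ x, h x ^ 2 := by
        apply mul_le_mul_of_nonneg_left _ (Nat.cast_nonneg n)
        exact Finset.sum_le_sum_of_subset_of_nonneg (Finset.subset_univ X)
          fun _ _ _ => sq_nonneg _
  have s2 : ∑ x, h x ^ 2 = ∑ q ∈ Y ×ˢ Y, K q.1 q.2 := by
    rw [Finset.sum_comm]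
    apply Finset.sum_congr rfl
    intro x _
    rw [hh]
    simp only
    rw [sq, Finset.sum_mul_sum, Finset.sum_product]
  have s3 : (∑ q ∈ Y ×ˢ Y, K q.1 q.2) ^ 2 ≤ (n : ℝ) ^ 2 * ∑ y, ∑ y', K y y' ^ 2 := by
    calc (∑ q ∈ Y ×ˢ Y, K q.1 q.2) ^ 2 ≤ #(Y ×ˢ Y) * ∑ q ∈ Y ×ˢ Y, K q.1 q.2 ^ 2 :=
          sq_sum_le_card_mul_sum_sq
      _ ≤ (n : ℝ) ^ 2 * ∑ q ∈ Y ×ˢ Y, K q.1 q.2 ^ 2 :=
        mul_le_mul_of_nonneg_right hYY (Finset.sum_nonneg fun _ _ => sq_nonneg _)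
      _ ≤ (n : ℝ) ^ 2 * ∑ q : Fin n × Fin n, K q.1 q.2 ^ 2 := by
        apply mul_le_mul_of_nonneg_left _ (by positivity)
        exact Finset.sum_le_sum_of_subset_of_nonneg (Finset.subset_univ _)
          fun _ _ _ => sq_nonneg _
      _ = (n : ℝ) ^ 2 * ∑ y, ∑ y', K y y' ^ 2 := by
        rw [Fintype.sum_prod_type]
  have s4 : ∑ y, ∑ y', K y y' ^ 2 =
      ∑ x, ∑ x', ∑ y, ∑ y', g x y * g x y' * g x' y * g x' y' := by
    have e1 : ∀ y y', K y y' ^ 2 = ∑ x, ∑ x', g x y * g x y' * g x' y * g x' y' := by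
      intro y y'
      rw [hK]
      simp only
      rw [sq, Finset.sum_mul_sum]
      apply Finset.sum_congr rfl
      intro x _
      apply Finset.sum_congr rfl
      intro x' _
      ring
    simp_rw [e1]
    calc ∑ y, ∑ y', ∑ x, ∑ x', g x y * g x y' * g x' y * g x' y'
        = ∑ y, ∑ x, ∑ y', ∑ x', g x y * g x y' * g x' y * g x' y' := by
          apply Finset.sum_congr rfl
          intro y _
          rw [Finset.sum_comm]
      _ = ∑ x, ∑ y, ∑ y', ∑ x', g x y * g x y' * g x' y * g x' y' := Finset.sum_comm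
      _ = ∑ x, ∑ y, ∑ x', ∑ y', g x y * g x y' * g x' y * g x' y' := by
          apply Finset.sum_congr rfl
          intro x _
          apply Finset.sum_congr rfl
          intro y _
          rw [Finset.sum_comm]
      _ = ∑ x, ∑ x', ∑ y, ∑ y', g x y * g x y' * g x' y * g x' y' := by
          apply Finset.sum_congr rfl
          intro x _
          rw [Finset.sum_comm]
  have s5 : (∑ x ∈ X, h x) ^ 4 ≤ (n : ℝ) ^ 2 * (∑ x, h x ^ 2) ^ 2 := by
    have h0 : 0 ≤ (∑ x ∈ X, h x) ^ 2 := sq_nonneg _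
    have := pow_le_pow_left₀ h0 s1 2
    calc (∑ x ∈ X, h x) ^ 4 = ((∑ x ∈ X, h x) ^ 2) ^ 2 := by ring
      _ ≤ (n * ∑ x, h x ^ 2) ^ 2 := this
      _ = _ := by ring
  calc (∑ x ∈ X, h x) ^ 4 ≤ (n : ℝ) ^ 2 * (∑ x, h x ^ 2) ^ 2 := s5
    _ = (n : ℝ) ^ 2 * (∑ q ∈ Y ×ˢ Y, K q.1 q.2) ^ 2 := by rw [s2]
    _ ≤ (n : ℝ) ^ 2 * ((n : ℝ) ^ 2 * ∑ y, ∑ y', K y y' ^ 2) :=
        mul_le_mul_of_nonneg_left s3 (by positivity)
    _ = (n : ℝ) ^ 4 * ∑ x, ∑ x', ∑ y, ∑ y', g x y * g x y' * g x' y * g x' y' := by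
        rw [s4]; ring

section Core

variable {B : Type*} [Fintype B] [DecidableEq B]

/-- From Hall-type hypothesis: for a small set `T` there are large `X`, `Y` with no pair
`(x, y)` all of whose common neighbours are in `T`. -/
lemma exists_XY {n : ℕ} (N₁ N₂ : Fin n → Finset B)
    (H : ∀ σ : Equiv.Perm (Fin n), ∃ f : Fin n → B, Function.Injective f ∧
      ∀ x, f x ∈ N₁ x ∧ f x ∈ N₂ (σ x)) (T : Finset B) :
    ∃ X Y : Finset (Fin n), n ≤ #X + #T ∧ n ≤ #Y + #T ∧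
      ∀ x ∈ X, ∀ y ∈ Y, ¬ (N₁ x ∩ N₂ y ⊆ T) := by
  classical
  obtain ⟨σ, -, hσ⟩ := Finset.exists_max_image (univ : Finset (Equiv.Perm (Fin n)))
    (fun σ => #{x | N₁ x ∩ N₂ (σ x) ⊆ T}) ⟨1, mem_univ _⟩
  set K : Finset (Fin n) := {x | N₁ x ∩ N₂ (σ x) ⊆ T} with hK
  obtain ⟨f, hf, hf2⟩ := H σ
  have hKT : #K ≤ #T := by
    apply Finset.card_le_card_of_injOn f
    · intro x hx
      have hx' : N₁ x ∩ N₂ (σ x) ⊆ T := by
        have := hx
        rw [hK] at this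
        simpa using this
      exact hx' (Finset.mem_inter.mpr (hf2 x))
    · exact hf.injOn
  have hKc : #K + #Kᶜ = n := by
    simp
  refine ⟨Kᶜ, Kᶜ.map σ.toEmbedding, by omega, by rw [Finset.card_map]; omega, ?_⟩
  intro x hx y hy hxy
  rw [Finset.mem_map] at hy
  obtain ⟨x', hx', rfl⟩ := hy
  have hxK : x ∉ K := Finset.mem_compl.mp hx
  have hxK' : x' ∉ K := Finset.mem_compl.mp hx'
  have hσ' := hσ (σ * Equiv.swap x x') (mem_univ _)
  have hsub : insert x K ⊆ ({z | N₁ z ∩ N₂ ((σ * Equiv.swap x x') z) ⊆ T} : Finset (Fin n)) := by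
    intro z hz
    rw [Finset.mem_insert] at hz
    rw [Finset.mem_filter]
    refine ⟨mem_univ _, ?_⟩
    rw [Equiv.Perm.mul_apply]
    rcases hz with rfl | hz
    · rw [Equiv.swap_apply_left]
      exact hxy
    · have hzx : z ≠ x := fun h => hxK (h ▸ hz)
      have hzx' : z ≠ x' := fun h => hxK' (h ▸ hz)
      rw [Equiv.swap_apply_of_ne_of_ne hzx hzx']
      rw [hK] at hz
      simpa using hz
  have hc := Finset.card_le_card hsub
  rw [Finset.card_insert_of_notMem hxK] at hc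
  omega

/-- indicator of membership -/
noncomputable def mem01 (N : Finset B) (b : B) : ℝ := if b ∈ N then 1 else 0

lemma mem01_nonneg (N : Finset B) (b : B) : 0 ≤ mem01 N b := by
  unfold mem01; split_ifs <;> norm_num

lemma mem01_le_one (N : Finset B) (b : B) : mem01 N b ≤ 1 := by
  unfold mem01; split_ifs <;> norm_num

/-- degree of `b` into one side -/
noncomputable def dg {n : ℕ} (N : Fin n → Finset B) (b : B) : ℝ := ∑ x, mem01 (N x) b

lemma dg_nonneg {n : ℕ} (N : Fin n → Finset B) (b : B) : 0 ≤ dg N b :=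
  Finset.sum_nonneg fun _ _ => mem01_nonneg _ _

lemma one_le_dg {n : ℕ} (N : Fin n → Finset B) (b : B) (x : Fin n) (h : b ∈ N x) :
    1 ≤ dg N b := by
  have h1 : mem01 (N x) b = 1 := by simp [mem01, h]
  rw [← h1]
  exact Finset.single_le_sum (f := fun x => mem01 (N x) b) (fun _ _ => mem01_nonneg _ _)
    (Finset.mem_univ x)

lemma sum_dg {n : ℕ} (N : Fin n → Finset B) : ∑ b, dg N b = ∑ x, (#(N x) : ℝ) := by
  unfold dg
  rw [Finset.sum_comm]
  apply Finset.sum_congr rfl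
  intro x _
  simp [mem01]

lemma sum_dg_le {n d : ℕ} (N : Fin n → Finset B) (h : ∀ x, #(N x) ≤ d) :
    ∑ b, dg N b ≤ n * d := by
  rw [sum_dg]
  calc ∑ x, (#(N x) : ℝ) ≤ ∑ _x : Fin n, (d : ℝ) :=
        Finset.sum_le_sum fun x _ => by exact_mod_cast h x
    _ = n * d := by simp

/-- weight of a pair -/
noncomputable def pw {n : ℕ} (N₁ N₂ : Fin n → Finset B) (s : ℝ) (x y : Fin n) : ℝ :=
  ∑ b ∈ N₁ x ∩ N₂ y, s / (dg N₁ b + dg N₂ b)

lemma pw_nonneg {n : ℕ} (N₁ N₂ : Fin n → Finset B) {s : ℝ} (hs : 0 ≤ s) (x y : Fin n) :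
    0 ≤ pw N₁ N₂ s x y :=
  Finset.sum_nonneg fun b _ => div_nonneg hs (add_nonneg (dg_nonneg _ _) (dg_nonneg _ _))

lemma sum_pw {n d : ℕ} (N₁ N₂ : Fin n → Finset B) (h₁ : ∀ x, #(N₁ x) ≤ d) {s : ℝ}
    (hs : 0 ≤ s) : ∑ x, ∑ y, pw N₁ N₂ s x y ≤ s * (n * d) := by
  have e1 : ∀ x y, pw N₁ N₂ s x y =
      ∑ b, mem01 (N₁ x) b * mem01 (N₂ y) b * (s / (dg N₁ b + dg N₂ b)) := by
    intro x y
    unfold pw
    rw [← Finset.sum_subset (Finset.subset_univ (N₁ x ∩ N₂ y))]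
    · apply Finset.sum_congr rfl
      intro b hb
      rw [Finset.mem_inter] at hb
      simp [mem01, hb.1, hb.2]
    · intro b _ hb
      rw [Finset.mem_inter, not_and_or] at hb
      rcases hb with hb | hb <;> simp [mem01, hb]
  have e2 : ∑ x, ∑ y, pw N₁ N₂ s x y = ∑ b, dg N₁ b * dg N₂ b * (s / (dg N₁ b + dg N₂ b)) := by
    simp_rw [e1]
    calc ∑ x, ∑ y, ∑ b, mem01 (N₁ x) b * mem01 (N₂ y) b * (s / (dg N₁ b + dg N₂ b))
        = ∑ x, ∑ b, ∑ y, mem01 (N₁ x) b * mem01 (N₂ y) b * (s / (dg N₁ b + dg N₂ b)) := by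
          apply Finset.sum_congr rfl
          intro x _
          rw [Finset.sum_comm]
      _ = ∑ b, ∑ x, ∑ y, mem01 (N₁ x) b * mem01 (N₂ y) b * (s / (dg N₁ b + dg N₂ b)) :=
          Finset.sum_comm
      _ = _ := by
          apply Finset.sum_congr rfl
          intro b _
          rw [dg, dg, Finset.sum_mul_sum, Finset.sum_mul]
          apply Finset.sum_congr rfl
          intro x _
          rw [Finset.sum_mul]
  rw [e2]
  calc ∑ b, dg N₁ b * dg N₂ b * (s / (dg N₁ b + dg N₂ b)) ≤ ∑ b, s * dg N₁ b := by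
        apply Finset.sum_le_sum
        intro b _
        have a1 := dg_nonneg N₁ b
        have a2 := dg_nonneg N₂ b
        rcases eq_or_lt_of_le (add_nonneg a1 a2) with h0 | h0
        · rw [← h0]
          simp
          positivity
        · rw [mul_div_assoc', div_le_iff₀ h0]
          nlinarith [mul_nonneg hs a1, mul_nonneg (mul_nonneg hs a1) a1]
    _ = s * ∑ b, dg N₁ b := by rw [Finset.mul_sum]
    _ ≤ s * (n * d) := mul_le_mul_of_nonneg_left (sum_dg_le N₁ h₁) hs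

/-- the probability of `b` -/
noncomputable def pb {n : ℕ} (N₁ N₂ : Fin n → Finset B) (s : ℝ) (b : B) : ℝ :=
  min 1 ((dg N₁ b + dg N₂ b) / s)

lemma pb_nonneg {n : ℕ} (N₁ N₂ : Fin n → Finset B) {s : ℝ} (hs : 0 < s) (b : B) :
    0 ≤ pb N₁ N₂ s b :=
  le_min zero_le_one (div_nonneg (add_nonneg (dg_nonneg _ _) (dg_nonneg _ _)) hs.le)

lemma pb_le_one {n : ℕ} (N₁ N₂ : Fin n → Finset B) (s : ℝ) (b : B) :
    pb N₁ N₂ s b ≤ 1 := min_le_left _ _

lemma pb_pos {n : ℕ} (N₁ N₂ : Fin n → Finset B) {s : ℝ} (hs : 0 < s) (b : B) (x : Fin n)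
    (h : b ∈ N₁ x) : 0 < pb N₁ N₂ s b := by
  have := one_le_dg N₁ b x h
  have h2 := dg_nonneg N₂ b
  exact lt_min zero_lt_one (div_pos (by linarith) hs)

lemma inv_pb_le {n : ℕ} (N₁ N₂ : Fin n → Finset B) {s : ℝ} (hs : 0 < s) (b : B) (x : Fin n)
    (h : b ∈ N₁ x) : (pb N₁ N₂ s b)⁻¹ ≤ Real.exp (s / (dg N₁ b + dg N₂ b)) := by
  have h1 := one_le_dg N₁ b x h
  have h2 := dg_nonneg N₂ b
  have hD : 0 < dg N₁ b + dg N₂ b := by linarith
  unfold pb
  rcases le_total 1 ((dg N₁ b + dg N₂ b) / s) with hc | hc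
  · rw [min_eq_left hc, inv_one]
    exact Real.one_le_exp (div_nonneg hs.le hD.le)
  · rw [min_eq_right hc, inv_div]
    have := Real.add_one_le_exp (s / (dg N₁ b + dg N₂ b))
    linarith

lemma inv_prod_le {n : ℕ} (N₁ N₂ : Fin n → Finset B) {s : ℝ} (hs : 0 < s) (x y : Fin n) :
    (∏ b ∈ N₁ x ∩ N₂ y, pb N₁ N₂ s b)⁻¹ ≤ Real.exp (pw N₁ N₂ s x y) := by
  rw [← Finset.prod_inv_distrib, pw, Real.exp_sum]
  apply Finset.prod_le_prod
  · intro b _
    exact inv_nonneg.mpr (pb_nonneg N₁ N₂ hs b)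
  · intro b hb
    exact inv_pb_le N₁ N₂ hs b x (Finset.mem_inter.mp hb).1

lemma prod_pb_pos {n : ℕ} (N₁ N₂ : Fin n → Finset B) {s : ℝ} (hs : 0 < s) (x y : Fin n) :
    0 < ∏ b ∈ N₁ x ∩ N₂ y, pb N₁ N₂ s b :=
  Finset.prod_pos fun b hb => pb_pos N₁ N₂ hs b x (Finset.mem_inter.mp hb).1

/-- centred and truncated normalised indicator -/
noncomputable def gg {n : ℕ} (N₁ N₂ : Fin n → Finset B) (s W : ℝ) (T : Finset B)
    (x y : Fin n) : ℝ :=
  if pw N₁ N₂ s x y ≤ W then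
    (∏ b ∈ N₁ x ∩ N₂ y, pb N₁ N₂ s b)⁻¹ * ind (N₁ x ∩ N₂ y) T - 1 else 0

lemma abs_gg_le {n : ℕ} (N₁ N₂ : Fin n → Finset B) {s W : ℝ} (hs : 0 < s) (hW : 0 ≤ W)
    (T : Finset B) (x y : Fin n) : |gg N₁ N₂ s W T x y| ≤ Real.exp W := by
  unfold gg
  have h1 : 1 ≤ Real.exp W := Real.one_le_exp hW
  split_ifs with h
  · have hP := prod_pb_pos N₁ N₂ hs x y
    have hI := inv_prod_le N₁ N₂ hs x y
    have hE : Real.exp (pw N₁ N₂ s x y) ≤ Real.exp W := Real.exp_le_exp.mpr h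
    have hi := inv_pos.mpr hP
    unfold ind
    split_ifs
    · rw [mul_one, abs_le]
      constructor <;> linarith
    · rw [mul_zero, zero_sub, abs_neg, abs_one]
      exact h1
  · rw [abs_zero]
    exact (Real.exp_pos W).le

/-- the dependency indicator -/
noncomputable def depInd {n : ℕ} (N₁ N₂ : Fin n → Finset B) (s : ℝ) (x x' y y' : Fin n) : ℝ :=
  (if x = x' then 1 else 0) + (if y = y' then 1 else 0) +
  ∑ b, if dg N₁ b + dg N₂ b < s then
    (mem01 (N₁ x) b * mem01 (N₂ y) b * mem01 (N₂ y') b +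
      mem01 (N₁ x) b * mem01 (N₁ x') b * mem01 (N₂ y) b) else 0

lemma pb_eq_one {n : ℕ} (N₁ N₂ : Fin n → Finset B) {s : ℝ} (hs : 0 < s) (b : B)
    (h : s ≤ dg N₁ b + dg N₂ b) : pb N₁ N₂ s b = 1 := by
  unfold pb
  apply min_eq_left
  rw [le_div_iff₀ hs]
  linarith

lemma Ex_gg_le {n : ℕ} (N₁ N₂ : Fin n → Finset B) {s W : ℝ} (hs : 0 < s) (hW : 0 ≤ W)
    (x x' y y' : Fin n) :
    Ex (pb N₁ N₂ s) (fun T => gg N₁ N₂ s W T x y * gg N₁ N₂ s W T x y' *
      gg N₁ N₂ s W T x' y * gg N₁ N₂ s W T x' y') ≤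
      Real.exp (4 * W) * depInd N₁ N₂ s x x' y y' := by
  have hterm : ∀ b : B, 0 ≤ (if dg N₁ b + dg N₂ b < s then
    (mem01 (N₁ x) b * mem01 (N₂ y) b * mem01 (N₂ y') b +
      mem01 (N₁ x) b * mem01 (N₁ x') b * mem01 (N₂ y) b) else 0) := by
    intro b
    have q1 := mem01_nonneg (N₁ x) b
    have q2 := mem01_nonneg (N₂ y) b
    have q3 := mem01_nonneg (N₂ y') b
    have q4 := mem01_nonneg (N₁ x') b
    split_ifs
    · positivity
    · exact le_refl _
  have hsum : 0 ≤ ∑ b, (if dg N₁ b + dg N₂ b < s then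
    (mem01 (N₁ x) b * mem01 (N₂ y) b * mem01 (N₂ y') b +
      mem01 (N₁ x) b * mem01 (N₁ x') b * mem01 (N₂ y) b) else 0) :=
    Finset.sum_nonneg fun b _ => hterm b
  have hdep : 0 ≤ depInd N₁ N₂ s x x' y y' := by
    unfold depInd
    have a1 : (0:ℝ) ≤ if x = x' then 1 else 0 := by split_ifs <;> norm_num
    have a2 : (0:ℝ) ≤ if y = y' then 1 else 0 := by split_ifs <;> norm_num
    linarith
  -- trivial bound
  have triv : Ex (pb N₁ N₂ s) (fun T => gg N₁ N₂ s W T x y * gg N₁ N₂ s W T x y' *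
      gg N₁ N₂ s W T x' y * gg N₁ N₂ s W T x' y') ≤ Real.exp (4 * W) := by
    calc _ ≤ Ex (pb N₁ N₂ s) (fun _ => Real.exp (4 * W)) := by
          apply Ex_mono _ (pb_nonneg N₁ N₂ hs) (pb_le_one N₁ N₂ s)
          intro T
          have b1 := abs_gg_le N₁ N₂ hs hW T x y
          have b2 := abs_gg_le N₁ N₂ hs hW T x y'
          have b3 := abs_gg_le N₁ N₂ hs hW T x' y
          have b4 := abs_gg_le N₁ N₂ hs hW T x' y'
          have e0 := (Real.exp_pos W).le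
          calc _ ≤ |gg N₁ N₂ s W T x y * gg N₁ N₂ s W T x y' *
                gg N₁ N₂ s W T x' y * gg N₁ N₂ s W T x' y'| := le_abs_self _
            _ = |gg N₁ N₂ s W T x y| * |gg N₁ N₂ s W T x y'| *
                |gg N₁ N₂ s W T x' y| * |gg N₁ N₂ s W T x' y'| := by
                rw [abs_mul, abs_mul, abs_mul]
            _ ≤ Real.exp W * Real.exp W * Real.exp W * Real.exp W := by
                gcongr
            _ = Real.exp (4 * W) := by
                rw [← Real.exp_add, ← Real.exp_add, ← Real.exp_add]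
                congr 1
                ring
      _ = Real.exp (4 * W) := Ex_const _ _
  by_cases hone : 1 ≤ depInd N₁ N₂ s x x' y y'
  · calc _ ≤ Real.exp (4 * W) := triv
      _ ≤ Real.exp (4 * W) * depInd N₁ N₂ s x x' y y' := by
        have := Real.exp_pos (4 * W)
        nlinarith
  -- otherwise the expectation vanishes
  have hne : x ≠ x' ∧ y ≠ y' ∧ ∀ b, dg N₁ b + dg N₂ b < s →
      ¬ (b ∈ N₁ x ∧ b ∈ N₂ y ∧ b ∈ N₂ y') ∧ ¬ (b ∈ N₁ x ∧ b ∈ N₁ x' ∧ b ∈ N₂ y) := by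
    have a1 : (0:ℝ) ≤ if x = x' then 1 else 0 := by split_ifs <;> norm_num
    have a2 : (0:ℝ) ≤ if y = y' then 1 else 0 := by split_ifs <;> norm_num
    refine ⟨?_, ?_, ?_⟩
    · intro h
      apply hone
      unfold depInd
      rw [if_pos h]
      linarith
    · intro h
      apply hone
      unfold depInd
      rw [if_pos h]
      linarith
    · intro b hb
      have hle : (if dg N₁ b + dg N₂ b < s then
          (mem01 (N₁ x) b * mem01 (N₂ y) b * mem01 (N₂ y') b +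
            mem01 (N₁ x) b * mem01 (N₁ x') b * mem01 (N₂ y) b) else 0) ≤
          depInd N₁ N₂ s x x' y y' := by
        have := Finset.single_le_sum (f := fun b => (if dg N₁ b + dg N₂ b < s then
          (mem01 (N₁ x) b * mem01 (N₂ y) b * mem01 (N₂ y') b +
            mem01 (N₁ x) b * mem01 (N₁ x') b * mem01 (N₂ y) b) else 0))
            (fun b _ => hterm b) (Finset.mem_univ b)
        unfold depInd
        linarith
      rw [if_pos hb] at hle
      have q1 := mem01_nonneg (N₁ x) b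
      have q2 := mem01_nonneg (N₂ y) b
      have q3 := mem01_nonneg (N₂ y') b
      have q4 := mem01_nonneg (N₁ x') b
      constructor
      · rintro ⟨m1, m2, m3⟩
        apply hone
        refine le_trans ?_ hle
        have : mem01 (N₁ x) b * mem01 (N₂ y) b * mem01 (N₂ y') b = 1 := by
          simp [mem01, m1, m2, m3]
        rw [this]
        have : 0 ≤ mem01 (N₁ x) b * mem01 (N₁ x') b * mem01 (N₂ y) b := by positivity
        linarith
      · rintro ⟨m1, m2, m3⟩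
        apply hone
        refine le_trans ?_ hle
        have : mem01 (N₁ x) b * mem01 (N₁ x') b * mem01 (N₂ y) b = 1 := by
          simp [mem01, m1, m2, m3]
        rw [this]
        have : 0 ≤ mem01 (N₁ x) b * mem01 (N₂ y) b * mem01 (N₂ y') b := by positivity
        linarith
  obtain ⟨-, -, hb⟩ := hne
  have hzero : Ex (pb N₁ N₂ s) (fun T => gg N₁ N₂ s W T x y * gg N₁ N₂ s W T x y' *
      gg N₁ N₂ s W T x' y * gg N₁ N₂ s W T x' y') = 0 := by
    by_cases c1 : pw N₁ N₂ s x y ≤ W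
    swap
    · have : (fun T => gg N₁ N₂ s W T x y * gg N₁ N₂ s W T x y' *
      gg N₁ N₂ s W T x' y * gg N₁ N₂ s W T x' y') = fun _ => 0 := by
        funext T
        have : gg N₁ N₂ s W T x y = 0 := by unfold gg; rw [if_neg c1]
        rw [this]; ring
      rw [this]
      exact Ex_const _ 0
    by_cases c2 : pw N₁ N₂ s x y' ≤ W
    swap
    · have : (fun T => gg N₁ N₂ s W T x y * gg N₁ N₂ s W T x y' *
      gg N₁ N₂ s W T x' y * gg N₁ N₂ s W T x' y') = fun _ => 0 := by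
        funext T
        have : gg N₁ N₂ s W T x y' = 0 := by unfold gg; rw [if_neg c2]
        rw [this]; ring
      rw [this]
      exact Ex_const _ 0
    by_cases c3 : pw N₁ N₂ s x' y ≤ W
    swap
    · have : (fun T => gg N₁ N₂ s W T x y * gg N₁ N₂ s W T x y' *
      gg N₁ N₂ s W T x' y * gg N₁ N₂ s W T x' y') = fun _ => 0 := by
        funext T
        have : gg N₁ N₂ s W T x' y = 0 := by unfold gg; rw [if_neg c3]
        rw [this]; ring
      rw [this]
      exact Ex_const _ 0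
    by_cases c4 : pw N₁ N₂ s x' y' ≤ W
    swap
    · have : (fun T => gg N₁ N₂ s W T x y * gg N₁ N₂ s W T x y' *
      gg N₁ N₂ s W T x' y * gg N₁ N₂ s W T x' y') = fun _ => 0 := by
        funext T
        have : gg N₁ N₂ s W T x' y' = 0 := by unfold gg; rw [if_neg c4]
        rw [this]; ring
      rw [this]
      exact Ex_const _ 0
    have := Ex_four (pb N₁ N₂ s) (N₁ x ∩ N₂ y) (N₁ x ∩ N₂ y') (N₁ x' ∩ N₂ y) (N₁ x' ∩ N₂ y')
      (prod_pb_pos N₁ N₂ hs x y).ne' (∏ b ∈ N₁ x ∩ N₂ y', pb N₁ N₂ s b)⁻¹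
      (∏ b ∈ N₁ x' ∩ N₂ y, pb N₁ N₂ s b)⁻¹ (∏ b ∈ N₁ x' ∩ N₂ y', pb N₁ N₂ s b)⁻¹ ?_ ?_ ?_
    · rw [← this]
      congr 1
      funext T
      unfold gg
      rw [if_pos c1, if_pos c2, if_pos c3, if_pos c4]
    · intro b m1 m2
      rw [Finset.mem_inter] at m1 m2
      apply pb_eq_one N₁ N₂ hs
      by_contra hlt
      exact (hb b (not_le.mp hlt)).1 ⟨m1.1, m1.2, m2.2⟩
    · intro b m1 m2
      rw [Finset.mem_inter] at m1 m2
      apply pb_eq_one N₁ N₂ hs
      by_contra hlt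
      exact (hb b (not_le.mp hlt)).2 ⟨m1.1, m2.1, m1.2⟩
    · intro b m1 m2
      rw [Finset.mem_inter] at m1 m2
      apply pb_eq_one N₁ N₂ hs
      by_contra hlt
      exact (hb b (not_le.mp hlt)).1 ⟨m1.1, m1.2, m2.2⟩
  rw [hzero]
  have := Real.exp_pos (4 * W)
  positivity

lemma sum_depInd {n d : ℕ} (N₁ N₂ : Fin n → Finset B) (h₁ : ∀ x, #(N₁ x) ≤ d) {s : ℝ}
    (hs : 0 < s) : ∑ x, ∑ x', ∑ y, ∑ y', depInd N₁ N₂ s x x' y y' ≤
      2 * (n : ℝ) ^ 3 + s ^ 2 * (n : ℝ) ^ 2 * d := by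
  have e : ∑ x, ∑ x', ∑ y, ∑ y', depInd N₁ N₂ s x x' y y' = 2 * (n : ℝ) ^ 3 +
      ∑ b, (if dg N₁ b + dg N₂ b < s then
        n * (dg N₁ b * dg N₂ b * dg N₂ b + dg N₁ b * dg N₁ b * dg N₂ b) else 0) := by
    unfold depInd
    simp_rw [Finset.sum_add_distrib]
    have q1 : ∑ x : Fin n, ∑ x' : Fin n, ∑ _y : Fin n, ∑ _y' : Fin n,
        (if x = x' then (1:ℝ) else 0) = (n : ℝ) ^ 3 := by
      simp
      ring
    have q2 : ∑ _x : Fin n, ∑ _x' : Fin n, ∑ y : Fin n, ∑ y' : Fin n,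
        (if y = y' then (1:ℝ) else 0) = (n : ℝ) ^ 3 := by
      simp
      ring
    have q3 : ∑ x, ∑ x', ∑ y, ∑ y', ∑ b, (if dg N₁ b + dg N₂ b < s then
        (mem01 (N₁ x) b * mem01 (N₂ y) b * mem01 (N₂ y') b +
        mem01 (N₁ x) b * mem01 (N₁ x') b * mem01 (N₂ y) b) else 0) =
        ∑ b, (if dg N₁ b + dg N₂ b < s then
        n * (dg N₁ b * dg N₂ b * dg N₂ b + dg N₁ b * dg N₁ b * dg N₂ b) else 0) := by
      have r1 : ∀ F : Fin n → Fin n → Fin n → Fin n → B → ℝ,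
          ∑ x, ∑ x', ∑ y, ∑ y', ∑ b, F x x' y y' b = ∑ b, ∑ x, ∑ x', ∑ y, ∑ y', F x x' y y' b := by
        intro F
        have t1 : ∀ x x' y, ∑ y', ∑ b, F x x' y y' b = ∑ b, ∑ y', F x x' y y' b :=
          fun x x' y => Finset.sum_comm
        simp_rw [t1]
        have t2 : ∀ x x', ∑ y, ∑ b, ∑ y', F x x' y y' b = ∑ b, ∑ y, ∑ y', F x x' y y' b :=
          fun x x' => Finset.sum_comm
        simp_rw [t2]
        have t3 : ∀ x, ∑ x', ∑ b, ∑ y, ∑ y', F x x' y y' b =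
            ∑ b, ∑ x', ∑ y, ∑ y', F x x' y y' b := fun x => Finset.sum_comm
        simp_rw [t3]
        exact Finset.sum_comm
      rw [r1]
      apply Finset.sum_congr rfl
      intro b _
      split_ifs with hb
      · simp_rw [Finset.sum_add_distrib]
        have u1 : ∑ x : Fin n, ∑ _x' : Fin n, ∑ y : Fin n, ∑ y' : Fin n,
            mem01 (N₁ x) b * mem01 (N₂ y) b * mem01 (N₂ y') b =
            n * (dg N₁ b * dg N₂ b * dg N₂ b) := by
          simp_rw [← Finset.mul_sum, ← Finset.sum_mul]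
          simp only [Finset.sum_const, Finset.card_univ, Fintype.card_fin, nsmul_eq_mul,
            ← Finset.mul_sum, ← Finset.sum_mul]
          unfold dg
          ring
        have u2 : ∑ x : Fin n, ∑ x' : Fin n, ∑ y : Fin n, ∑ _y' : Fin n,
            mem01 (N₁ x) b * mem01 (N₁ x') b * mem01 (N₂ y) b =
            n * (dg N₁ b * dg N₁ b * dg N₂ b) := by
          simp only [Finset.sum_const, Finset.card_univ, Fintype.card_fin, nsmul_eq_mul,
            ← Finset.mul_sum, ← Finset.sum_mul]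
          unfold dg
          ring
        rw [u1, u2]
        ring
      · simp
    rw [q1, q2, q3]
    ring
  rw [e]
  have hb : ∑ b, (if dg N₁ b + dg N₂ b < s then
        n * (dg N₁ b * dg N₂ b * dg N₂ b + dg N₁ b * dg N₁ b * dg N₂ b) else 0) ≤
      ∑ b, n * s ^ 2 * dg N₁ b := by
    apply Finset.sum_le_sum
    intro b _
    have a1 := dg_nonneg N₁ b
    have a2 := dg_nonneg N₂ b
    have hn : (0:ℝ) ≤ n := Nat.cast_nonneg n
    split_ifs with hlt
    · have k1 : dg N₂ b * (dg N₁ b + dg N₂ b) ≤ s ^ 2 := by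
        rw [sq]
        apply mul_le_mul _ hlt.le (by linarith) hs.le
        linarith
      calc (n:ℝ) * (dg N₁ b * dg N₂ b * dg N₂ b + dg N₁ b * dg N₁ b * dg N₂ b)
          = n * (dg N₁ b * (dg N₂ b * (dg N₁ b + dg N₂ b))) := by ring
        _ ≤ n * (dg N₁ b * s ^ 2) := by gcongr
        _ = n * s ^ 2 * dg N₁ b := by ring
    · positivity
  rw [← Finset.mul_sum] at hb
  have hc : (n:ℝ) * s ^ 2 * ∑ b, dg N₁ b ≤ n * s ^ 2 * (n * d) :=
    mul_le_mul_of_nonneg_left (sum_dg_le N₁ h₁) (by positivity)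
  calc _ ≤ 2 * (n:ℝ) ^ 3 + n * s ^ 2 * (n * d) := by linarith
    _ = _ := by ring

theorem core {n d : ℕ} (hn : 0 < n) (hd : 0 < d) (N₁ N₂ : Fin n → Finset B)
    (h₁ : ∀ x, #(N₁ x) ≤ d) (h₂ : ∀ y, #(N₂ y) ≤ d)
    (H : ∀ σ : Equiv.Perm (Fin n), ∃ f : Fin n → B, Function.Injective f ∧
      ∀ x, f x ∈ N₁ x ∧ f x ∈ N₂ (σ x)) :
    (3 / 16384 : ℝ) * (n:ℝ)^4 ≤
      Real.exp (512 * (d:ℝ)^2/n) * (2*(n:ℝ)^3 + 256*(n:ℝ)^2*(d:ℝ)^3) := by
  classical
  have hn' : (0:ℝ) < n := by exact_mod_cast hn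
  have hd' : (0:ℝ) < d := by exact_mod_cast hd
  set s : ℝ := 16 * d with hs_def
  have hs : 0 < s := by positivity
  set W : ℝ := 128 * (d:ℝ)^2 / n with hW_def
  have hW : 0 < W := by positivity
  set p := pb N₁ N₂ s with hp
  have hp0 : ∀ b, 0 ≤ p b := pb_nonneg N₁ N₂ hs
  have hp1 : ∀ b, p b ≤ 1 := pb_le_one N₁ N₂ s
  set g : Finset B → Fin n → Fin n → ℝ := gg N₁ N₂ s W with hg
  -- expected size of T
  have hcard : Ex p (fun T => (#T : ℝ)) ≤ n / 8 := by
    rw [Ex_card]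
    calc ∑ b, p b ≤ ∑ b, (dg N₁ b + dg N₂ b) / s :=
          Finset.sum_le_sum fun b _ => min_le_right _ _
      _ = (∑ b, dg N₁ b + ∑ b, dg N₂ b) / s := by
          rw [← Finset.sum_div, Finset.sum_add_distrib]
      _ ≤ (n * d + n * d) / s := by
          gcongr
          · exact sum_dg_le N₁ h₁
          · exact sum_dg_le N₂ h₂
      _ = n / 8 := by
          rw [hs_def]
          field_simp
          ring
  -- bad pairs
  set bad : Finset (Fin n × Fin n) := {q | W < pw N₁ N₂ s q.1 q.2} with hbad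
  have hbadcard : (bad.card : ℝ) ≤ (n:ℝ)^2 / 8 := by
    have h1 : (bad.card : ℝ) * W ≤ ∑ q : Fin n × Fin n, pw N₁ N₂ s q.1 q.2 := by
      calc (bad.card : ℝ) * W = ∑ q ∈ bad, W := by simp
        _ ≤ ∑ q ∈ bad, pw N₁ N₂ s q.1 q.2 := by
            apply Finset.sum_le_sum
            intro q hq
            rw [hbad, Finset.mem_filter] at hq
            exact hq.2.le
        _ ≤ ∑ q : Fin n × Fin n, pw N₁ N₂ s q.1 q.2 :=
            Finset.sum_le_sum_of_subset_of_nonneg (Finset.subset_univ _)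
              fun q _ _ => pw_nonneg N₁ N₂ hs.le _ _
    rw [Fintype.sum_prod_type] at h1
    have h2 := sum_pw N₁ N₂ h₁ hs.le
    have h3 : (bad.card : ℝ) * W ≤ s * (n * d) := le_trans h1 h2
    have h4 : s * (n * d) = (n:ℝ)^2 / 8 * W := by
      rw [hs_def, hW_def]
      field_simp
      ring
    rw [h4] at h3
    exact le_of_mul_le_mul_right h3 hW
  -- the quartic form
  set Q : Finset B → ℝ := fun T => ∑ x, ∑ x', ∑ y, ∑ y', g T x y * g T x y' * g T x' y * g T x' y'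
    with hQ
  have hn4 : (0:ℝ) < (n:ℝ)^4 := by positivity
  have hQ0 : ∀ T, 0 ≤ Q T := by
    intro T
    have := cs_four n ∅ ∅ (g T)
    simp only [Finset.sum_empty, ne_eq, OfNat.ofNat_ne_zero, not_false_eq_true, zero_pow] at this
    by_contra hneg
    rw [not_le] at hneg
    have : (n:ℝ)^4 * Q T < 0 := mul_neg_of_pos_of_neg hn4 hneg
    linarith
  have hQlow : ∀ T : Finset B, (n:ℝ)^4 / 4096 * (1 - 2 * #T / n) ≤ Q T := by
    intro T
    by_cases hT : 2 * #T < n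
    · obtain ⟨X, Y, hX, hY, hXY⟩ := exists_XY N₁ N₂ H T
      have hT' : (2:ℝ) * #T < n := by exact_mod_cast hT
      have hX' : (n:ℝ) / 2 ≤ #X := by
        have : (n:ℝ) ≤ #X + #T := by exact_mod_cast hX
        linarith
      have hY' : (n:ℝ) / 2 ≤ #Y := by
        have : (n:ℝ) ≤ #Y + #T := by exact_mod_cast hY
        linarith
      have hZ : ∑ x ∈ X, ∑ y ∈ Y, g T x y ≤ - ((n:ℝ)^2 / 8) := by
        have e1 : ∀ x ∈ X, ∀ y ∈ Y, g T x y ≤ -1 + (if (x, y) ∈ bad then 1 else 0) := by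
          intro x hx y hy
          rw [hg]
          unfold gg
          by_cases hw : pw N₁ N₂ s x y ≤ W
          · rw [if_pos hw]
            have : ind (N₁ x ∩ N₂ y) T = 0 := by
              unfold ind
              rw [if_neg (hXY x hx y hy)]
            rw [this, mul_zero]
            split_ifs <;> norm_num
          · rw [if_neg hw, if_pos]
            · norm_num
            · rw [hbad, Finset.mem_filter]
              exact ⟨mem_univ _, not_le.mp hw⟩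
        calc ∑ x ∈ X, ∑ y ∈ Y, g T x y ≤
            ∑ x ∈ X, ∑ y ∈ Y, (-1 + (if (x, y) ∈ bad then (1:ℝ) else 0)) :=
              Finset.sum_le_sum fun x hx => Finset.sum_le_sum fun y hy => e1 x hx y hy
          _ = - (#X * #Y) + ∑ q ∈ X ×ˢ Y, (if q ∈ bad then (1:ℝ) else 0) := by
              rw [Finset.sum_product]
              simp_rw [Finset.sum_add_distrib]
              simp
          _ ≤ - (#X * #Y) + ∑ q : Fin n × Fin n, (if q ∈ bad then (1:ℝ) else 0) := by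
              gcongr
              exact Finset.subset_univ _
          _ = - (#X * #Y) + bad.card := by simp
          _ ≤ - ((n:ℝ)^2 / 8) := by
              have : (n:ℝ)/2 * (n/2) ≤ #X * #Y := mul_le_mul hX' hY' (by positivity) (by positivity)
              nlinarith
      have h4 := cs_four n X Y (g T)
      have h5 : ((n:ℝ)^2 / 8) ^ 4 ≤ (∑ x ∈ X, ∑ y ∈ Y, g T x y) ^ 4 := by
        have : (n:ℝ)^2/8 ≤ - ∑ x ∈ X, ∑ y ∈ Y, g T x y := by linarith
        calc ((n:ℝ)^2 / 8) ^ 4 ≤ (- ∑ x ∈ X, ∑ y ∈ Y, g T x y) ^ 4 :=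
              pow_le_pow_left₀ (by positivity) this 4
          _ = _ := by ring
      have h6 : ((n:ℝ)^2 / 8) ^ 4 ≤ (n:ℝ)^4 * Q T := le_trans h5 h4
      have h7 : (n:ℝ)^4 * ((n:ℝ)^4 / 4096) ≤ (n:ℝ)^4 * Q T := by
        calc (n:ℝ)^4 * ((n:ℝ)^4 / 4096) = ((n:ℝ)^2 / 8) ^ 4 := by ring
          _ ≤ _ := h6
      have h8 : (n:ℝ)^4 / 4096 ≤ Q T := le_of_mul_le_mul_left h7 hn4
      calc (n:ℝ)^4 / 4096 * (1 - 2 * #T / n) ≤ (n:ℝ)^4 / 4096 * 1 := by
            gcongr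
            have : (0:ℝ) ≤ 2 * #T / n := by positivity
            linarith
        _ = (n:ℝ)^4 / 4096 := mul_one _
        _ ≤ Q T := h8
    · have : (n:ℝ) ≤ 2 * #T := by exact_mod_cast not_lt.mp hT
      have h9 : 1 - 2 * (#T:ℝ) / n ≤ 0 := by
        have : 1 ≤ 2 * (#T:ℝ) / n := by
          rw [le_div_iff₀ hn']
          linarith
        linarith
      calc (n:ℝ)^4 / 4096 * (1 - 2 * #T / n) ≤ 0 :=
            mul_nonpos_of_nonneg_of_nonpos (by positivity) h9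
        _ ≤ Q T := hQ0 T
  have hEQlow : (3 / 16384 : ℝ) * (n:ℝ)^4 ≤ Ex p Q := by
    have h1 := Ex_mono p hp0 hp1 hQlow
    have h2 : Ex p (fun T => (n:ℝ)^4 / 4096 * (1 - 2 * #T / n)) =
        (n:ℝ)^4 / 4096 * (1 - 2 / n * Ex p (fun T => (#T:ℝ))) := by
      rw [Ex_smul]
      congr 1
      have : (fun T : Finset B => (1:ℝ) - 2 * #T / n) =
          fun T => (fun _ => (1:ℝ)) T + (-(2/n)) * (#T:ℝ) := by
        funext T
        ring
      rw [this, Ex_add, Ex_one, Ex_smul]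
      ring
    rw [h2] at h1
    refine le_trans ?_ h1
    have h3 : (2:ℝ) / n * Ex p (fun T => (#T:ℝ)) ≤ 2 / n * (n / 8) :=
      mul_le_mul_of_nonneg_left hcard (by positivity)
    have h4 : (2:ℝ) / n * (n / 8) = 1/4 := by
      field_simp
      norm_num
    rw [h4] at h3
    have h5 : (0:ℝ) < (n:ℝ)^4 / 4096 := by positivity
    nlinarith
  have hEQup : Ex p Q ≤ Real.exp (4 * W) * (2 * (n : ℝ) ^ 3 + s ^ 2 * (n : ℝ) ^ 2 * d) := by
    have h1 : Ex p Q = ∑ x, ∑ x', ∑ y, ∑ y', Ex p (fun T => g T x y * g T x y' *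
        g T x' y * g T x' y') := by
      rw [hQ]
      simp_rw [Ex_sum]
    rw [h1]
    calc _ ≤ ∑ x, ∑ x', ∑ y, ∑ y', Real.exp (4 * W) * depInd N₁ N₂ s x x' y y' :=
          Finset.sum_le_sum fun x _ => Finset.sum_le_sum fun x' _ =>
            Finset.sum_le_sum fun y _ => Finset.sum_le_sum fun y' _ =>
              Ex_gg_le N₁ N₂ hs hW.le x x' y y'
      _ = Real.exp (4 * W) * ∑ x, ∑ x', ∑ y, ∑ y', depInd N₁ N₂ s x x' y y' := by
          simp_rw [Finset.mul_sum]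
      _ ≤ _ := mul_le_mul_of_nonneg_left (sum_depInd N₁ N₂ h₁ hs) (Real.exp_pos _).le
  calc _ ≤ Ex p Q := hEQlow
    _ ≤ _ := hEQup
    _ = _ := by
      rw [hW_def, hs_def]
      congr 1
      · congr 1
        ring
      · ring

end Core

end Pool.Agent.Lib_helper23.VanLint
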