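import Mathlib

/-!
# Definitions for van Lint's function `λ(n)`

A bipartite graph with sides `A = Fin (2 * n)` and `B = Fin m` is given by its adjacency
relation `G : Fin (2 * n) → Fin m → Prop`.
-/

namespace Pool.Agent.Lib_helper23.VanLint

/-- The pairing property of the bipartite graph `G` with sides `A = Fin (2 * n)`, `B = Fin m`:
for every splitting of `A` into `n` unordered pairs, presented by a bijection
`e : Fin n × Bool ≃ A` (the pairs are `{e (s, false), e (s, true)}`, `s : Fin n`), there are
`n` pairwise distinct vertices `f s` of `B` such that `f s` is a common neighbour of the two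
members of the `s`-th pair. -/
def PairingProperty (n m : ℕ) (G : Fin (2 * n) → Fin m → Prop) : Prop :=
  ∀ e : Fin n × Bool ≃ Fin (2 * n), ∃ f : Fin n → Fin m, Function.Injective f ∧
    ∀ s : Fin n, G (e (s, false)) (f s) ∧ G (e (s, true)) (f s)

/-- `Δ_A(G)`: the maximum degree among the vertices of `A`. -/
noncomputable def maxDegA {n m : ℕ} (G : Fin (2 * n) → Fin m → Prop) : ℕ :=
  Finset.univ.sup fun a : Fin (2 * n) => Nat.card {b : Fin m // G a b}

/-- `λ(n, m)`: the least value of `Δ_A(G)` over the graphs `G` with the pairing property. -/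
noncomputable def lam₂ (n m : ℕ) : ℕ :=
  sInf {k : ℕ | ∃ G : Fin (2 * n) → Fin m → Prop, PairingProperty n m G ∧ maxDegA G = k}

/-- `λ(n)`: the least value of `λ(n, m)` as `m` ranges over the integers `m ≥ n`. -/
noncomputable def lam (n : ℕ) : ℕ := sInf {k : ℕ | ∃ m : ℕ, n ≤ m ∧ lam₂ n m = k}

end Pool.Agent.Lib_helper23.VanLint
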