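import Mathlib

open Finset

namespace Pool.Agent.Lib_helper23.VanLint

/-- Counting functions subject to constraints on `k` disjoint pairs (upper bound). -/
lemma card_constrained {A V : Type*} [Fintype A] [DecidableEq A] [Fintype V] {k : ℕ}
    (ε : Fin k × Bool → A) (hε : Function.Injective ε) (P : V → V → Prop)
    [DecidableRel P] :
    Fintype.card {φ : A → V // ∀ i, P (φ (ε (i, false))) (φ (ε (i, true)))} ≤
      Fintype.card {q : V × V // P q.1 q.2} ^ k *
        Fintype.card V ^ (Fintype.card A - 2 * k) := by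
  classical
  have hC : Fintype.card {a : A // a ∉ Set.range ε} = Fintype.card A - 2 * k := by
    rw [Fintype.card_subtype_compl (fun a => a ∈ Set.range ε)]
    have : Fintype.card {a : A // a ∈ Set.range ε} = 2 * k := by
      have h1 := Set.card_range_of_injective hε
      simp only [Fintype.card_prod, Fintype.card_fin, Fintype.card_bool] at h1
      rw [mul_comm] at h1
      rw [← h1]
    rw [this]
  rw [← hC]
  have e1 : Fintype.card {q : V × V // P q.1 q.2} ^ k =
      Fintype.card (Fin k → {q : V × V // P q.1 q.2}) := by simp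
  have e2 : Fintype.card V ^ Fintype.card {a : A // a ∉ Set.range ε} =
      Fintype.card ({a : A // a ∉ Set.range ε} → V) := by simp
  rw [e1, e2, ← Fintype.card_prod]
  apply Fintype.card_le_of_injective
    (fun φ : {φ : A → V // ∀ i, P (φ (ε (i, false))) (φ (ε (i, true)))} =>
      ((fun i => ⟨(φ.1 (ε (i, false)), φ.1 (ε (i, true))), φ.2 i⟩ :
        Fin k → {q : V × V // P q.1 q.2}),
        (fun c => φ.1 c : {a : A // a ∉ Set.range ε} → V)))
  intro φ φ' h
  simp only [Prod.mk.injEq] at h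
  obtain ⟨h1, h2⟩ := h
  apply Subtype.ext
  funext a
  by_cases ha : a ∈ Set.range ε
  · obtain ⟨⟨i, t⟩, rfl⟩ := ha
    have := congrFun h1 i
    simp only [Subtype.mk.injEq, Prod.mk.injEq] at this
    cases t
    · exact this.1
    · exact this.2
  · exact congrFun h2 ⟨a, ha⟩

/-- number of pairs of functions agreeing only inside `T` -/
lemma card_pairs {J K : ℕ} (hK : 0 < K) (T : Finset (Fin J × Fin K)) :
    (Fintype.card {q : (Fin J → Fin K) × (Fin J → Fin K) //
      ∀ j, q.1 j = q.2 j → (j, q.1 j) ∈ T} : ℝ) ≤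
    ((K : ℝ) ^ J) ^ 2 * Real.exp (-((J * K - #T : ℝ) / (K:ℝ) ^ 2)) := by
  classical
  have hK' : (0:ℝ) < K := by exact_mod_cast hK
  have h1 : Fintype.card {q : (Fin J → Fin K) × (Fin J → Fin K) //
      ∀ j, q.1 j = q.2 j → (j, q.1 j) ∈ T} ≤
      Fintype.card (∀ j : Fin J, {r : Fin K × Fin K // r.1 = r.2 → (j, r.1) ∈ T}) := by
    apply Fintype.card_le_of_injective
      (fun q : {q : (Fin J → Fin K) × (Fin J → Fin K) //
        ∀ j, q.1 j = q.2 j → (j, q.1 j) ∈ T} =>
        (fun j => ⟨(q.1.1 j, q.1.2 j), q.2 j⟩ :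
          ∀ j : Fin J, {r : Fin K × Fin K // r.1 = r.2 → (j, r.1) ∈ T}))
    intro q q' h
    apply Subtype.ext
    apply Prod.ext
    · funext j
      have := congrFun h j
      simp only [Subtype.mk.injEq, Prod.mk.injEq] at this
      exact this.1
    · funext j
      have := congrFun h j
      simp only [Subtype.mk.injEq, Prod.mk.injEq] at this
      exact this.2
  rw [Fintype.card_pi] at h1
  have h2 : ∀ j : Fin J,
      (Fintype.card {r : Fin K × Fin K // r.1 = r.2 → (j, r.1) ∈ T} : ℝ) =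
        (K:ℝ) ^ 2 - #{α : Fin K | (j, α) ∉ T} := by
    intro j
    have c1 : Fintype.card {r : Fin K × Fin K // r.1 = r.2 → (j, r.1) ∈ T} +
        #{α : Fin K | (j, α) ∉ T} = K ^ 2 := by
      have c2 : Fintype.card {r : Fin K × Fin K // ¬ (r.1 = r.2 → (j, r.1) ∈ T)} =
          #{α : Fin K | (j, α) ∉ T} := by
        rw [← Fintype.card_subtype]
        apply Fintype.card_congr
        refine ⟨fun r => ⟨r.1.1, ?_⟩, fun α => ⟨(α.1, α.1), ?_⟩, ?_, ?_⟩
        · have := r.2
          tauto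
        · have := α.2
          tauto
        · rintro ⟨⟨a, b⟩, hr⟩
          simp only [Subtype.mk.injEq, Prod.mk.injEq, true_and]
          simp only [Classical.not_imp] at hr
          exact hr.1
        · rintro ⟨a, ha⟩
          rfl
      have c3 := Fintype.card_subtype_compl (fun r : Fin K × Fin K => (r.1 = r.2 → (j, r.1) ∈ T))
      have c4 : Fintype.card {r : Fin K × Fin K // r.1 = r.2 → (j, r.1) ∈ T} ≤
          Fintype.card (Fin K × Fin K) := Fintype.card_subtype_le _
      rw [← c2, c3]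
      simp only [Fintype.card_prod, Fintype.card_fin] at c4 ⊢
      rw [sq]
      omega
    have : ((Fintype.card {r : Fin K × Fin K // r.1 = r.2 → (j, r.1) ∈ T} : ℕ) : ℝ) +
        ((#{α : Fin K | (j, α) ∉ T} : ℕ) : ℝ) = (K:ℝ) ^ 2 := by exact_mod_cast c1
    linarith
  have h3 : ∑ j : Fin J, (#{α : Fin K | (j, α) ∉ T} : ℝ) = J * K - #T := by
    have c1 : ∑ j : Fin J, #{α : Fin K | (j, α) ∉ T} = #Tᶜ := by
      have : #Tᶜ = ∑ j : Fin J, ∑ α : Fin K, if (j, α) ∉ T then 1 else 0 := by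
        rw [← Fintype.sum_prod_type (f := fun q : Fin J × Fin K => if q ∉ T then 1 else 0)]
        rw [Finset.card_eq_sum_ones, ← Finset.sum_filter]
        apply Finset.sum_congr _ fun _ _ => rfl
        ext q
        simp
      rw [this]
      apply Finset.sum_congr rfl
      intro j _
      rw [Finset.card_filter]
    have c2 := Finset.card_add_card_compl T
    rw [Fintype.card_prod, Fintype.card_fin, Fintype.card_fin] at c2
    have c3 : (#T : ℝ) + (#Tᶜ : ℝ) = J * K := by exact_mod_cast c2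
    have c4 : ∑ j : Fin J, (#{α : Fin K | (j, α) ∉ T} : ℝ) = (#Tᶜ : ℝ) := by exact_mod_cast c1
    rw [c4]
    linarith
  calc (Fintype.card {q : (Fin J → Fin K) × (Fin J → Fin K) //
      ∀ j, q.1 j = q.2 j → (j, q.1 j) ∈ T} : ℝ) ≤
      ((∏ j : Fin J, Fintype.card {r : Fin K × Fin K // r.1 = r.2 → (j, r.1) ∈ T} : ℕ) : ℝ) := by
        exact_mod_cast h1
    _ = ∏ j : Fin J, ((K:ℝ) ^ 2 - #{α : Fin K | (j, α) ∉ T}) := by
        push_cast
        apply Finset.prod_congr rfl
        intro j _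
        exact h2 j
    _ ≤ ∏ j : Fin J, ((K:ℝ) ^ 2 * Real.exp (-((#{α : Fin K | (j, α) ∉ T} : ℝ) / (K:ℝ) ^ 2))) := by
        apply Finset.prod_le_prod
        · intro j _
          rw [← h2 j]
          exact Nat.cast_nonneg _
        · intro j _
          have := Real.add_one_le_exp (-((#{α : Fin K | (j, α) ∉ T} : ℝ) / (K:ℝ) ^ 2))
          have hK2 : (0:ℝ) < (K:ℝ) ^ 2 := by positivity
          calc (K:ℝ) ^ 2 - #{α : Fin K | (j, α) ∉ T} =
              (K:ℝ) ^ 2 * (-((#{α : Fin K | (j, α) ∉ T} : ℝ) / (K:ℝ) ^ 2) + 1) := by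
                field_simp
                ring
            _ ≤ _ := mul_le_mul_of_nonneg_left this hK2.le
    _ = ((K:ℝ) ^ 2) ^ J * Real.exp (∑ j : Fin J, -((#{α : Fin K | (j, α) ∉ T} : ℝ) / (K:ℝ) ^ 2)) := by
        rw [Finset.prod_mul_distrib, Real.exp_sum]
        simp
    _ = ((K : ℝ) ^ J) ^ 2 * Real.exp (-((J * K - #T : ℝ) / (K:ℝ) ^ 2)) := by
        rw [Finset.sum_neg_distrib, ← Finset.sum_div, h3]
        ring

lemma card_bad {n J K k : ℕ} (hK : 0 < K) (hk : k ≤ n)
    (ε : Fin k × Bool → Fin (2 * n)) (hε : Function.Injective ε)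
    (T : Finset (Fin J × Fin K)) :
    (Fintype.card {φ : Fin (2 * n) → (Fin J → Fin K) // ∀ i : Fin k,
      ∀ j, φ (ε (i, false)) j = φ (ε (i, true)) j → (j, φ (ε (i, false)) j) ∈ T} : ℝ) ≤
    ((K : ℝ) ^ J) ^ (2 * n) * Real.exp (-((J * K - #T : ℝ) / (K:ℝ) ^ 2)) ^ k := by
  classical
  have h1 := card_constrained (A := Fin (2 * n)) (V := Fin J → Fin K) ε hε
    (fun u v => ∀ j, u j = v j → (j, u j) ∈ T)
  have h2 := card_pairs hK T
  have hV : (Fintype.card (Fin J → Fin K) : ℝ) = (K:ℝ) ^ J := by simp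
  have hK' : (0:ℝ) < K := by exact_mod_cast hK
  calc (Fintype.card {φ : Fin (2 * n) → (Fin J → Fin K) // ∀ i : Fin k,
      ∀ j, φ (ε (i, false)) j = φ (ε (i, true)) j → (j, φ (ε (i, false)) j) ∈ T} : ℝ) ≤
      ((Fintype.card {q : (Fin J → Fin K) × (Fin J → Fin K) //
      ∀ j, q.1 j = q.2 j → (j, q.1 j) ∈ T} ^ k *
        Fintype.card (Fin J → Fin K) ^ (Fintype.card (Fin (2 * n)) - 2 * k) : ℕ) : ℝ) := by
        exact_mod_cast h1
    _ = (Fintype.card {q : (Fin J → Fin K) × (Fin J → Fin K) //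
      ∀ j, q.1 j = q.2 j → (j, q.1 j) ∈ T} : ℝ) ^ k * ((K:ℝ) ^ J) ^ (2 * n - 2 * k) := by
        push_cast
        simp
    _ ≤ (((K : ℝ) ^ J) ^ 2 * Real.exp (-((J * K - #T : ℝ) / (K:ℝ) ^ 2))) ^ k *
        ((K:ℝ) ^ J) ^ (2 * n - 2 * k) := by
        gcongr
    _ = ((K : ℝ) ^ J) ^ (2 * n) * Real.exp (-((J * K - #T : ℝ) / (K:ℝ) ^ 2)) ^ k := by
        rw [mul_pow, ← pow_mul]
        have : ((K:ℝ) ^ J) ^ (2 * n) = ((K:ℝ) ^ J) ^ (2 * k) * ((K:ℝ) ^ J) ^ (2 * n - 2 * k) := by
          rw [← pow_add]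
          congr 1
          omega
        rw [this]
        ring

/-- existence of a good system of functions -/
theorem exists_good {n J K : ℕ} (hn : 1 ≤ n) (hK : 0 < K) (hJK : n ≤ J * K)
    (h : 8 * (n:ℝ) ^ 2 * (J * K) * Real.exp (-((J * K - n : ℝ) / (K:ℝ) ^ 2)) ≤ 1) :
    ∃ φ : Fin (2 * n) → (Fin J → Fin K), ∀ e : Fin n × Bool ≃ Fin (2 * n),
      ∃ f : Fin n → Fin J × Fin K, Function.Injective f ∧
        ∀ s, φ (e (s, false)) (f s).1 = (f s).2 ∧ φ (e (s, true)) (f s).1 = (f s).2 := by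
  classical
  by_contra hcon
  push Not at hcon
  set r : ℝ := Real.exp (-((J * K - n : ℝ) / (K:ℝ) ^ 2)) with hr
  have hr0 : 0 < r := Real.exp_pos _
  have hK' : (0:ℝ) < K := by exact_mod_cast hK
  let Bad : (k : ℕ) → (Fin k × Bool → Fin (2 * n)) → Finset (Fin J × Fin K) →
      Finset (Fin (2 * n) → (Fin J → Fin K)) := fun k ε T =>
    {φ | ∀ i : Fin k, ∀ j, φ (ε (i, false)) j = φ (ε (i, true)) j →
      (j, φ (ε (i, false)) j) ∈ T}
  let Inj : (k : ℕ) → Finset (Fin k × Bool → Fin (2 * n)) := fun k =>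
    {ε | Function.Injective ε}
  have hcover : (univ : Finset (Fin (2 * n) → (Fin J → Fin K))) ⊆
      (Finset.Icc 1 n).biUnion fun k => (Inj k).biUnion fun ε =>
        (Finset.powersetCard k (univ : Finset (Fin J × Fin K))).biUnion fun T => Bad k ε T := by
    intro φ _
    obtain ⟨e, he⟩ := hcon φ
    set t : Fin n → Finset (Fin J × Fin K) := fun s =>
      {b | φ (e (s, false)) b.1 = b.2 ∧ φ (e (s, true)) b.1 = b.2} with ht
    have hnot : ¬ ∀ L : Finset (Fin n), #L ≤ #(L.biUnion t) := by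
      rw [Finset.all_card_le_biUnion_card_iff_exists_injective]
      rintro ⟨f, hf, hf2⟩
      obtain ⟨s, hs⟩ := he f hf
      have := hf2 s
      rw [ht] at this
      simp only [Finset.mem_filter, Finset.mem_univ, true_and] at this
      exact hs this.1 this.2
    push Not at hnot
    obtain ⟨L, hL⟩ := hnot
    have hL0 : 1 ≤ #L := by omega
    have hLn : #L ≤ n := by
      have := Finset.card_le_univ L
      simpa using this
    obtain ⟨T, hT, hTc⟩ := Finset.exists_superset_card_eq (s := L.biUnion t) hL.le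
      (by rw [Fintype.card_prod, Fintype.card_fin, Fintype.card_fin]; omega)
    set iso : Fin #L ≃ L := L.equivFin.symm with hiso
    set ε : Fin #L × Bool → Fin (2 * n) := fun q => e ((iso q.1 : Fin n), q.2) with hε
    have hεinj : Function.Injective ε := by
      intro q q' hqq
      have h1 := e.injective hqq
      simp only [Prod.mk.injEq] at h1
      have h2 : iso q.1 = iso q'.1 := Subtype.ext h1.1
      exact Prod.ext (iso.injective h2) h1.2
    simp only [Finset.mem_biUnion, Finset.mem_Icc]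
    refine ⟨#L, ⟨hL0, hLn⟩, ε, ?_, T, ?_, ?_⟩
    · simp only [Inj, Finset.mem_filter, Finset.mem_univ, true_and]
      exact hεinj
    · rw [Finset.mem_powersetCard]
      exact ⟨Finset.subset_univ _, hTc⟩
    · simp only [Bad, Finset.mem_filter, Finset.mem_univ, true_and]
      intro i j hij
      apply hT
      rw [Finset.mem_biUnion]
      refine ⟨iso i, (iso i).2, ?_⟩
      rw [ht]
      simp only [Finset.mem_filter, Finset.mem_univ, true_and]
      exact ⟨rfl, hij.symm⟩
  have hc1 := Finset.card_le_card hcover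
  have hc2 : #((Finset.Icc 1 n).biUnion fun k => (Inj k).biUnion fun ε =>
        (Finset.powersetCard k (univ : Finset (Fin J × Fin K))).biUnion fun T => Bad k ε T) ≤
      ∑ k ∈ Finset.Icc 1 n, ∑ ε ∈ Inj k,
        ∑ T ∈ Finset.powersetCard k (univ : Finset (Fin J × Fin K)), #(Bad k ε T) :=
    Finset.card_biUnion_le.trans (Finset.sum_le_sum fun k _ =>
      Finset.card_biUnion_le.trans (Finset.sum_le_sum fun ε _ => Finset.card_biUnion_le))
  have hc3 : (#(univ : Finset (Fin (2 * n) → (Fin J → Fin K))) : ℝ) = ((K:ℝ) ^ J) ^ (2 * n) := by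
    rw [Finset.card_univ]
    simp
  have hbad : ∀ k ∈ Finset.Icc 1 n, ∀ ε ∈ Inj k,
      ∀ T ∈ Finset.powersetCard k (univ : Finset (Fin J × Fin K)),
      (#(Bad k ε T) : ℝ) ≤ ((K : ℝ) ^ J) ^ (2 * n) * r ^ k := by
    intro k hk ε hε T hT
    rw [Finset.mem_Icc] at hk
    rw [Finset.mem_powersetCard] at hT
    simp only [Inj, Finset.mem_filter, Finset.mem_univ, true_and] at hε
    have h1 := card_bad hK hk.2 ε hε T
    rw [Fintype.card_subtype] at h1
    refine h1.trans ?_
    have h2 : Real.exp (-((J * K - #T : ℝ) / (K:ℝ) ^ 2)) ≤ r := by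
      rw [hr]
      apply Real.exp_le_exp.mpr
      have : (#T : ℝ) ≤ n := by
        rw [hT.2]
        exact_mod_cast hk.2
      apply neg_le_neg
      apply div_le_div_of_nonneg_right _ (by positivity)
      linarith
    gcongr
  have hsum : (∑ k ∈ Finset.Icc 1 n, ∑ ε ∈ Inj k,
        ∑ T ∈ Finset.powersetCard k (univ : Finset (Fin J × Fin K)), (#(Bad k ε T) : ℝ)) ≤
      ∑ k ∈ Finset.Icc 1 n, ((K : ℝ) ^ J) ^ (2 * n) * (1/2) ^ k := by
    apply Finset.sum_le_sum
    intro k hk
    have hInj : (#(Inj k) : ℝ) ≤ ((2 * n : ℝ) ^ 2) ^ k := by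
      have h1 : #(Inj k) ≤ (2 * n) ^ (k * 2) := by
        calc #(Inj k) ≤ #(univ : Finset (Fin k × Bool → Fin (2 * n))) :=
              Finset.card_le_card (Finset.subset_univ _)
          _ = (2 * n) ^ (k * 2) := by
              rw [Finset.card_univ]
              simp
      calc (#(Inj k) : ℝ) ≤ (((2 * n) ^ (k * 2) : ℕ) : ℝ) := by exact_mod_cast h1
        _ = ((2 * n : ℝ) ^ 2) ^ k := by
            push_cast
            rw [← pow_mul, mul_comm k 2]
    have hPow : (#(Finset.powersetCard k (univ : Finset (Fin J × Fin K))) : ℝ) ≤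
        ((J:ℝ) * K) ^ k := by
      rw [Finset.card_powersetCard, Finset.card_univ, Fintype.card_prod, Fintype.card_fin,
        Fintype.card_fin]
      have := Nat.choose_le_pow (J * K) k
      calc (((J * K).choose k : ℕ) : ℝ) ≤ (((J * K) ^ k : ℕ) : ℝ) := by exact_mod_cast this
        _ = _ := by push_cast; ring
    calc ∑ ε ∈ Inj k, ∑ T ∈ Finset.powersetCard k (univ : Finset (Fin J × Fin K)),
          (#(Bad k ε T) : ℝ) ≤
        ∑ ε ∈ Inj k, ∑ T ∈ Finset.powersetCard k (univ : Finset (Fin J × Fin K)),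
          ((K : ℝ) ^ J) ^ (2 * n) * r ^ k :=
          Finset.sum_le_sum fun ε hε => Finset.sum_le_sum fun T hT => hbad k hk ε hε T hT
      _ = #(Inj k) * (#(Finset.powersetCard k (univ : Finset (Fin J × Fin K))) *
          (((K : ℝ) ^ J) ^ (2 * n) * r ^ k)) := by
          simp
      _ ≤ ((2 * n : ℝ) ^ 2) ^ k * (((J:ℝ) * K) ^ k * (((K : ℝ) ^ J) ^ (2 * n) * r ^ k)) := by
          gcongr
      _ = ((K : ℝ) ^ J) ^ (2 * n) * ((2 * n : ℝ) ^ 2 * (J * K) * r) ^ k := by
          rw [mul_pow, mul_pow]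
          ring
      _ ≤ ((K : ℝ) ^ J) ^ (2 * n) * (1/2) ^ k := by
          have hle : (2 * n : ℝ) ^ 2 * (J * K) * r ≤ 1/2 := by
            have : 8 * (n:ℝ) ^ 2 * (J * K) * r = 2 * ((2 * n : ℝ) ^ 2 * (J * K) * r) := by ring
            rw [this] at h
            linarith
          gcongr
  have hgeo : ∑ k ∈ Finset.Icc 1 n, ((1:ℝ)/2) ^ k < 1 := by
    have : ∀ m : ℕ, ∑ k ∈ Finset.Icc 1 m, ((1:ℝ)/2) ^ k = 1 - (1/2) ^ m := by
      intro m
      induction m with
      | zero => simp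
      | succ m ih =>
        rw [Finset.sum_Icc_succ_top (by omega), ih]
        ring
    rw [this]
    have : (0:ℝ) < (1/2) ^ n := by positivity
    linarith
  have hfinal : ((K:ℝ) ^ J) ^ (2 * n) ≤ ((K:ℝ) ^ J) ^ (2 * n) * ∑ k ∈ Finset.Icc 1 n, ((1:ℝ)/2) ^ k := by
    rw [Finset.mul_sum]
    refine le_trans ?_ hsum
    rw [← hc3]
    exact_mod_cast hc1.trans hc2
  have hpos : (0:ℝ) < ((K:ℝ) ^ J) ^ (2 * n) := by positivity
  nlinarith

end Pool.Agent.Lib_helper23.VanLint
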