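import Mathlib
import Pool.Agent.Lib_helper23.VLDefs
import Pool.Agent.Lib_helper23.VLProb
import Pool.Agent.Lib_helper23.VLCore
import Pool.Agent.Lib_helper23.VLAnalytic
import Pool.Agent.Lib_helper23.VLUpper

open Finset

namespace Pool.Agent.Lib_helper23.VanLint

/-- The complete bipartite graph has the pairing property when `m ≥ n`. -/
lemma complete_pairing {n m : ℕ} (h : n ≤ m) : PairingProperty n m (fun _ _ => True) := by
  intro e
  exact ⟨fun s => Fin.castLE h s, Fin.castLE_injective h, fun s => ⟨trivial, trivial⟩⟩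

lemma lam₂_mem {n m : ℕ} (h : n ≤ m) :
    ∃ G : Fin (2 * n) → Fin m → Prop, PairingProperty n m G ∧ maxDegA G = lam₂ n m := by
  have hne : {k : ℕ | ∃ G : Fin (2 * n) → Fin m → Prop,
      PairingProperty n m G ∧ maxDegA G = k}.Nonempty :=
    ⟨maxDegA (fun (_ : Fin (2 * n)) (_ : Fin m) => True), _, complete_pairing h, rfl⟩
  exact Nat.sInf_mem hne

lemma lam₂_le {n m : ℕ} (G : Fin (2 * n) → Fin m → Prop) (hG : PairingProperty n m G) :
    lam₂ n m ≤ maxDegA G :=
  Nat.sInf_le ⟨G, hG, rfl⟩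

lemma lam_le {n m : ℕ} (h : n ≤ m) : lam n ≤ lam₂ n m :=
  Nat.sInf_le ⟨m, h, rfl⟩

lemma lam_mem (n : ℕ) : ∃ m : ℕ, n ≤ m ∧ lam₂ n m = lam n :=
  Nat.sInf_mem (s := {k : ℕ | ∃ m : ℕ, n ≤ m ∧ lam₂ n m = k}) ⟨lam₂ n n, n, le_rfl, rfl⟩

/-- `λ(n)` is attained. -/
lemma lam_attained (n : ℕ) : ∃ m : ℕ, n ≤ m ∧ ∃ G : Fin (2 * n) → Fin m → Prop,
    PairingProperty n m G ∧ maxDegA G = lam n := by
  obtain ⟨m, hm, h⟩ := lam_mem n
  obtain ⟨G, hG, hG2⟩ := lam₂_mem hm
  exact ⟨m, hm, G, hG, hG2.trans h⟩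

/-- a fixed identification `Fin n × Bool ≃ Fin (2 * n)` -/
noncomputable def baseEquiv (n : ℕ) : Fin n × Bool ≃ Fin (2 * n) :=
  Fintype.equivOfCardEq (by simp [mul_comm])

/-- The lower-bound inequality for a graph with the pairing property. -/
lemma core_graph {n m d : ℕ} (hn : 0 < n) (hd : 0 < d) (G : Fin (2 * n) → Fin m → Prop)
    (hG : PairingProperty n m G) (hdeg : maxDegA G ≤ d) :
    (3 / 16384 : ℝ) * (n:ℝ)^4 ≤
      Real.exp (512 * (d:ℝ)^2/n) * (2*(n:ℝ)^3 + 256*(n:ℝ)^2*(d:ℝ)^3) := by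
  classical
  set e₀ := baseEquiv n with he₀
  have hcard : ∀ a : Fin (2 * n), #{b : Fin m | G a b} ≤ d := by
    intro a
    have h1 : Nat.card {b : Fin m // G a b} ≤ maxDegA G :=
      Finset.le_sup (f := fun a : Fin (2 * n) => Nat.card {b : Fin m // G a b})
        (Finset.mem_univ a)
    rw [Nat.card_eq_fintype_card, Fintype.card_subtype] at h1
    exact h1.trans hdeg
  apply core hn hd
    (fun x : Fin n => ({b : Fin m | G (e₀ (x, false)) b} : Finset (Fin m)))
    (fun y : Fin n => ({b : Fin m | G (e₀ (y, true)) b} : Finset (Fin m)))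
    (fun x => hcard _) (fun y => hcard _)
  intro σ
  let τ : Fin n × Bool ≃ Fin n × Bool :=
    { toFun := fun q => if q.2 then (σ q.1, true) else (q.1, false)
      invFun := fun q => if q.2 then (σ.symm q.1, true) else (q.1, false)
      left_inv := by
        rintro ⟨x, t⟩
        cases t <;> simp
      right_inv := by
        rintro ⟨x, t⟩
        cases t <;> simp }
  obtain ⟨f, hf, hf2⟩ := hG (τ.trans e₀)
  refine ⟨f, hf, fun x => ?_⟩
  have h := hf2 x
  simp only [τ, Equiv.trans_apply, Equiv.coe_fn_mk, Bool.false_eq_true, if_false, if_true] at h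
  simp only [Finset.mem_filter, Finset.mem_univ, true_and]
  exact h

lemma one_le_lam {n : ℕ} (hn : 1 ≤ n) : 1 ≤ lam n := by
  obtain ⟨m, hm, G, hG, hGd⟩ := lam_attained n
  obtain ⟨f, -, hf⟩ := hG (baseEquiv n)
  have h := (hf ⟨0, hn⟩).1
  rw [← hGd]
  have h1 : Nat.card {b : Fin m // G (baseEquiv n (⟨0, hn⟩, false)) b} ≤ maxDegA G :=
    Finset.le_sup (f := fun a : Fin (2 * n) => Nat.card {b : Fin m // G a b})
      (Finset.mem_univ _)
  refine le_trans ?_ h1
  have : Nonempty {b : Fin m // G (baseEquiv n (⟨0, hn⟩, false)) b} := ⟨⟨_, h⟩⟩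
  exact Nat.one_le_iff_ne_zero.mpr (Nat.card_pos.ne')

lemma lam_le_self (n : ℕ) : lam n ≤ n := by
  refine (lam_le (le_refl n)).trans ((lam₂_le _ (complete_pairing (le_refl n))).trans ?_)
  unfold maxDegA
  apply Finset.sup_le
  intro a _
  rw [Nat.card_eq_fintype_card]
  refine (Fintype.card_subtype_le _).trans ?_
  simp

lemma lam_le_of_good {n J K : ℕ} (hJK : n ≤ J * K)
    (φ : Fin (2 * n) → (Fin J → Fin K))
    (hφ : ∀ e : Fin n × Bool ≃ Fin (2 * n),
      ∃ f : Fin n → Fin J × Fin K, Function.Injective f ∧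
        ∀ s, φ (e (s, false)) (f s).1 = (f s).2 ∧ φ (e (s, true)) (f s).1 = (f s).2) :
    lam n ≤ J := by
  classical
  let G : Fin (2 * n) → Fin (J * K) → Prop := fun a b =>
    φ a (finProdFinEquiv.symm b).1 = (finProdFinEquiv.symm b).2
  have hG : PairingProperty n (J * K) G := by
    intro e
    obtain ⟨f, hf, hf2⟩ := hφ e
    refine ⟨fun s => finProdFinEquiv (f s), finProdFinEquiv.injective.comp hf, fun s => ?_⟩
    simp only [G, Equiv.symm_apply_apply]
    exact hf2 s
  refine (lam_le hJK).trans ((lam₂_le G hG).trans ?_)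
  unfold maxDegA
  apply Finset.sup_le
  intro a _
  rw [Nat.card_eq_fintype_card]
  calc Fintype.card {b : Fin (J * K) // G a b} ≤ Fintype.card (Fin J) := by
        apply Fintype.card_le_of_injective
          (fun b : {b : Fin (J * K) // G a b} => (finProdFinEquiv.symm b.1).1)
        rintro ⟨b, hb⟩ ⟨b', hb'⟩ h
        apply Subtype.ext
        apply finProdFinEquiv.symm.injective
        apply Prod.ext
        · exact h
        · rw [← hb, ← hb', show (finProdFinEquiv.symm b).1 = (finProdFinEquiv.symm b').1 from h]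
    _ = J := Fintype.card_fin J

lemma upper {n : ℕ} (hn : 2 ≤ n) : (lam n : ℝ) ≤ 17 * Real.sqrt (n * Real.log n) := by
  have hn2 : (2:ℝ) ≤ n := by exact_mod_cast hn
  have hn0 : (0:ℝ) < n := by linarith
  have hlog : 0 < Real.log n := Real.log_pos (by linarith)
  have hself : (lam n : ℝ) ≤ n := by exact_mod_cast lam_le_self n
  rcases lt_or_ge (n:ℝ) (8 * Real.log n) with hlt | hge
  · -- small `n`: the trivial bound suffices
    have h1 : (n:ℝ) ≤ 3 * Real.sqrt (n * Real.log n) := by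
      have h2 : (n:ℝ) ^ 2 ≤ (3 * Real.sqrt (n * Real.log n)) ^ 2 := by
        rw [mul_pow, Real.sq_sqrt (by positivity)]
        nlinarith
      exact le_of_sq_le_sq h2 (by positivity)
    have h3 := Real.sqrt_nonneg (n * Real.log n)
    linarith
  · set x : ℝ := Real.sqrt (n / (8 * Real.log n)) with hx
    have hx1 : 1 ≤ x := by
      rw [hx, Real.one_le_sqrt, le_div_iff₀ (by positivity)]
      linarith
    have hxsq : x ^ 2 = n / (8 * Real.log n) := by
      rw [hx, Real.sq_sqrt (by positivity)]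
    set K : ℕ := ⌊x⌋₊ with hK
    have hKx : (K:ℝ) ≤ x := Nat.floor_le (by linarith)
    have hK1 : 1 ≤ K := by
      rw [hK, Nat.one_le_floor_iff]
      exact hx1
    have hK1' : (1:ℝ) ≤ K := by exact_mod_cast hK1
    have hKhalf : x / 2 ≤ K := by
      have := Nat.lt_floor_add_one x
      rw [← hK] at this
      linarith
    set J : ℕ := ⌈(2 * n / K : ℝ)⌉₊ with hJ
    have hJlow : (2 * n / K : ℝ) ≤ J := Nat.le_ceil _
    have hJup : (J:ℝ) < 2 * n / K + 1 := Nat.ceil_lt_add_one (by positivity)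
    have hxn : x ≤ n := by
      have : x ^ 2 ≤ (n:ℝ) ^ 2 := by
        rw [hxsq, div_le_iff₀ (by positivity)]
        have hl : (1:ℝ)/2 ≤ Real.log n := by
          have h1 : Real.log 2 ≤ Real.log n := Real.log_le_log (by norm_num) hn2
          have h2 := Real.log_two_gt_d9
          linarith
        nlinarith
      exact le_of_sq_le_sq this hn0.le
    have hKn : (K:ℝ) ≤ n := hKx.trans hxn
    have hKpos : (0:ℝ) < K := by linarith
    have hJK2 : (2 * n : ℝ) ≤ J * K := by
      rw [div_le_iff₀ hKpos] at hJlow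
      linarith
    have hJK3 : (J * K : ℝ) ≤ 3 * n := by
      have : (J * K : ℝ) ≤ (2 * n / K + 1) * K := by gcongr
      have h2 : ((2:ℝ) * n / K + 1) * K = 2 * n + K := by field_simp
      linarith
    have hJKn : n ≤ J * K := by
      have : (n:ℝ) ≤ ((J * K : ℕ) : ℝ) := by push_cast; linarith
      exact_mod_cast this
    have hK2 : (K:ℝ) ^ 2 ≤ n / (8 * Real.log n) := by
      rw [← hxsq]
      exact pow_le_pow_left₀ hKpos.le hKx 2
    have hcond : 8 * (n:ℝ) ^ 2 * (J * K) * Real.exp (-((J * K - n : ℝ) / (K:ℝ) ^ 2)) ≤ 1 := by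
      have h1 : 8 * Real.log n ≤ (J * K - n : ℝ) / (K:ℝ) ^ 2 := by
        rw [le_div_iff₀ (by positivity)]
        calc 8 * Real.log n * (K:ℝ) ^ 2 ≤ 8 * Real.log n * (n / (8 * Real.log n)) := by gcongr
          _ = n := by field_simp
          _ ≤ J * K - n := by linarith
      have h2 : Real.exp (-((J * K - n : ℝ) / (K:ℝ) ^ 2)) ≤ 1 / (n:ℝ) ^ 8 := by
        calc Real.exp (-((J * K - n : ℝ) / (K:ℝ) ^ 2)) ≤ Real.exp (-(8 * Real.log n)) :=
              Real.exp_le_exp.mpr (by linarith)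
          _ = 1 / (n:ℝ) ^ 8 := by
              rw [Real.exp_neg, one_div]
              congr 1
              rw [show 8 * Real.log n = ((8:ℕ):ℝ) * Real.log n by norm_num, ← Real.log_pow,
                Real.exp_log (by positivity)]
      have h5 : (32:ℝ) ≤ (n:ℝ) ^ 5 := by
        calc (32:ℝ) = 2 ^ 5 := by norm_num
          _ ≤ (n:ℝ) ^ 5 := pow_le_pow_left₀ (by norm_num) hn2 5
      calc 8 * (n:ℝ) ^ 2 * (J * K) * Real.exp (-((J * K - n : ℝ) / (K:ℝ) ^ 2)) ≤
          8 * (n:ℝ) ^ 2 * (3 * n) * (1 / (n:ℝ) ^ 8) := by gcongr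
        _ = 24 / (n:ℝ) ^ 5 := by field_simp; ring
        _ ≤ 1 := by
            rw [div_le_one (by positivity)]
            linarith
    obtain ⟨φ, hφ⟩ := exists_good (n := n) (J := J) (K := K)
      (by omega) (by omega) hJKn hcond
    have hlamJ : (lam n : ℝ) ≤ J := by exact_mod_cast lam_le_of_good hJKn φ hφ
    -- `J ≤ 3 n / K ≤ 6 n / x`
    have hJ1 : (J:ℝ) ≤ 3 * n / K := by
      rw [le_div_iff₀ hKpos]
      exact hJK3
    have hJ2 : (J:ℝ) ≤ 6 * n / x := by
      calc (J:ℝ) ≤ 3 * n / K := hJ1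
        _ ≤ 3 * n / (x / 2) := by gcongr
        _ = 6 * n / x := by field_simp; ring
    have hxs : (n:ℝ) = x * Real.sqrt (8 * (n * Real.log n)) := by
      rw [hx, ← Real.sqrt_mul (by positivity)]
      have : (n:ℝ) / (8 * Real.log n) * (8 * (n * Real.log n)) = (n:ℝ) ^ 2 := by
        field_simp
      rw [this, Real.sqrt_sq hn0.le]
    have h8 : Real.sqrt (8 * (n * Real.log n)) ≤ (17/6) * Real.sqrt (n * Real.log n) := by
      rw [Real.sqrt_mul (by norm_num)]
      have : Real.sqrt 8 ≤ 17/6 := by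
        rw [Real.sqrt_le_left (by norm_num)]
        norm_num
      gcongr
    have hx0 : 0 < x := by linarith
    calc (lam n : ℝ) ≤ J := hlamJ
      _ ≤ 6 * n / x := hJ2
      _ = 6 * Real.sqrt (8 * (n * Real.log n)) := by
          rw [div_eq_iff hx0.ne']
          nth_rewrite 1 [hxs]
          ring
      _ ≤ 6 * ((17/6) * Real.sqrt (n * Real.log n)) := by gcongr
      _ = 17 * Real.sqrt (n * Real.log n) := by ring

lemma lower : ∃ c : ℝ, 0 < c ∧ ∀ n : ℕ, 2 ≤ n →
    c * Real.sqrt (n * Real.log n) ≤ (lam n : ℝ) := by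
  obtain ⟨c, hc, h⟩ := exists_const_lower
  refine ⟨c, hc, fun n hn => ?_⟩
  have h1 : 1 ≤ lam n := one_le_lam (by omega)
  apply h n (lam n) hn h1
  obtain ⟨m, hm, G, hG, hGd⟩ := lam_attained n
  exact core_graph (by omega) (by omega) G hG hGd.le

end Pool.Agent.Lib_helper23.VanLint
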